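import Pool.Agent.Lib.MP_fb430f_co.Comp

set_option autoImplicit false

namespace Pool.Agent.Lib.E94.CRIT

open Finset MvPolynomial
open Pool.Agent.Lib.MP_fb430f_co

/-- A function with continuous derivative has a strict derivative given by the partial ones. -/
lemma strict {n : ℕ} {f : (Fin n → ℝ) → ℝ} (hf : ContDiff ℝ 1 f) (z : Fin n → ℝ) :
    ∃ L : (Fin n → ℝ) →L[ℝ] ℝ, HasStrictFDerivAt f L z ∧ ∀ (i : Fin n) (c : ℝ),
      HasDerivAt (fun t => f (Function.update z i t)) c (z i) → L (Pi.single i 1) = c := by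
  have h := hf.contDiffAt.hasStrictFDerivAt (x := z) one_ne_zero
  refine ⟨_, h, fun i c hc => ?_⟩
  have h1 : HasFDerivAt f (fderiv ℝ f z) (Function.update z i (z i)) := by
    rw [Function.update_eq_self]
    exact h.hasFDerivAt
  exact (h1.comp_hasDerivAt (z i) (hasDerivAt_update z i (z i))).unique hc

lemma cd {n : ℕ} (p : MvPolynomial (Fin n) ℝ) : ContDiff ℝ 1 fun y : Fin n → ℝ => eval y p :=
  (AnalyticOnNhd.eval_mvPolynomial p).contDiff

theorem crit2 (G p : MvPolynomial (Fin 2) ℝ) {U : Set (Fin 2 → ℝ)} (hU : IsOpen U)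
    (hb : Bornology.IsBounded U) (hG : ∀ y ∈ closure U, eval y G ≠ 0 ↔ y ∈ U) (v : Fin 2 → ℝ)
    (d : ℝ) {x x' : Fin 2 → ℝ} (hx' : x' ∈ connectedComponentIn U x) (hd : eval x' p = d) :
    ∃ z ∈ connectedComponentIn U x, eval z p = d ∧
      (eval z (pderiv 0 G) - v 0 * eval z G) * eval z (pderiv 1 p) =
        (eval z (pderiv 1 G) - v 1 * eval z G) * eval z (pderiv 0 p) := by
  let ψ : (Fin 2 → ℝ) → ℝ := fun y => (eval y G) ^ 2 * Real.exp (-(2 * ∑ j, v j * y j))
  have hψ : ContDiff ℝ 1 ψ := by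
    have := cd G
    fun_prop
  have hsub := connectedComponentIn_subset U x
  have hx : x ∈ U := connectedComponentIn_nonempty_iff.1 ⟨_, hx'⟩
  have hx0 := mem_connectedComponentIn hx
  have hcl : IsClosed {y : Fin 2 → ℝ | eval y p = d} :=
    isClosed_eq p.continuous_eval continuous_const
  obtain ⟨z, ⟨hz, hzd⟩, hmax⟩ := ((hb.subset hsub).isCompact_closure.inter_right hcl).exists_isMaxOn
    ⟨x', subset_closure hx', hd⟩ hψ.continuous.continuousOn
  have hzd' : eval z p = d := hzd
  have hzG : eval z G ≠ 0 := fun h => by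
    have h1 : ψ x' ≤ ψ z := hmax ⟨subset_closure hx', hd⟩
    have h2 : 0 < ψ x' := mul_pos (sq_pos_of_ne_zero ((hG x' (subset_closure (hsub hx'))).2
      (hsub hx'))) (Real.exp_pos _)
    simp only [ψ, h] at h1 h2
    linarith
  have hzU : z ∈ U := (hG z (closure_mono hsub hz)).1 hzG
  have hzc : z ∈ connectedComponentIn U x := by
    have h1 : IsPreconnected (insert z (connectedComponentIn U x)) :=
      isPreconnected_connectedComponentIn.subset_closure (Set.subset_insert _ _)
        (Set.insert_subset hz subset_closure)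
    exact h1.subset_connectedComponentIn (Set.mem_insert_of_mem _ hx0)
      (Set.insert_subset hzU hsub) (Set.mem_insert _ _)
  refine ⟨z, hzc, hzd', ?_⟩
  have hloc : IsLocalMaxOn ψ {y | eval y p = eval z p} z := by
    have h1 : connectedComponentIn U x ∈ nhdsWithin z {y | eval y p = eval z p} :=
      mem_nhdsWithin_of_mem_nhds (hU.connectedComponentIn.mem_nhds hzc)
    filter_upwards [h1, self_mem_nhdsWithin] with y hy hy'
    exact hmax ⟨subset_closure hy, hy'.trans hzd'⟩
  obtain ⟨L, hL, hL'⟩ := strict (cd p) z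
  obtain ⟨M, hM, hM'⟩ := strict hψ z
  obtain ⟨a, b, hab, hrel⟩ :=
    (IsLocalExtrOn.exists_multipliers_of_hasStrictFDerivAt_1d (Or.inr hloc) hL hM)
  have hE := Real.exp_pos (-(2 * ∑ j, v j * z j))
  have key : ∀ i : Fin 2, a * eval z (pderiv i p) + b * (2 * eval z G *
      Real.exp (-(2 * ∑ j, v j * z j)) * (eval z (pderiv i G) - v i * eval z G)) = 0 := by
    intro i
    have h1 := hasDerivAt_eval z i (∑ j, C (v j) * X j)
    have h2 : eval z (pderiv i (∑ j, C (v j) * X j : MvPolynomial (Fin 2) ℝ)) = v i := by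
      fin_cases i <;> simp [pderiv_X]
    rw [h2] at h1
    simp only [map_sum, map_mul, eval_C, eval_X] at h1
    have h3 := hM' i _ (((hasDerivAt_eval z i G).pow 2).mul ((h1.const_mul 2).neg.exp))
    simp only [Function.update_eq_self, Pi.pow_apply, Pi.neg_apply] at h3
    have h4 := hL' i _ (hasDerivAt_eval z i p)
    have h5 := congrArg (fun T : (Fin 2 → ℝ) →L[ℝ] ℝ => T (Pi.single i 1)) hrel
    have h7 : a * L (Pi.single i 1) + b * M (Pi.single i 1) = 0 := h5
    rw [h3, h4] at h7
    simp only [Nat.cast_ofNat, Nat.add_one_sub_one, pow_one] at h7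
    linear_combination h7
  have k0 := key 0
  have k1 := key 1
  have h6 : 2 * eval z G * Real.exp (-(2 * ∑ j, v j * z j)) ≠ 0 := by positivity
  generalize 2 * eval z G * Real.exp (-(2 * ∑ j, v j * z j)) = w at k0 k1 h6
  generalize eval z (pderiv 0 G) - v 0 * eval z G = A0 at k0 ⊢
  generalize eval z (pderiv 1 G) - v 1 * eval z G = A1 at k1 ⊢
  generalize eval z (pderiv 0 p) = P0 at k0 ⊢
  generalize eval z (pderiv 1 p) = P1 at k1 ⊢
  by_cases hb0 : b = 0
  · have ha : a ≠ 0 := fun h => hab (by rw [h, hb0]; rfl)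
    rw [hb0, zero_mul, add_zero] at k0 k1
    rw [(mul_eq_zero.1 k0).resolve_left ha, (mul_eq_zero.1 k1).resolve_left ha, mul_zero, mul_zero]
  · apply mul_left_cancel₀ (mul_ne_zero hb0 h6)
    linear_combination P1 * k0 - P0 * k1

end Pool.Agent.Lib.E94.CRIT
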