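import Pool.Agent.Lib.E94.Blue
import Pool.Agent.Lib.E94.B_CRIT

set_option autoImplicit false

namespace Pool.Agent.Lib.E94

open Finset MvPolynomial
open Pool.Agent.Lib.MP_fb430f_co

namespace CC

/-- The one-variable polynomial with given coefficients. -/
noncomputable def poly {N : ℕ} (c : Fin N → ℝ) : Polynomial ℝ :=
  ∑ k : Fin N, Polynomial.monomial k (c k)

lemma poly_ne {N : ℕ} {c : Fin N → ℝ} {k : Fin N} (h : c k ≠ 0) : poly c ≠ 0 := fun h0 => h (by
  have := congrArg (fun r => Polynomial.coeff r k) h0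
  simpa [poly, Polynomial.coeff_monomial, Fin.val_inj] using this)

lemma poly_eval {N : ℕ} (c : Fin N → ℝ) (y : ℝ) :
    (poly c).eval y = ∑ k : Fin N, c k * y ^ (k : ℕ) := by
  simp only [poly, Polynomial.eval_finsetSum, Polynomial.eval_monomial]

lemma poly_deg {J : ℕ} (c : Fin (J + 1) → ℝ) : (poly c).natDegree ≤ J :=
  Polynomial.natDegree_sum_le_of_forall_le _ _ fun k _ =>
    (Polynomial.natDegree_monomial_le _).trans (Nat.lt_succ_iff.1 k.2)

/-- Four polynomials in two variables satisfy a relation, homogeneous in the last two. -/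
lemma core (p l A B : MvPolynomial (Fin 2) ℝ) {c e : ℕ} (hp : p.totalDegree ≤ c)
    (hl : l.totalDegree ≤ 1) (hA : A.totalDegree ≤ e) (hB : B.totalDegree ≤ e) :
    ∃ (I κ : ℕ) (w : Fin I × Fin (9 * (c + 1) * (e + 1) + 1) × Fin (κ + 1) → ℝ), w ≠ 0 ∧
      ∑ a, w a • (p ^ (a.1 : ℕ) * l ^ (a.2.1 : ℕ) * (A ^ (a.2.2 : ℕ) * B ^ (κ - a.2.2))) = 0 := by
  set J := 9 * (c + 1) * (e + 1) with hJ
  refine ⟨(J + 1) * (e + 1), (J + 1) * (c + 1), ?_⟩
  refine exists_dep _ ((J + 1) * (e + 1) * c + J + (J + 1) * (c + 1) * e) (fun a => ?_) ?_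
  · refine (totalDegree_mul _ _).trans (add_le_add ((totalDegree_mul _ _).trans
      (add_le_add ?_ ?_)) ?_)
    · exact (totalDegree_pow _ _).trans (Nat.mul_le_mul a.1.2.le hp)
    · have := a.2.1.2
      exact (totalDegree_pow _ _).trans ((Nat.mul_le_mul_left _ hl).trans (by omega))
    · refine (totalDegree_mul _ _).trans ?_
      have h1 := (totalDegree_pow A (a.2.2)).trans (Nat.mul_le_mul_left _ hA)
      have h2 := (totalDegree_pow B ((J + 1) * (c + 1) - a.2.2)).trans (Nat.mul_le_mul_left _ hB)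
      have h3 : (a.2.2 : ℕ) + ((J + 1) * (c + 1) - a.2.2) = (J + 1) * (c + 1) := by
        have := a.2.2.2
        omega
      calc _ ≤ (a.2.2 : ℕ) * e + ((J + 1) * (c + 1) - a.2.2) * e := add_le_add h1 h2
        _ = (J + 1) * (c + 1) * e := by rw [← add_mul, h3]
  · simp only [Fintype.card_prod, Fintype.card_fin]
    have h1 : (J + 1) * (e + 1) * c + J + (J + 1) * (c + 1) * e + 1 ≤
        (J + 1) * (3 * ((c + 1) * (e + 1))) := by
      have h2 : (e + 1) * c + 1 + (c + 1) * e ≤ 3 * ((c + 1) * (e + 1)) := by nlinarith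
      calc _ = (J + 1) * ((e + 1) * c + 1 + (c + 1) * e) := by ring
        _ ≤ _ := Nat.mul_le_mul_left _ h2
    calc _ ≤ ((J + 1) * (3 * ((c + 1) * (e + 1)))) ^ 2 := Nat.pow_le_pow_left h1 _
      _ = (J + 1) * (e + 1) * ((J + 1) * (c + 1)) * J := by rw [hJ]; ring
      _ < (J + 1) * (e + 1) * ((J + 1) * (c + 1)) * (J + 1) :=
        Nat.mul_lt_mul_of_pos_left (by omega) (by positivity)
      _ = (J + 1) * (e + 1) * ((J + 1) * ((J + 1) * (c + 1))) := by ring
      _ ≤ _ := Nat.mul_le_mul_left _ (Nat.mul_le_mul_left _ (Nat.le_succ _))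

lemma rel1 (p l A B : MvPolynomial (Fin 2) ℝ) {c e : ℕ} (hp : p.totalDegree ≤ c)
    (hl : l.totalDegree ≤ 1) (hA : A.totalDegree ≤ e) (hB : B.totalDegree ≤ e) :
    ∃ a : Polynomial ℝ, a ≠ 0 ∧ ∀ δ, a.eval δ ≠ 0 → ∃ b : Polynomial ℝ, b ≠ 0 ∧
      ∀ s, b.eval s ≠ 0 → ∃ r : Polynomial ℝ, r ≠ 0 ∧ r.natDegree ≤ 9 * (c + 1) * (e + 1) ∧
        ∀ z, eval z p = δ → eval z B ≠ 0 → eval z A = s * eval z B → r.IsRoot (eval z l) := by
  obtain ⟨I, κ, w, hw, hrel⟩ := core p l A B hp hl hA hB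
  obtain ⟨⟨i0, k0, t0⟩, h0⟩ := Function.ne_iff.1 hw
  refine ⟨poly fun i => w (i, k0, t0), poly_ne (k := i0) h0, fun δ hδ => ?_⟩
  rw [poly_eval] at hδ
  refine ⟨poly fun t => ∑ i, w (i, k0, t) * δ ^ (i : ℕ), poly_ne (k := t0) hδ, fun s hs => ?_⟩
  rw [poly_eval] at hs
  refine ⟨poly fun k => ∑ t, (∑ i, w (i, k, t) * δ ^ (i : ℕ)) * s ^ (t : ℕ),
    poly_ne (k := k0) hs, poly_deg _, fun z hz hBz hAz => ?_⟩
  have h1 := congrArg (eval z) hrel
  simp only [map_sum, smul_eval, map_mul, map_pow, hz, hAz, map_zero] at h1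
  have h2 : ∀ t : Fin (κ + 1), (s * eval z B) ^ (t : ℕ) * eval z B ^ (κ - t) =
      s ^ (t : ℕ) * eval z B ^ κ := fun t => by
    have h3 : (t : ℕ) + (κ - t) = κ := by have := t.2; omega
    rw [mul_pow, mul_assoc, ← pow_add, h3]
  simp only [h2] at h1
  rw [Polynomial.IsRoot, ← mul_eq_zero_iff_right (pow_ne_zero κ hBz), ← h1, poly_eval,
    Fintype.sum_prod_type_right, Fintype.sum_prod_type, sum_mul]
  refine sum_congr rfl fun k _ => ?_
  rw [sum_mul, sum_mul]
  refine sum_congr rfl fun t _ => ?_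
  rw [sum_mul, sum_mul, sum_mul]
  exact sum_congr rfl fun i _ => by ring

lemma rel2 (p l h : MvPolynomial (Fin 2) ℝ) {c e : ℕ} (hp : p.totalDegree ≤ c)
    (hl : l.totalDegree ≤ 1) (hh : h.totalDegree ≤ e) (h0 : h ≠ 0) :
    ∃ a : Polynomial ℝ, a ≠ 0 ∧ ∀ δ, a.eval δ ≠ 0 → ∃ r : Polynomial ℝ, r ≠ 0 ∧
      r.natDegree ≤ 9 * (c + 1) * (e + 1) ∧
        ∀ z, eval z p = δ → eval z h = 0 → r.IsRoot (eval z l) := by
  classical
  obtain ⟨I, κ, w, hw, hrel⟩ := core p l h 1 hp hl hh (by simp)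
  obtain ⟨a1, ha1⟩ := Function.ne_iff.1 hw
  obtain ⟨⟨i0, k0, t0⟩, hmem, hmin⟩ := exists_min_image (univ.filter fun a => w a ≠ 0)
    (fun a => (a.2.2 : ℕ)) ⟨a1, mem_filter.2 ⟨mem_univ _, ha1⟩⟩
  have hw0 : w (i0, k0, t0) ≠ 0 := (mem_filter.1 hmem).2
  have hmin' : ∀ a, w a ≠ 0 → (t0 : ℕ) ≤ a.2.2 := fun a ha =>
    hmin a (mem_filter.2 ⟨mem_univ _, ha⟩)
  have hW : ∑ a, w a • (p ^ (a.1 : ℕ) * l ^ (a.2.1 : ℕ) * h ^ ((a.2.2 : ℕ) - t0)) = 0 := by
    rw [← mul_eq_zero_iff_right (pow_ne_zero (t0 : ℕ) h0), ← hrel, sum_mul]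
    refine sum_congr rfl fun a _ => ?_
    by_cases ha : w a = 0
    · simp [ha]
    · have h3 : ((a.2.2 : ℕ) - t0) + t0 = a.2.2 := by have := hmin' a ha; omega
      rw [smul_mul_assoc, mul_assoc, ← pow_add, h3, one_pow, mul_one]
  refine ⟨poly fun i => w (i, k0, t0), poly_ne (k := i0) hw0, fun δ hδ => ?_⟩
  rw [poly_eval] at hδ
  refine ⟨poly fun k => ∑ i, w (i, k, t0) * δ ^ (i : ℕ), poly_ne (k := k0) hδ, poly_deg _,
    fun z hz hhz => ?_⟩
  have h1 := congrArg (eval z) hW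
  simp only [map_sum, smul_eval, map_mul, map_pow, hz, hhz, map_zero] at h1
  rw [Polynomial.IsRoot, ← h1, poly_eval, Fintype.sum_prod_type_right, Fintype.sum_prod_type]
  refine sum_congr rfl fun k _ => ?_
  rw [sum_eq_single t0 (fun t _ ht => sum_eq_zero fun i _ => ?_) (fun hn => absurd (mem_univ _) hn),
    sum_mul]
  · exact sum_congr rfl fun i _ => by simp only [Nat.sub_self, pow_zero]; ring
  · by_cases ha : w (i, k, t) = 0
    · simp [ha]
    · have h3 := hmin' _ ha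
      have h4 : (t : ℕ) ≠ t0 := fun h5 => ht (Fin.ext h5)
      have h5 : (t : ℕ) - t0 ≠ 0 := by simp only at h3; omega
      simp [zero_pow h5]

/-- A polynomial with two different values has a nonzero derivative in some coordinate. -/
lemma exists_dir (p : MvPolynomial (Fin 2) ℝ) {x y : Fin 2 → ℝ} (h : eval x p ≠ eval y p) :
    ∃ a b : ℝ, C a * pderiv 1 p - C b * pderiv 0 p ≠ 0 := by
  by_contra hn
  push Not at hn
  have h1 : pderiv 1 p = 0 := by simpa using hn 1 0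
  have h0 : pderiv 0 p = 0 := by simpa using hn 0 1
  have key : ∀ i : Fin 2, pderiv i p = 0 → ∀ (z : Fin 2 → ℝ) (t : ℝ),
      eval (Function.update z i t) p = eval z p := fun i hi z t => by
    have h2 : ∀ u : ℝ, HasDerivAt (fun t => eval (Function.update z i t) p) 0 u := fun u => by
      have := hasDerivAt_eval (Function.update z i u) i p
      simpa [hi] using this
    have h3 := is_const_of_deriv_eq_zero (fun u => (h2 u).differentiableAt)
      (fun u => (h2 u).deriv) t (z i)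
    simpa using h3
  apply h
  rw [← key 0 h0 x (y 0), ← key 1 h1 _ (y 1)]
  refine congrArg (fun u => eval u p) (funext fun i => ?_)
  fin_cases i <;> simp

lemma exists_avoid (q : Polynomial ℝ) (hq : q ≠ 0) {d : ℝ} (hd : 0 < d) :
    ∃ δ, 0 ≤ δ ∧ δ ≤ d ∧ q.eval δ ≠ 0 := by
  classical
  obtain ⟨δ, h1, h2⟩ := (Set.Icc_infinite hd).exists_notMem_finset q.roots.toFinset
  exact ⟨δ, h1.1, h1.2, fun h => h2 (by simpa [hq] using h)⟩

end CC

open CC in
theorem bCC : St_CC := by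
  classical
  intro g f c e T hg hgc hfe hT hinj
  rcases T.eq_empty_or_nonempty with rfl | hne
  · simp
  obtain ⟨R, hR⟩ : ∃ R : ℝ, ∀ x ∈ T, ∑ i, x i ^ 2 < R := by
    obtain ⟨R, hR⟩ := (T.finite_toSet.image fun x => ∑ i, x i ^ 2).bddAbove
    exact ⟨R + 1, fun x hx => by linarith [hR ⟨x, hx, rfl⟩]⟩
  let G : MvPolynomial (Fin 2) ℝ := f * (C R - ∑ i, X i ^ 2)
  have hGe : ∀ y, eval y G = eval y f * (R - ∑ i, y i ^ 2) := fun y => by simp [G]
  have hG : G.totalDegree ≤ e + 2 := by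
    refine (totalDegree_mul _ _).trans (add_le_add hfe ((totalDegree_sub _ _).trans ?_))
    refine max_le (by simp) (totalDegree_finsetSum_le fun i _ => ?_)
    simp
  let U : Set (Fin 2 → ℝ) := {y | eval y f ≠ 0 ∧ ∑ i, y i ^ 2 < R}
  have hU : IsOpen U := (isOpen_ne_fun f.continuous_eval continuous_const).inter
    (isOpen_lt (f := fun y : Fin 2 → ℝ => ∑ i, y i ^ 2) (by fun_prop) continuous_const)
  have hb : Bornology.IsBounded U := by
    refine (Metric.isBounded_closedBall (x := (0 : Fin 2 → ℝ)) (r := |R| + 1)).subset fun y hy => ?_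
    rw [mem_closedBall_zero_iff, pi_norm_le_iff_of_nonneg (by positivity)]
    intro i
    have h1 : y i ^ 2 ≤ ∑ i, y i ^ 2 :=
      single_le_sum (f := fun i => y i ^ 2) (fun _ _ => sq_nonneg _) (mem_univ i)
    rw [Real.norm_eq_abs, abs_le]
    constructor <;> nlinarith [hy.2, le_abs_self R, sq_nonneg (y i + 1), sq_nonneg (y i - 1)]
  have hGU : ∀ y ∈ closure U, eval y G ≠ 0 ↔ y ∈ U := fun y hy => by
    have h1 : ∑ i, y i ^ 2 ≤ R := closure_minimal (fun z hz => hz.2.le)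
      (isClosed_le (f := fun y : Fin 2 → ℝ => ∑ i, y i ^ 2) (by fun_prop) continuous_const) hy
    rw [hGe, mul_ne_zero_iff, sub_ne_zero]
    exact and_congr_right fun _ => ⟨fun h => lt_of_le_of_ne h1 h.symm, fun h => h.ne'⟩
  let l : ℝ → MvPolynomial (Fin 2) ℝ := fun τ => ∑ i : Fin 2, C (τ ^ (i : ℕ)) * X i
  have hl : ∀ τ, (l τ).totalDegree ≤ 1 := fun τ => totalDegree_finsetSum_le fun i _ =>
    (totalDegree_mul _ _).trans (by rw [totalDegree_C, totalDegree_X])
  let p : MvPolynomial (Fin 2) ℝ := g ^ 2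
  have hp : p.totalDegree ≤ 2 * c := (totalDegree_pow _ _).trans (Nat.mul_le_mul_left _ hgc)
  have hpe : ∀ y, eval y p = eval y g ^ 2 := fun y => by simp [p]
  have hxU : ∀ x ∈ T, x ∈ U := fun x hx => ⟨(hT x hx).2, hR x hx⟩
  have hx1 : ∀ x ∈ T, ∃ y ∈ connectedComponentIn U x, 0 < eval y p := fun x hx => by
    obtain ⟨y, hy, hy'⟩ := exists_eval_ne hg
      (hU.connectedComponentIn.mem_nhds (mem_connectedComponentIn (hxU x hx)))
    exact ⟨y, hy, by rw [hpe]; positivity⟩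
  have hx0 : ∀ x ∈ T, eval x p = 0 := fun x hx => by rw [hpe, (hT x hx).1]; ring
  choose! y hy hy' using hx1
  obtain ⟨x0, hx0T, hmin⟩ := exists_min_image T (fun x => eval (y x) p) hne
  have hlev : ∀ δ, 0 ≤ δ → δ ≤ eval (y x0) p → ∀ x ∈ T,
      ∃ x' ∈ connectedComponentIn U x, eval x' p = δ := fun δ h1 h2 x hx =>
    isPreconnected_connectedComponentIn.intermediate_value
      (mem_connectedComponentIn (hxU x hx)) (hy x hx) (f := fun u => eval u p)
      p.continuous_eval.continuousOn ⟨by simpa only [hx0 x hx] using h1, h2.trans (hmin x hx)⟩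
  obtain ⟨α, β, hh0⟩ := exists_dir p (x := x0) (y := y x0)
    (by rw [hx0 x0 hx0T]; exact (hy' x0 hx0T).ne)
  set h : MvPolynomial (Fin 2) ℝ := C α * pderiv 1 p - C β * pderiv 0 p with hh
  have hdp : ∀ i, (pderiv i p).totalDegree ≤ 2 * c := fun i => (totalDegree_pderiv_le i p).trans hp
  have hdG : ∀ i, (pderiv i G).totalDegree ≤ e + 2 := fun i => (totalDegree_pderiv_le i G).trans hG
  have hhd : h.totalDegree ≤ 2 * c := by
    refine (totalDegree_sub _ _).trans (max_le ?_ ?_)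
    · exact (totalDegree_mul _ _).trans (by rw [totalDegree_C, zero_add]; exact hdp 1)
    · exact (totalDegree_mul _ _).trans (by rw [totalDegree_C, zero_add]; exact hdp 0)
  let A : MvPolynomial (Fin 2) ℝ := pderiv 0 G * pderiv 1 p - pderiv 1 G * pderiv 0 p
  have hA : A.totalDegree ≤ e + 2 * c + 2 := by
    refine (totalDegree_sub _ _).trans (max_le ?_ ?_)
    · exact (totalDegree_mul _ _).trans (by have := hdG 0; have := hdp 1; omega)
    · exact (totalDegree_mul _ _).trans (by have := hdG 1; have := hdp 0; omega)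
  have hB : (G * h).totalDegree ≤ e + 2 * c + 2 := (totalDegree_mul _ _).trans (by omega)
  choose a1 ha1 ha1' using fun τ => rel1 p (l τ) A (G * h) hp (hl τ) hA hB
  choose a2 ha2 ha2' using fun τ => rel2 p (l τ) h (e := e + 2 * c + 2) hp (hl τ) (by omega) hh0
  obtain ⟨S, hS⟩ := Infinite.exists_subset_card_eq ℝ (T.card * T.card * 2 + 1)
  obtain ⟨δ, hδ0, hδ1, hδ⟩ := exists_avoid (∏ τ ∈ S, a1 τ * a2 τ)
    (prod_ne_zero_iff.2 fun τ _ => mul_ne_zero (ha1 τ) (ha2 τ)) (hy' x0 hx0T)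
  rw [Polynomial.eval_prod, prod_ne_zero_iff] at hδ
  have hδa : ∀ τ ∈ S, (a1 τ).eval δ ≠ 0 ∧ (a2 τ).eval δ ≠ 0 := fun τ hτ => by
    have := hδ τ hτ
    rwa [Polynomial.eval_mul, mul_ne_zero_iff] at this
  choose! b hb0 hb' using fun τ (hτ : τ ∈ S) => ha1' τ δ (hδa τ hτ).1
  obtain ⟨s, -, -, hs⟩ := exists_avoid (∏ τ ∈ S, b τ) (prod_ne_zero_iff.2 hb0) one_pos
  rw [Polynomial.eval_prod, prod_ne_zero_iff] at hs
  have hz : ∀ x ∈ T, ∃ z ∈ connectedComponentIn U x, eval z p = δ ∧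
      eval z A = s * eval z (G * h) := fun x hx => by
    obtain ⟨x', h1, h2⟩ := hlev δ hδ0 hδ1 x hx
    obtain ⟨z, h3, h4, h5⟩ := CRIT.crit2 G p hU hb hGU ![s * α, s * β] δ h1 h2
    refine ⟨z, h3, h4, ?_⟩
    simp only [Matrix.cons_val_zero, Matrix.cons_val_one] at h5
    simp only [A, hh, map_sub, map_mul, eval_C]
    linear_combination h5
  choose! z hz hzp hzA using hz
  have hzinj : Set.InjOn z T := fun x hx x' hx' h => hinj hx hx' (by
    have key : ∀ x ∈ T, cell f x = cell f (z x) := fun x hx =>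
      connectedComponentIn_eq (connectedComponentIn_mono x (fun y hy => hy.1) (hz x hx))
    rw [key x hx, key x' hx', h])
  obtain ⟨τ, hτ, hsep⟩ := exists_sep (T.image z) S (by rw [card_image_of_injOn hzinj]; omega)
  obtain ⟨r1, hr1, hd1, hroot1⟩ := hb' τ hτ s (hs τ hτ)
  obtain ⟨r2, hr2, hd2, hroot2⟩ := ha2' τ δ (hδa τ hτ).2
  have hr : r1 * r2 ≠ 0 := mul_ne_zero hr1 hr2
  refine le_trans (card_le_card_of_injOn (t := (r1 * r2).roots.toFinset)
    (fun x => eval (z x) (l τ))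
    (fun x hx => ?_) fun x hx x' hx' h => hzinj hx hx' (hsep ?_ ?_ ?_))
    ((Multiset.toFinset_card_le _).trans ((Polynomial.card_roots' _).trans ?_))
  · have h1 := connectedComponentIn_subset U x (hz x hx)
    have h2 := (hGU _ (subset_closure h1)).2 h1
    rw [mem_coe, Multiset.mem_toFinset, Polynomial.mem_roots hr, Polynomial.IsRoot,
      Polynomial.eval_mul, mul_eq_zero]
    by_cases h3 : eval (z x) h = 0
    · exact Or.inr (hroot2 _ (hzp x hx) h3)
    · exact Or.inl (hroot1 _ (hzp x hx) (by rw [map_mul]; exact mul_ne_zero h2 h3) (hzA x hx))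
  · exact mem_coe.2 (mem_image_of_mem z hx)
  · exact mem_coe.2 (mem_image_of_mem z hx')
  · simpa [l] using h
  · refine Polynomial.natDegree_mul_le.trans ((add_le_add hd1 hd2).trans (le_of_eq ?_))
    ring

end Pool.Agent.Lib.E94
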