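import Pool.Agent.Lib.E94.Blue

/-! Row DIRG: groups of directions, few of which are cut by each plane. -/

set_option autoImplicit false

namespace Pool.Agent.Lib.E94

open Finset MvPolynomial Pointwise
open Pool.Agent.Lib.MP_fb430f_co

namespace DIRG

/-- Cells that meet a plane. -/
lemma plane (b : Fin 3 → ℝ) (k : Fin 3) (hb : b k ≠ 0) (s : ℝ) (F : MvPolynomial (Fin 3) ℝ)
    {d : ℕ} (hF : F.totalDegree ≤ d) (T : Finset (Fin 3 → ℝ)) (hT : ∀ x ∈ T, eval x F ≠ 0)
    (hT' : ∀ x ∈ T, ∑ l, b l * x l = s) (hinj : Set.InjOn (cell F) T) :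
    T.card ≤ (2 * (1 * d + 2) + 1) ^ 2 := by
  refine cell_bound_param (k := 2) (e := 1)
    (Fin.insertNth (α := fun _ => MvPolynomial (Fin 2) ℝ) k
      (C (s / b k) - ∑ l, C (b (k.succAbove l) / b k) * X l) fun l => X l) 1
    (fun m => ?_) (by simp) (fun u => by simp) F hF T hT (fun x hx => ?_) hinj
  · refine Fin.succAboveCases k ?_ (fun l => ?_) m
    · rw [Fin.insertNth_apply_same]
      refine (totalDegree_sub _ _).trans (max_le (by simp)
        (totalDegree_finsetSum_le fun l _ => (totalDegree_mul _ _).trans ?_))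
      rw [totalDegree_C, totalDegree_X]
    · rw [Fin.insertNth_apply_succAbove, totalDegree_X]
  · refine ⟨fun l => x (k.succAbove l), funext fun m => ?_⟩
    refine Fin.succAboveCases k ?_ (fun l => ?_) m
    · have h := hT' x hx
      rw [Fin.sum_univ_succAbove _ k, Fin.sum_univ_two] at h
      rw [Fin.insertNth_apply_same]
      simp only [map_sub, map_add, map_mul, eval_C, eval_X, map_one, div_one, Fin.sum_univ_two]
      field_simp
      linarith
    · rw [Fin.insertNth_apply_succAbove]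
      simp

lemma dot (i : Fin 4) (a w : Z4) (hw : w i ≠ 0) : cst a ⬝ᵥ dir i w =
    a i + ∑ k : Fin 3, (a (i.succAbove k) : ℝ) * ((w (i.succAbove k) : ℝ) / w i) := by
  have h : (w i : ℝ) ≠ 0 := by exact_mod_cast hw
  rw [dotProduct, Fin.sum_univ_succAbove _ i]
  simp only [cst, dir, div_self h, mul_one]

end DIRG

theorem bDIRG : St_DIRG := by
  classical
  intro P W i j hW
  obtain ⟨W', lab, h1, h2, h3, h4, h5⟩ := exists_groups (n := 3) W
    (fun w k => (w (i.succAbove k) : ℝ) / w i) j P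
    (fun a y => max ((a i : ℝ) + ∑ k : Fin 3, (a (i.succAbove k) : ℝ) * y k) 0)
    (fun a => by fun_prop) ((2 * (1 * (3 * 3 * 2 ^ (j + 1)) + 2) + 1) ^ 2)
    (fun δ hδ hδ1 a _ F hF T hT hT' hinj => by
      have e : ∀ x ∈ T, ∑ k : Fin 3, (a (i.succAbove k) : ℝ) * x k = δ - a i := fun x hx => by
        have h := hT' x hx
        rw [abs_of_nonneg (le_max_right _ _)] at h
        rcases max_cases ((a i : ℝ) + ∑ k : Fin 3, (a (i.succAbove k) : ℝ) * x k) 0 with h' | h'
        · linarith [h'.1]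
        · linarith [h'.1]
      by_cases hk : ∃ k : Fin 3, (a (i.succAbove k) : ℝ) ≠ 0
      · obtain ⟨k, hk⟩ := hk
        exact DIRG.plane (fun k => (a (i.succAbove k) : ℝ)) k hk _ F hF T hT e hinj
      · rcases T.eq_empty_or_nonempty with rfl | ⟨x, hx⟩
        · simp
        · have h := e x hx
          simp only [ne_eq, not_exists, not_not] at hk
          simp only [hk, zero_mul, sum_const_zero] at h
          have h0 : (0 : ℤ) < a i := by exact_mod_cast (by linarith : (0 : ℝ) < a i)
          have h1 : a i < (1 : ℤ) := by exact_mod_cast (by linarith : (a i : ℝ) < 1)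
          omega)
  have hD : 1 ≤ 2 ^ j := Nat.one_le_two_pow
  rw [mul_comm 3 j, pow_mul] at h4
  rw [pow_succ 2 j] at h2 h3 h5
  generalize 2 ^ j = D at *
  refine ⟨W', lab, h1, h2.trans (Nat.add_le_add_left ?_ _), h3.trans ?_, h4,
    fun a ha => le_trans (le_of_eq ?_) ((h5 a ha).trans ?_)⟩
  · calc _ ≤ (19 * D) ^ 3 := Nat.pow_le_pow_left (by omega) 3
      _ ≤ _ := by rw [mul_pow]; exact Nat.mul_le_mul_right _ (by norm_num)
  · calc _ ≤ (61 * D) ^ 3 := Nat.pow_le_pow_left (by omega) 3
      _ ≤ _ := by rw [mul_pow]; exact Nat.mul_le_mul_right _ (by norm_num)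
  · congr 2
    refine filter_congr fun w hw => and_congr ?_ ?_
    · rw [DIRG.dot i a w (hW w (h1 hw)), max_eq_right_iff]
    · refine exists_congr fun w' => and_congr_right fun hw' => and_congr_right fun _ => ?_
      rw [DIRG.dot i a w' (hW w' (h1 hw')), ne_eq, max_eq_right_iff, not_le]
  · calc _ ≤ (41 * D) ^ 2 := Nat.pow_le_pow_left (by omega) 2
      _ ≤ _ := by rw [mul_pow]; exact Nat.mul_le_mul_right _ (by norm_num)

end Pool.Agent.Lib.E94
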