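import Pool.Agent.Lib.E94.Blue

set_option autoImplicit false

namespace Pool.Agent.Lib.E94

open Finset MvPolynomial
open Pool.Agent.Lib.MP_fb430f_co

namespace EXC

/-- A vector off finitely many hyperplanes. -/
lemma exists_gen {ι : Type} (s : Finset ι) (w : ι → Fin 4 → ℝ) (h : ∀ i ∈ s, w i ≠ 0) :
    ∃ e : Fin 4 → ℝ, ∀ i ∈ s, e ⬝ᵥ w i ≠ 0 := by
  let L : ι → MvPolynomial (Fin 4) ℝ := fun i => ∑ k, X k * C (w i k)
  have hL : ∀ i e, eval e (L i) = e ⬝ᵥ w i := fun i e => by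
    simp only [L, map_sum, map_mul, eval_X, eval_C, dotProduct]
  have h0 : ∏ i ∈ s, L i ≠ 0 := prod_ne_zero_iff.2 fun i hi hz => by
    have h1 := hL i (w i)
    rw [hz, map_zero] at h1
    exact h i hi (dotProduct_self_eq_zero.1 h1.symm)
  obtain ⟨e, -, he⟩ := exists_eval_ne h0 (y := 0) (V := Set.univ) Filter.univ_mem
  rw [map_prod, prod_ne_zero_iff] at he
  exact ⟨e, fun i hi => hL i e ▸ he i hi⟩

/-- Clearing denominators along a rational curve of degree two. -/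
lemma homog (F : MvPolynomial (Fin 3) ℝ) {d : ℕ} (hF : F.totalDegree ≤ d)
    (N : Fin 3 → Polynomial ℝ) (Δ : Polynomial ℝ) (hN : ∀ i, (N i).natDegree ≤ 2)
    (hΔ : Δ.natDegree ≤ 2) :
    ∃ p : Polynomial ℝ, p.natDegree ≤ 2 * d ∧ ∀ s : ℝ, Δ.eval s ≠ 0 →
      p.eval s = Δ.eval s ^ d * eval (fun i => (N i).eval s / Δ.eval s) F := by
  have hα : ∀ α ∈ F.support, ∑ i, α i ≤ d := fun α h => by
    have := (le_totalDegree h).trans hF
    rwa [Finsupp.sum_fintype _ _ (fun _ => rfl)] at this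
  refine ⟨∑ α ∈ F.support,
    Polynomial.C (coeff α F) * (∏ i, N i ^ α i) * Δ ^ (d - ∑ i, α i), ?_, fun s hs => ?_⟩
  · refine Polynomial.natDegree_sum_le_of_forall_le _ _ fun α h => ?_
    refine Polynomial.natDegree_mul_le.trans ?_
    have h1 : (Polynomial.C (coeff α F) * ∏ i, N i ^ α i).natDegree ≤ (∑ i, α i) * 2 := by
      refine (Polynomial.natDegree_C_mul_le _ _).trans ?_
      rw [sum_mul]
      exact (Polynomial.natDegree_prod_le _ _).trans (sum_le_sum fun i _ =>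
        Polynomial.natDegree_pow_le.trans (Nat.mul_le_mul_left _ (hN i)))
    have h2 : (Δ ^ (d - ∑ i, α i)).natDegree ≤ (d - ∑ i, α i) * 2 :=
      Polynomial.natDegree_pow_le.trans (Nat.mul_le_mul_left _ hΔ)
    calc _ ≤ (∑ i, α i) * 2 + (d - ∑ i, α i) * 2 := add_le_add h1 h2
      _ = 2 * d := by rw [← add_mul, Nat.add_sub_cancel' (hα α h), mul_comm]
  · rw [eval_eq' _ F, mul_sum, Polynomial.eval_finsetSum]
    refine sum_congr rfl fun α h => ?_
    simp only [Polynomial.eval_mul, Polynomial.eval_C, Polynomial.eval_prod, Polynomial.eval_pow,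
      div_pow, prod_div_distrib, prod_pow_eq_pow_sum]
    rw [pow_sub₀ _ hs (hα α h)]
    ring

/-- A point of the sphere, other than a given one, over which `F` does not vanish. -/
lemma exists_pt (F : MvPolynomial (Fin 3) ℝ) (hF : F ≠ 0) {r : ℝ} (hr : 0 < r) (a : Fin 4 → ℝ) :
    ∃ x : Fin 4 → ℝ, x ⬝ᵥ x = r ∧ x ≠ a ∧ eval (pr x) F ≠ 0 := by
  have hc : Continuous fun y : Fin 3 → ℝ => y 0 ^ 2 + y 1 ^ 2 + y 2 ^ 2 := by fun_prop
  have hV : {y : Fin 3 → ℝ | y 0 ^ 2 + y 1 ^ 2 + y 2 ^ 2 < r} ∈ nhds (0 : Fin 3 → ℝ) :=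
    (isOpen_lt hc continuous_const).mem_nhds (by simpa using hr)
  obtain ⟨y, hy, hy'⟩ := exists_eval_ne hF hV
  have hy1 : 0 < r - (y 0 ^ 2 + y 1 ^ 2 + y 2 ^ 2) := sub_pos.2 hy
  set t := Real.sqrt (r - (y 0 ^ 2 + y 1 ^ 2 + y 2 ^ 2)) with ht
  have ht0 : 0 < t := Real.sqrt_pos.2 hy1
  have ht2 : t * t = r - (y 0 ^ 2 + y 1 ^ 2 + y 2 ^ 2) := Real.mul_self_sqrt hy1.le
  have key : ∀ u : ℝ, u * u = t * t → u ≠ a 3 →
      ∃ x : Fin 4 → ℝ, x ⬝ᵥ x = r ∧ x ≠ a ∧ eval (pr x) F ≠ 0 := fun u hu hu' => by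
    refine ⟨![y 0, y 1, y 2, u], ?_, fun h => hu' (by simpa using congrFun h 3), ?_⟩
    · simp only [dotProduct, Fin.sum_univ_four, Matrix.cons_val_zero, Matrix.cons_val_one,
        Matrix.cons_val]
      nlinarith
    · have : pr ![y 0, y 1, y 2, u] = y := by
        funext i
        fin_cases i <;> rfl
      rw [this]
      exact hy'
  by_cases h : t = a 3
  · exact key (-t) (by ring) (by rw [← h]; linarith)
  · exact key t rfl h

/-- The second point of the sphere on the line through `a` with direction `z`. -/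
noncomputable def refl (a z : Fin 4 → ℝ) : Fin 4 → ℝ := a - (2 * (a ⬝ᵥ z) / (z ⬝ᵥ z)) • z

lemma refl_sq (a : Fin 4 → ℝ) {z : Fin 4 → ℝ} (hz : z ⬝ᵥ z ≠ 0) :
    refl a z ⬝ᵥ refl a z = a ⬝ᵥ a := by
  simp only [refl, sub_dotProduct, dotProduct_sub, smul_dotProduct, dotProduct_smul, smul_eq_mul,
    dotProduct_comm z a]
  field_simp
  ring

lemma refl_dot (a : Fin 4 → ℝ) {z v : Fin 4 → ℝ} (hz : z ⬝ᵥ v = 0) :
    refl a z ⬝ᵥ v = a ⬝ᵥ v := by
  simp only [refl, sub_dotProduct, smul_dotProduct, smul_eq_mul, hz, mul_zero, sub_zero]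

lemma refl_sub {a x : Fin 4 → ℝ} (h : x ⬝ᵥ x = a ⬝ᵥ a) (hx : x ≠ a) : refl a (a - x) = x := by
  have h0 : (a - x) ⬝ᵥ (a - x) ≠ 0 := fun h0 =>
    hx (sub_eq_zero.1 (dotProduct_self_eq_zero.1 h0)).symm
  have h1 : 2 * (a ⬝ᵥ (a - x)) = (a - x) ⬝ᵥ (a - x) := by
    simp only [sub_dotProduct, dotProduct_sub, dotProduct_comm x a, h]
    ring
  rw [refl, h1, div_self h0, one_smul, sub_sub_cancel]

/-- Along a line of directions, the values of `F` are those of a polynomial of degree `2 d`. -/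
lemma line_poly (F : MvPolynomial (Fin 3) ℝ) {d : ℕ} (hF : F.totalDegree ≤ d)
    (a z e : Fin 4 → ℝ) :
    ∃ p : Polynomial ℝ, p.natDegree ≤ 2 * d ∧ ∀ s : ℝ, (z + s • e) ⬝ᵥ (z + s • e) ≠ 0 →
      p.eval s = ((z + s • e) ⬝ᵥ (z + s • e)) ^ d * eval (pr (refl a (z + s • e))) F := by
  let Z : Fin 4 → Polynomial ℝ := fun i => Polynomial.C (e i) * Polynomial.X + Polynomial.C (z i)
  have hZ : ∀ i, (Z i).natDegree ≤ 1 := fun i => Polynomial.natDegree_linear_le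
  have hZ' : ∀ i s, (Z i).eval s = (z + s • e) i := fun i s => by
    simp only [Z, Polynomial.eval_add, Polynomial.eval_mul, Polynomial.eval_C, Polynomial.eval_X,
      Pi.add_apply, Pi.smul_apply, smul_eq_mul]
    ring
  have hZZ : ∀ i k, (Z i * Z k).natDegree ≤ 2 := fun i k =>
    Polynomial.natDegree_mul_le.trans (add_le_add (hZ i) (hZ k))
  let Δ : Polynomial ℝ := ∑ i, Z i * Z i
  have hΔ : Δ.natDegree ≤ 2 := Polynomial.natDegree_sum_le_of_forall_le _ _ fun i _ => hZZ i i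
  have hΔ' : ∀ s, Δ.eval s = (z + s • e) ⬝ᵥ (z + s • e) := fun s => by
    simp only [Δ, Polynomial.eval_finsetSum, Polynomial.eval_mul, hZ', dotProduct]
  let N : Fin 4 → Polynomial ℝ := fun i =>
    Polynomial.C (a i) * Δ - ∑ k, Polynomial.C (2 * a k) * (Z k * Z i)
  have hN : ∀ i, (N i).natDegree ≤ 2 := fun i =>
    (Polynomial.natDegree_sub_le _ _).trans (max_le
      ((Polynomial.natDegree_C_mul_le _ _).trans hΔ)
      (Polynomial.natDegree_sum_le_of_forall_le _ _ fun k _ =>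
        (Polynomial.natDegree_C_mul_le _ _).trans (hZZ k i)))
  have hN' : ∀ i s, (N i).eval s =
      a i * ((z + s • e) ⬝ᵥ (z + s • e)) - 2 * (a ⬝ᵥ (z + s • e)) * (z + s • e) i := fun i s => by
    simp only [N, Polynomial.eval_sub, Polynomial.eval_finsetSum, Polynomial.eval_mul,
      Polynomial.eval_C, hZ', hΔ']
    generalize z + s • e = w
    simp only [dotProduct, Fin.sum_univ_four]
    ring
  obtain ⟨p, hp, hp'⟩ := homog F hF (fun i => N i.castSucc) Δ (fun i => hN _) hΔ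
  refine ⟨p, hp, fun s hs => ?_⟩
  rw [hp' s (by rwa [hΔ']), hΔ']
  have : (fun i : Fin 3 => (N i.castSucc).eval s / ((z + s • e) ⬝ᵥ (z + s • e))) =
      pr (refl a (z + s • e)) := by
    funext i
    rw [hN']
    generalize z + s • e = w at hs
    simp only [pr, refl, Pi.sub_apply, Pi.smul_apply, smul_eq_mul]
    field_simp
  rw [this]

/-- The real form of the statement. -/
lemma real_form {ι : Type} (V : Finset ι) (w : ι → Fin 4 → ℝ) (hw : Set.InjOn w V)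
    (a : Fin 4 → ℝ) (ha : 0 < a ⬝ᵥ a) (F : MvPolynomial (Fin 3) ℝ) (hF : F ≠ 0) {d : ℕ}
    (hd : F.totalDegree ≤ d)
    (hV : ∀ v ∈ V, w v ≠ 0 ∧ 2 * (a ⬝ᵥ w v) = w v ⬝ᵥ w v ∧ ∀ x : Fin 4 → ℝ, x ⬝ᵥ x = a ⬝ᵥ a →
      x ⬝ᵥ w v = w v ⬝ᵥ w v / 2 → eval (pr x) F = 0) : V.card ≤ 2 * d + 1 := by
  classical
  obtain ⟨x, hx, hxa, hxF⟩ := exists_pt F hF ha a
  have hvan : ∀ v ∈ V, ∀ y : Fin 4 → ℝ, y ⬝ᵥ y ≠ 0 → y ⬝ᵥ w v = 0 →
      eval (pr (refl a y)) F = 0 := fun v hv y hy hy' =>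
    (hV v hv).2.2 _ (refl_sq a hy) (by rw [refl_dot a hy', ← (hV v hv).2.1]; ring)
  have hx' := refl_sub hx hxa
  have hz0 : (a - x) ⬝ᵥ (a - x) ≠ 0 := fun h0 =>
    hxa (sub_eq_zero.1 (dotProduct_self_eq_zero.1 h0)).symm
  generalize a - x = z at hx' hz0
  have hzv : ∀ v ∈ V, z ⬝ᵥ w v ≠ 0 := fun v hv h => hxF (hx' ▸ hvan v hv z hz0 h)
  obtain ⟨e, he⟩ := exists_gen (V ×ˢ V)
    (fun q => if q.1 = q.2 then w q.1 else (z ⬝ᵥ w q.1) • w q.2 - (z ⬝ᵥ w q.2) • w q.1)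
    (by
      rintro ⟨v, v'⟩ hq
      obtain ⟨hv, hv'⟩ := mem_product.1 hq
      by_cases h : v = v'
      · simp only [if_pos h]
        exact (hV v hv).1
      · simp only [if_neg h]
        intro h0
        have h1 : (z ⬝ᵥ w v) • w v' = (z ⬝ᵥ w v') • w v := sub_eq_zero.1 h0
        have hα := hzv v hv
        have hβ := hzv v' hv'
        generalize z ⬝ᵥ w v = α at h1 hα
        generalize z ⬝ᵥ w v' = β at h1 hβ
        have h2 : w v' = (β / α) • w v := by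
          rw [div_eq_inv_mul, mul_smul, ← h1, inv_smul_smul₀ hα]
        have h3 := (hV v' hv').2.1
        have h4 := (hV v hv).2.1
        have h5 : w v ⬝ᵥ w v ≠ 0 := fun h5 => (hV v hv).1 (dotProduct_self_eq_zero.1 h5)
        have h6 : β / α ≠ 0 := div_ne_zero hβ hα
        rw [h2] at h3
        simp only [dotProduct_smul, smul_dotProduct, smul_eq_mul] at h3
        have h7 : β / α = 1 := by
          have h8 : β / α * (w v ⬝ᵥ w v) * (β / α - 1) = 0 := by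
            linear_combination (-1 : ℝ) * h3 + β / α * h4
          exact sub_eq_zero.1 ((mul_eq_zero.1 h8).resolve_left (mul_ne_zero h6 h5))
        rw [h7, one_smul] at h2
        exact h (hw hv hv' h2.symm))
  have he1 : ∀ v ∈ V, e ⬝ᵥ w v ≠ 0 := fun v hv => by
    have := he (v, v) (mem_product.2 ⟨hv, hv⟩)
    simpa only [if_true] using this
  have hinj : ∀ v ∈ V, ∀ v' ∈ V, ∀ s : ℝ, (z + s • e) ⬝ᵥ w v = 0 → (z + s • e) ⬝ᵥ w v' = 0 →
      v = v' := fun v hv v' hv' s h1 h2 => by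
    by_contra h
    have h3 := he (v, v') (mem_product.2 ⟨hv, hv'⟩)
    simp only [if_neg h, dotProduct_sub, dotProduct_smul, smul_eq_mul] at h3
    simp only [add_dotProduct, smul_dotProduct, smul_eq_mul] at h1 h2
    refine h3 ?_
    linear_combination e ⬝ᵥ w v' * h1 - e ⬝ᵥ w v * h2
  let s : ι → ℝ := fun v => -(z ⬝ᵥ w v) / (e ⬝ᵥ w v)
  have hs : ∀ v ∈ V, (z + s v • e) ⬝ᵥ w v = 0 := fun v hv => by
    simp only [s, add_dotProduct, smul_dotProduct, smul_eq_mul]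
    rw [div_mul_cancel₀ _ (he1 v hv)]
    ring
  by_cases h0 : ∃ v ∈ V, (z + s v • e) ⬝ᵥ (z + s v • e) = 0
  · obtain ⟨v, hv, h0⟩ := h0
    have h1 := dotProduct_self_eq_zero.1 h0
    have h2 : V.card ≤ 1 := card_le_one.2 fun v1 hv1 v2 hv2 =>
      hinj v1 hv1 v2 hv2 (s v) (by rw [h1, zero_dotProduct]) (by rw [h1, zero_dotProduct])
    omega
  · obtain ⟨p, hp, hp'⟩ := line_poly F hd a z e
    have hp0 : p ≠ 0 := fun h => by
      have h1 := hp' 0 (by rwa [zero_smul, add_zero])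
      rw [h, Polynomial.eval_zero, zero_smul, add_zero, hx'] at h1
      exact mul_ne_zero (pow_ne_zero _ hz0) hxF h1.symm
    have h2 : V.card ≤ p.roots.toFinset.card :=
      card_le_card_of_injOn s (fun v hv => by
        have hne : (z + s v • e) ⬝ᵥ (z + s v • e) ≠ 0 := fun h => h0 ⟨v, hv, h⟩
        rw [mem_coe, Multiset.mem_toFinset, Polynomial.mem_roots hp0, Polynomial.IsRoot.def,
          hp' _ hne, hvan v hv _ hne (hs v hv), mul_zero])
        fun v hv v' hv' h => hinj v hv v' hv' (s v) (hs v hv) (by rw [h]; exact hs v' hv')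
    have h3 := (Multiset.toFinset_card_le _).trans ((Polynomial.card_roots' p).trans hp)
    omega

lemma cst_dot (a b : Z4) : cst a ⬝ᵥ cst b = ((a ⬝ᵥ b : ℤ) : ℝ) := by
  simp only [cst, dotProduct]
  push_cast
  rfl

lemma cst_inj : Function.Injective cst := fun _ _ h =>
  funext fun i => Int.cast_injective (α := ℝ) (congrFun h i)

end EXC

theorem bEXC : St_EXC := by
  intro n d a F V hn ha hF hd hV
  have h1 : cst a ⬝ᵥ cst a = (n : ℝ) ^ 2 := by
    rw [EXC.cst_dot, ha]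
    push_cast
    rfl
  have h2 : (0 : ℝ) < (n : ℝ) := Nat.cast_pos.2 hn
  refine EXC.real_form V cst EXC.cst_inj.injOn (cst a) (by rw [h1]; positivity) F hF hd
    fun v hv => ⟨fun h => (hV v hv).1 (EXC.cst_inj (h.trans ?_)), ?_, fun x hx hx' =>
      (hV v hv).2.2 x (hx.trans h1) hx'⟩
  · funext i
    simp [cst]
  · have h3 : 2 * (a ⬝ᵥ v) = v ⬝ᵥ v := (hV v hv).2.1
    rw [EXC.cst_dot, EXC.cst_dot, ← h3]
    push_cast
    rfl

end Pool.Agent.Lib.E94
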