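import Pool.Agent.Lib.E94.Blue

set_option autoImplicit false

namespace Pool.Agent.Lib.E94

open Finset MvPolynomial Pointwise
open Pool.Agent.Lib.MP_fb430f_co

namespace FIN

/-- dyadic summation -/
lemma dy {α : Type} (f : α → ℕ) (k X : ℕ) (P : α → Prop) : ∀ t : ℕ,
    (∀ i, i < t → ∀ V : Finset α, (∀ w ∈ V, P w ∧ k * 2 ^ i ≤ f w) →
      V.card * (k * 2 ^ i) ^ 2 ≤ X) →
    ∀ W : Finset α, (∀ w ∈ W, P w ∧ k ≤ f w ∧ f w < k * 2 ^ t) →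
      ∑ w ∈ W, f w ^ 2 ≤ 4 * t * X := by
  intro t
  induction t with
  | zero =>
    intro _ W hW
    have h : W = ∅ := eq_empty_of_forall_notMem fun w hw => by
      have := hW w hw
      omega
    simp [h]
  | succ t ih =>
    intro h W hW
    rw [← sum_filter_add_sum_filter_not W fun w => f w < k * 2 ^ t]
    have h1 := ih (fun i hi => h i (by omega)) (W.filter fun w => f w < k * 2 ^ t) fun w hw =>
      ⟨(hW w (mem_filter.1 hw).1).1, (hW w (mem_filter.1 hw).1).2.1, (mem_filter.1 hw).2⟩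
    have h2 := h t (by omega) (W.filter fun w => ¬ f w < k * 2 ^ t) fun w hw =>
      ⟨(hW w (mem_filter.1 hw).1).1, not_lt.1 (mem_filter.1 hw).2⟩
    have h3 : ∑ w ∈ W.filter (fun w => ¬ f w < k * 2 ^ t), f w ^ 2 ≤
        (W.filter fun w => ¬ f w < k * 2 ^ t).card • (2 * (k * 2 ^ t)) ^ 2 := by
      refine sum_le_card_nsmul _ _ _ fun w hw => Nat.pow_le_pow_left ?_ 2
      have h4 := (hW w (mem_filter.1 hw).1).2.2
      rw [pow_succ, ← mul_assoc] at h4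
      omega
    rw [smul_eq_mul] at h3
    calc _ ≤ 4 * t * X + (W.filter fun w => ¬ f w < k * 2 ^ t).card * (2 * (k * 2 ^ t)) ^ 2 :=
          Nat.add_le_add h1 h3
      _ = 4 * t * X + 4 * ((W.filter fun w => ¬ f w < k * 2 ^ t).card * (k * 2 ^ t) ^ 2) := by
          ring
      _ ≤ 4 * t * X + 4 * X := Nat.add_le_add_left (Nat.mul_le_mul_left 4 h2) _
      _ = 4 * (t + 1) * X := by ring

/-- the three terms of the local incidence bound -/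
lemma num {N l D K Y c Γ m : ℕ} (hD : 1 ≤ D) (hK : 1 ≤ K) (hΓ : 1 ≤ Γ)
    (h1 : D ^ 8 ≤ m) (h2 : m ≤ c * D ^ 8) (hY : D * Y ≤ 6 * 10 ^ 9 * Γ * m)
    (l1 : K * D ^ 3 ≤ l) (l2 : l ≤ 2 * K * D ^ 4 * c)
    (h : N * l ^ 7 ≤ 10 ^ 65 * D ^ 3 * (l ^ 7 + Y * l ^ 6 + K ^ 3 * Y ^ 4)) :
    N * l ^ 2 ≤ 14 * 10 ^ 103 * (c ^ 2 * Γ ^ 4 * K ^ 2 * m ^ 2) := by
  have l0 : 0 < l := lt_of_lt_of_le (by positivity) l1
  have G1 : 1 ≤ Γ ^ 4 := Nat.one_le_pow _ _ hΓ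
  have G2 : Γ ≤ Γ ^ 4 := Nat.le_self_pow (by norm_num) Γ
  have K2 : K ≤ K ^ 2 := Nat.le_self_pow (by norm_num) K
  have c2 : c ≤ c ^ 2 := Nat.le_self_pow (by norm_num) c
  have D38 : D ^ 3 ≤ D ^ 8 := Nat.pow_le_pow_right hD (by norm_num)
  have D24 : D ^ 2 ≤ D ^ 4 := Nat.pow_le_pow_right hD (by norm_num)
  have K37 : K ^ 3 ≤ K ^ 7 := Nat.pow_le_pow_right hK (by norm_num)
  have t1 : D ^ 3 * l ^ 2 ≤ 4 * (c ^ 2 * Γ ^ 4 * K ^ 2 * m ^ 2) :=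
    calc D ^ 3 * l ^ 2 ≤ D ^ 8 * (2 * K * D ^ 4 * c) ^ 2 := by gcongr
      _ = 4 * (c ^ 2 * 1 * K ^ 2 * (D ^ 8) ^ 2) := by ring
      _ ≤ 4 * (c ^ 2 * Γ ^ 4 * K ^ 2 * m ^ 2) := by gcongr
  have t2 : D ^ 3 * (Y * l) ≤ 12 * 10 ^ 9 * (c ^ 2 * Γ ^ 4 * K ^ 2 * m ^ 2) :=
    calc D ^ 3 * (Y * l) = D ^ 2 * (D * Y) * l := by ring
      _ ≤ D ^ 4 * (6 * 10 ^ 9 * Γ * m) * (2 * K * D ^ 4 * c) := by gcongr
      _ = 12 * 10 ^ 9 * (c * Γ * K * (m * D ^ 8)) := by ring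
      _ ≤ 12 * 10 ^ 9 * (c ^ 2 * Γ ^ 4 * K ^ 2 * (m * m)) := by gcongr
      _ = _ := by ring
  have t3 : D ^ 3 * (K ^ 3 * Y ^ 4) ≤ 1296 * 10 ^ 36 * (c ^ 2 * Γ ^ 4 * K ^ 2 * m ^ 2) * l ^ 5 := by
    refine Nat.le_of_mul_le_mul_left (c := D ^ 4) ?_ (by positivity)
    calc D ^ 4 * (D ^ 3 * (K ^ 3 * Y ^ 4)) = D ^ 3 * K ^ 3 * (D * Y) ^ 4 := by ring
      _ ≤ D ^ 3 * K ^ 7 * (6 * 10 ^ 9 * Γ * m) ^ 4 := by gcongr
      _ = 1296 * 10 ^ 36 * (D ^ 3 * K ^ 7 * Γ ^ 4 * m ^ 2) * m ^ 2 := by ring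
      _ ≤ 1296 * 10 ^ 36 * (D ^ 3 * K ^ 7 * Γ ^ 4 * m ^ 2) * (c * D ^ 8) ^ 2 := by gcongr
      _ = D ^ 4 * (1296 * 10 ^ 36 * (c ^ 2 * Γ ^ 4 * K ^ 2 * m ^ 2) * (K * D ^ 3) ^ 5) := by ring
      _ ≤ _ := by gcongr
  generalize c ^ 2 * Γ ^ 4 * K ^ 2 * m ^ 2 = Z at t1 t2 t3 ⊢
  refine Nat.le_of_mul_le_mul_right (c := l ^ 5) ?_ (by positivity)
  calc N * l ^ 2 * l ^ 5 = N * l ^ 7 := by ring
    _ ≤ 10 ^ 65 * D ^ 3 * (l ^ 7 + Y * l ^ 6 + K ^ 3 * Y ^ 4) := h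
    _ = 10 ^ 65 * (D ^ 3 * l ^ 2 * l ^ 5 + D ^ 3 * (Y * l) * l ^ 5 + D ^ 3 * (K ^ 3 * Y ^ 4)) := by
        ring
    _ ≤ 10 ^ 65 * (4 * Z * l ^ 5 + 12 * 10 ^ 9 * Z * l ^ 5 + 1296 * 10 ^ 36 * Z * l ^ 5) := by
        gcongr
    _ = 10 ^ 65 * (4 + 12 * 10 ^ 9 + 1296 * 10 ^ 36) * (Z * l ^ 5) := by ring
    _ ≤ 14 * 10 ^ 103 * (Z * l ^ 5) := Nat.mul_le_mul_right _ (by norm_num)
    _ = _ := by ring

/-- the number of local pairs -/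
lemma pairs {Λ : Type} {lab : Z4 → Λ} {Q : Finset Z4} {S m : ℕ}
    (h : ∀ T ⊆ Q, (∀ a ∈ T, ∀ c ∈ T, lab a = lab c) → S * T.card ≤ m) (W : Finset Z4) :
    S * ∑ w ∈ W, (Loc lab Q w).card ≤ Q.card * m := by
  classical
  have h1 : ∑ w ∈ W, (Loc lab Q w).card = ∑ a ∈ Q, (W.filter fun w => a ∈ Loc lab Q w).card := by
    rw [← sum_card_comm W Q fun w a => a ∈ Loc lab Q w]
    refine sum_congr rfl fun w _ => congrArg card (Finset.ext fun a => ?_)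
    rw [mem_filter]
    exact ⟨fun ha => ⟨(mem_Loc.1 ha).1, ha⟩, fun ha => ha.2⟩
  rw [h1, mul_sum, ← smul_eq_mul Q.card m]
  refine sum_le_card_nsmul _ _ _ fun a _ => ?_
  rw [← card_image_of_injective _ (sub_right_injective (b := a))]
  refine h _ (fun b hb => ?_) fun b hb c hc => ?_
  · obtain ⟨w, hw, rfl⟩ := mem_image.1 hb
    exact (mem_Loc.1 (mem_filter.1 hw).2).2.1
  · obtain ⟨w, hw, rfl⟩ := mem_image.1 hb
    obtain ⟨w', hw', rfl⟩ := mem_image.1 hc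
    exact (mem_Loc.1 (mem_filter.1 hw).2).2.2.trans (mem_Loc.1 (mem_filter.1 hw').2).2.2.symm

lemma loc_le {Λ : Type} (lab : Z4 → Λ) (Q : Finset Z4) (w : Z4) :
    (Loc lab Q w).card ≤ (Av Q w).card :=
  card_le_card fun _ ha => mem_Av.2 ⟨(mem_Loc.1 ha).1, (mem_Loc.1 ha).2.1⟩

end FIN

theorem bFIN (hN : St_NLOC) : St_FIN := by
  intro Λ n m B K s q Γ Q lab hS hF hK hΓ hG hQ hB h1 h2
  have hN' := fun Y l W => hN Λ n m B ((2 ^ s) ^ 3) K s Y l Q W lab hS hF hG hQ (by positivity)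
  have hp := FIN.pairs hG.2.2.1
  have e1 : 2 ^ (s + q) = 2 ^ s * 2 ^ q := pow_add _ _ _
  have hi : ∀ i, i < s + q → 2 ^ i ≤ 2 ^ s * 2 ^ q := fun i hi =>
    e1 ▸ Nat.pow_le_pow_right (by norm_num) hi.le
  have hdy := FIN.dy (fun w => (Loc lab Q w).card) (4 * K * (2 ^ s) ^ 3)
    (56 * 10 ^ 103 * ((2 ^ q) ^ 2 * Γ ^ 4 * K ^ 2 * m ^ 2)) (fun w => w ≠ 0) (s + q)
  rw [e1] at hdy
  have hD : 1 ≤ 2 ^ s := Nat.one_le_two_pow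
  have hc : 1 ≤ 2 ^ q := Nat.one_le_two_pow
  generalize 2 ^ s = D at *
  generalize 2 ^ q = c at *
  have D1 : D ≤ m := (Nat.le_self_pow (by norm_num) D).trans h1
  have m1 : m ≤ D * (m / D + 1) := (Nat.lt_mul_div_succ m hD).le
  have m2 : D * (m / D + 1) ≤ 2 * m := by
    have := Nat.mul_div_le m D
    rw [mul_add, mul_one]
    omega
  have D3 : 1 ≤ D ^ 3 := Nat.one_le_pow _ _ hD
  have y1 : 2 * 10 ^ 9 * m ≤ D * ((2 * 10 ^ 9 + Γ) * (m / D + 1)) :=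
    calc 2 * 10 ^ 9 * m ≤ (2 * 10 ^ 9 + Γ) * (D * (m / D + 1)) :=
          Nat.mul_le_mul (Nat.le_add_right _ _) m1
      _ = _ := by ring
  have y2 : B * m ≤ D ^ 3 * ((2 * 10 ^ 9 + Γ) * (m / D + 1)) :=
    calc B * m ≤ (2 * 10 ^ 9 + Γ) * D ^ 2 * (D * (m / D + 1)) :=
          Nat.mul_le_mul (hB.trans (Nat.mul_le_mul_right _ (Nat.le_add_left _ _))) m1
      _ = _ := by ring
  have y3 : D * ((2 * 10 ^ 9 + Γ) * (m / D + 1)) ≤ 6 * 10 ^ 9 * Γ * m :=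
    calc D * ((2 * 10 ^ 9 + Γ) * (m / D + 1)) = (2 * 10 ^ 9 + Γ) * (D * (m / D + 1)) := by ring
      _ ≤ 3 * 10 ^ 9 * Γ * (2 * m) := Nat.mul_le_mul (by omega) m2
      _ = _ := by ring
  have mid := hdy fun i hi' V hV => by
    have i1 : 1 ≤ 2 ^ i := Nat.one_le_two_pow
    have i2 := hi i hi'
    generalize 2 ^ i = x at *
    have a1 : K * D ^ 3 ≤ 2 * K * D ^ 3 * x :=
      calc K * D ^ 3 = 1 * K * D ^ 3 * 1 := by ring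
        _ ≤ _ := by gcongr; norm_num
    have a2 : 2 * K ≤ 2 * K * D ^ 3 * x :=
      calc 2 * K = 2 * K * 1 * 1 := by ring
        _ ≤ _ := by gcongr
    have a3 : 2 * K * D ^ 3 * x ≤ 2 * K * D ^ 4 * c :=
      calc 2 * K * D ^ 3 * x ≤ 2 * K * D ^ 3 * (D * c) := by gcongr
        _ = _ := by ring
    have a4 := FIN.num hD hK hΓ h1 h2 y3 a1 a3
      (hN' _ (2 * K * D ^ 3 * x) V a2 (by omega) y1 y2 fun w hw =>
        ⟨(hV w hw).1, le_trans (le_of_eq (by ring)) (hV w hw).2⟩)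
    calc V.card * (4 * K * D ^ 3 * x) ^ 2 = 4 * (V.card * (2 * K * D ^ 3 * x) ^ 2) := by ring
      _ ≤ 4 * (14 * 10 ^ 103 * (c ^ 2 * Γ ^ 4 * K ^ 2 * m ^ 2)) := Nat.mul_le_mul_left 4 a4
      _ = _ := by ring
  have z1 : 1 ≤ c ^ 2 * Γ ^ 4 := Nat.mul_pos (by positivity) (by positivity)
  have K2 : K ≤ K ^ 2 := Nat.le_self_pow (by norm_num) K
  have low : ∀ W : Finset Z4, (∀ w ∈ W, (Loc lab Q w).card < 4 * K * D ^ 3) →
      ∑ w ∈ W, (Loc lab Q w).card ^ 2 ≤ 4 * (c ^ 2 * Γ ^ 4 * K ^ 2 * m ^ 2) := by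
    intro W hW
    calc ∑ w ∈ W, (Loc lab Q w).card ^ 2 ≤ ∑ w ∈ W, 4 * K * D ^ 3 * (Loc lab Q w).card :=
          sum_le_sum fun w hw => by
            rw [sq]
            exact Nat.mul_le_mul_right _ (hW w hw).le
      _ = 4 * K * (D ^ 3 * ∑ w ∈ W, (Loc lab Q w).card) := by rw [← mul_sum, mul_assoc]
      _ ≤ 4 * K * (m * m) :=
          Nat.mul_le_mul_left _ ((hp W).trans (Nat.mul_le_mul_right _ hQ))
      _ = 4 * (1 * K * m ^ 2) := by ring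
      _ ≤ _ := by gcongr
  have high : ∀ W : Finset Z4, (∀ w ∈ W, w ≠ 0 ∧ 4 * K * D ^ 3 * (D * c) ≤ (Loc lab Q w).card) →
      ∑ w ∈ W, (Loc lab Q w).card ^ 2 ≤ 10 ^ 56 * (c ^ 2 * Γ ^ 4 * K ^ 2 * m ^ 2) := by
    intro W hW
    have b0 : 1 ≤ D * c := Nat.mul_pos hD hc
    have b1 : 2 * K ≤ 4 * K * D ^ 3 * (D * c) :=
      calc 2 * K = 2 * K * 1 * 1 := by ring
        _ ≤ _ := by gcongr; norm_num
    have b2 : K ^ 3 * Q.card ^ 2 ≤ 2 ^ 10 * (4 * K * D ^ 3 * (D * c)) ^ 5 := by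
      have K35 : K ^ 3 ≤ K ^ 5 := Nat.pow_le_pow_right hK (by norm_num)
      have c25 : c ^ 2 ≤ c ^ 5 := Nat.pow_le_pow_right hc (by norm_num)
      have D16 : D ^ 16 ≤ D ^ 20 := Nat.pow_le_pow_right hD (by norm_num)
      have hq := hQ.trans h2
      calc K ^ 3 * Q.card ^ 2 ≤ K ^ 5 * (c * D ^ 8) ^ 2 := by gcongr
        _ = 1 * (K ^ 5 * c ^ 2 * D ^ 16) := by ring
        _ ≤ 2 ^ 20 * (K ^ 5 * c ^ 5 * D ^ 20) := by gcongr; norm_num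
        _ = _ := by ring
    have b3 := tail hS hF b1 (by omega) b2 W fun w hw =>
      ⟨(hW w hw).1, (hW w hw).2.trans (FIN.loc_le lab Q w)⟩
    have K1 : 1 ≤ K ^ 2 := hK.trans K2
    calc ∑ w ∈ W, (Loc lab Q w).card ^ 2 ≤ ∑ w ∈ W, (Av Q w).card ^ 2 :=
          sum_le_sum fun w _ => Nat.pow_le_pow_left (FIN.loc_le lab Q w) 2
      _ ≤ 10 ^ 56 * Q.card ^ 2 := b3
      _ = 10 ^ 56 * (1 * 1 * Q.card ^ 2) := by ring
      _ ≤ _ := by gcongr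
  rw [← sum_filter_add_sum_filter_not _ fun w => (Loc lab Q w).card < 4 * K * D ^ 3,
    ← sum_filter_add_sum_filter_not (filter (fun w => ¬ (Loc lab Q w).card < 4 * K * D ^ 3) _)
      fun w => (Loc lab Q w).card < 4 * K * D ^ 3 * (D * c)]
  refine (Nat.add_le_add (low _ fun w hw => (mem_filter.1 hw).2) (Nat.add_le_add
    (mid _ fun w hw => ?_) (high _ fun w hw => ?_))).trans ?_
  · have h3 := mem_filter.1 (mem_filter.1 hw).1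
    exact ⟨(mem_erase.1 h3.1).1, not_lt.1 h3.2, (mem_filter.1 hw).2⟩
  · have h3 := mem_filter.1 (mem_filter.1 hw).1
    exact ⟨(mem_erase.1 h3.1).1, not_lt.1 (mem_filter.1 hw).2⟩
  · have e2 : 10 ^ 106 * (s + q + 1) * c ^ 2 * Γ ^ 4 * K ^ 2 * m ^ 2 =
        10 ^ 106 * (c ^ 2 * Γ ^ 4 * K ^ 2 * m ^ 2) +
          10 ^ 106 * ((s + q) * (c ^ 2 * Γ ^ 4 * K ^ 2 * m ^ 2)) := by ring
    rw [e2]
    generalize c ^ 2 * Γ ^ 4 * K ^ 2 * m ^ 2 = Z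
    have e3 : 4 * (s + q) * (56 * 10 ^ 103 * Z) = 224 * 10 ^ 103 * ((s + q) * Z) := by ring
    rw [e3]
    generalize (s + q) * Z = U
    omega

end Pool.Agent.Lib.E94
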