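import Pool.Agent.Lib.E94.Blue

set_option autoImplicit false

/-! Row HILB: points on a space curve of the sphere impose few conditions. -/

namespace Pool.Agent.Lib.E94

open Finset MvPolynomial Module

namespace HILB

section

variable {A : Type} [CommRing A] [Algebra ℝ A]

/-- A multiplicative increasing family of subspaces. -/
structure Filt (V : ℕ → Submodule ℝ A) : Prop where
  one : (1 : A) ∈ V 0
  mono : ∀ a b, a ≤ b → V a ≤ V b
  mul : ∀ a b x y, x ∈ V a → y ∈ V b → x * y ∈ V (a + b)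

/-- Adjoin one more element of degree one. -/
def adj (V : ℕ → Submodule ℝ A) (t : A) (N : ℕ) : Submodule ℝ A :=
  Submodule.span ℝ {z | ∃ i j x, i + j ≤ N ∧ x ∈ V j ∧ z = x * t ^ i}

/-- The part without the top power. -/
def Low (V : ℕ → Submodule ℝ A) (t : A) (e : ℕ) : Submodule ℝ A :=
  Submodule.span ℝ {z | ∃ i j x, i + j ≤ e ∧ i < e ∧ x ∈ V j ∧ z = x * t ^ i}

theorem mul_mem {s : Set A} {x m : A} {S : Submodule ℝ A} (hx : x ∈ Submodule.span ℝ s)
    (h : ∀ y ∈ s, m * y ∈ S) : m * x ∈ S := by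
  have h1 : Submodule.span ℝ s ≤ S.comap (LinearMap.mulLeft ℝ m) :=
    Submodule.span_le.2 fun y hy => h y hy
  exact h1 hx

variable {V : ℕ → Submodule ℝ A} {t : A}

theorem mem_adj {N i j : ℕ} {x : A} (h : i + j ≤ N) (hx : x ∈ V j) : x * t ^ i ∈ adj V t N :=
  Submodule.subset_span ⟨i, j, x, h, hx, rfl⟩

theorem mem_Low {e i j : ℕ} {x : A} (h : i + j ≤ e) (h' : i < e) (hx : x ∈ V j) :
    x * t ^ i ∈ Low V t e := Submodule.subset_span ⟨i, j, x, h, h', hx, rfl⟩

theorem le_adj {N : ℕ} {x : A} (hx : x ∈ V N) : x ∈ adj V t N := by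
  simpa using mem_adj (t := t) (i := 0) (N := N) (by omega) hx

theorem le_Low {N : ℕ} {x : A} (hN : 0 < N) (hx : x ∈ V N) : x ∈ Low V t N := by
  simpa using mem_Low (t := t) (i := 0) (e := N) (by omega) hN hx

theorem pow_adj (hV : Filt V) (s : ℕ) : t ^ s ∈ adj V t s := by
  simpa using mem_adj (t := t) (i := s) (j := 0) (N := s) (by omega) hV.one

theorem self_adj (hV : Filt V) : t ∈ adj V t 1 := by simpa using pow_adj (t := t) hV 1

theorem filt_adj (hV : Filt V) (t : A) : Filt (adj V t) where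
  one := le_adj hV.one
  mono := fun _ _ h => Submodule.span_mono fun _ ⟨i, j, x, h1, h2, h3⟩ =>
    ⟨i, j, x, h1.trans h, h2, h3⟩
  mul := fun a b x y hx hy => mul_mem hy fun _ ⟨i, j, w, h1, h2, h3⟩ => by
    rw [mul_comm]
    refine mul_mem hx fun _ ⟨i', j', w', k1, k2, k3⟩ => ?_
    have := mem_adj (t := t) (i := i + i') (N := a + b) (by omega) (hV.mul _ _ _ _ h2 k2)
    rw [h3, k3]
    convert this using 1
    ring

theorem Low_mul (hV : Filt V) {a b : ℕ} {x y : A} (hx : x ∈ Low V t a) (hy : y ∈ adj V t b) :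
    x * y ∈ Low V t (a + b) := mul_mem hy fun _ ⟨i, j, w, h1, h2, h3⟩ => by
  rw [mul_comm]
  refine mul_mem hx fun _ ⟨i', j', w', k1, k0, k2, k3⟩ => ?_
  have := mem_Low (t := t) (i := i + i') (e := a + b) (by omega) (by omega)
    (hV.mul _ _ _ _ h2 k2)
  rw [h3, k3]
  convert this using 1
  ring

theorem Low_le (e : ℕ) : Low V t e ≤ adj V t e :=
  Submodule.span_mono fun _ ⟨i, j, x, h1, _, h2, h3⟩ => ⟨i, j, x, h1, h2, h3⟩

theorem adj_le {s e : ℕ} (h : s < e) : adj V t s ≤ Low V t e :=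
  Submodule.span_mono fun _ ⟨i, j, x, h1, h2, h3⟩ => ⟨i, j, x, by omega, by omega, h2, h3⟩

theorem rank_sup [FiniteDimensional ℝ A] (W : Submodule ℝ A) (t : A) (e : ℕ) :
    ∃ S : Submodule ℝ A, finrank ℝ S ≤ e * finrank ℝ W ∧ ∀ k < e, ∀ x ∈ W, x * t ^ k ∈ S := by
  induction e with
  | zero => exact ⟨⊥, by simp, fun k hk => absurd hk (Nat.not_lt_zero k)⟩
  | succ e ih =>
    obtain ⟨S, h1, h2⟩ := ih
    refine ⟨S ⊔ W.map (LinearMap.mulRight ℝ (t ^ e)), ?_, fun k hk x hx => ?_⟩
    · have a1 := Submodule.finrank_add_le_finrank_add_finrank S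
        (W.map (LinearMap.mulRight ℝ (t ^ e)))
      have a2 := Submodule.finrank_map_le (LinearMap.mulRight ℝ (t ^ e)) W
      rw [add_mul, one_mul]
      omega
    · rcases Nat.lt_succ_iff_lt_or_eq.1 hk with h | rfl
      · exact Submodule.mem_sup_left (h2 k h x hx)
      · exact Submodule.mem_sup_right ⟨x, hx, rfl⟩

theorem rank_adj [FiniteDimensional ℝ A] (hV : Filt V) (t : A) (N : ℕ) :
    finrank ℝ (adj V t N) ≤ (N + 1) * finrank ℝ (V N) := by
  obtain ⟨S, h1, h2⟩ := rank_sup (V N) t (N + 1)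
  refine le_trans (Submodule.finrank_mono (Submodule.span_le.2 ?_)) h1
  rintro _ ⟨i, j, x, k1, k2, rfl⟩
  exact h2 i (by omega) x (hV.mono j N (by omega) k2)

theorem rank_low [FiniteDimensional ℝ A] (hV : Filt V) {e : ℕ} (h : t ^ e ∈ Low V t e) (N : ℕ) :
    finrank ℝ (adj V t N) ≤ e * finrank ℝ (V N) := by
  obtain ⟨S, h1, h2⟩ := rank_sup (V N) t e
  have key : ∀ i j x, i + j ≤ N → x ∈ V j → x * t ^ i ∈ S := by
    intro i
    induction i using Nat.strong_induction_on with
    | _ i ih =>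
      intro j x k1 k2
      by_cases hi : i < e
      · exact h2 i hi x (hV.mono j N (by omega) k2)
      · obtain ⟨i', rfl⟩ := Nat.exists_eq_add_of_le' (not_lt.1 hi)
        rw [pow_add, ← mul_assoc]
        refine mul_mem h fun _ ⟨k, j', w, a1, a2, a3, a4⟩ => ?_
        have := ih (i' + k) (by omega) (j + j') (x * w) (by omega) (hV.mul _ _ _ _ k2 a3)
        rw [a4]
        convert this using 1
        ring
  refine le_trans (Submodule.finrank_mono (Submodule.span_le.2 ?_)) h1
  rintro _ ⟨i, j, x, k1, k2, rfl⟩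
  exact key i j x k1 k2

theorem pow_mem (hV : Filt V) {g : A} (hg : g ∈ V 1) (k : ℕ) : g ^ k ∈ V k := by
  induction k with
  | zero => simpa using hV.one
  | succ k ih => rw [pow_succ]; exact hV.mul _ _ _ _ ih hg

theorem prod_mem (hV : Filt V) {σ : Type} {g : σ → A} (hg : ∀ i, g i ∈ V 1) (k : σ → ℕ)
    (T : Finset σ) : ∏ i ∈ T, g i ^ k i ∈ V (∑ i ∈ T, k i) := by
  classical
  induction T using Finset.induction_on with
  | empty => simpa using hV.one
  | insert a T ha ih =>
    rw [prod_insert ha, sum_insert ha]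
    exact hV.mul _ _ _ _ (pow_mem hV (hg a) _) ih

theorem aeval_sum' {σ : Type} (g : σ → A) (p : MvPolynomial σ ℝ) :
    aeval g p = ∑ m ∈ p.support, coeff m p • ∏ i ∈ m.support, g i ^ m i := by
  conv_lhs => rw [p.as_sum]
  rw [map_sum]
  refine sum_congr rfl fun m _ => ?_
  rw [aeval_monomial, Algebra.smul_def]
  rfl

theorem aeval_mem (hV : Filt V) {σ : Type} {g : σ → A} (hg : ∀ i, g i ∈ V 1)
    {p : MvPolynomial σ ℝ} {N : ℕ} (hp : p.totalDegree ≤ N) : aeval g p ∈ V N := by
  rw [aeval_sum']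
  exact Submodule.sum_mem _ fun m hm => Submodule.smul_mem _ _
    (hV.mono _ _ ((le_totalDegree hm).trans hp) (prod_mem hV hg _ _))

theorem rel_mul (hV : Filt V) {g g' : A} {c c' : ℝ} {s s' : ℕ} (h : g - c • t ^ s ∈ Low V t s)
    (h' : g' - c' • t ^ s' ∈ Low V t s') :
    g * g' - (c * c') • t ^ (s + s') ∈ Low V t (s + s') := by
  have a1 : g' ∈ adj V t s' := by
    have := Submodule.add_mem _ (Low_le s' h') (Submodule.smul_mem _ c' (pow_adj (t := t) hV s'))
    simpa using this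
  have a2 := Low_mul hV h a1
  have a3 := Low_mul hV h' (Submodule.smul_mem _ c (pow_adj (t := t) hV s))
  rw [add_comm s' s] at a3
  convert Submodule.add_mem _ a2 a3 using 1
  simp only [Algebra.smul_def, map_mul]
  ring

theorem rel_one : (1 : A) - (1 : ℝ) • t ^ 0 ∈ Low V t 0 := by simp

theorem rel_pow (hV : Filt V) {g : A} {c : ℝ} (h : g - c • t ∈ V 1) (k : ℕ) :
    g ^ k - (c ^ k) • t ^ k ∈ Low V t k := by
  induction k with
  | zero => simp
  | succ k ih =>
    rw [pow_succ g, pow_succ c]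
    exact rel_mul hV ih (by simpa using le_Low (t := t) one_pos h)

theorem rel_prod (hV : Filt V) {σ : Type} {g : σ → A} {c : σ → ℝ} (h : ∀ i, g i - c i • t ∈ V 1)
    (k : σ → ℕ) (T : Finset σ) :
    ∏ i ∈ T, g i ^ k i - (∏ i ∈ T, c i ^ k i) • t ^ (∑ i ∈ T, k i) ∈ Low V t (∑ i ∈ T, k i) := by
  classical
  induction T using Finset.induction_on with
  | empty => simp
  | insert a T ha ih =>
    rw [prod_insert ha, prod_insert ha, sum_insert ha]
    exact rel_mul hV (rel_pow hV (h a) _) ih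

theorem monic (hV : Filt V) {σ : Type} {g : σ → A} {c : σ → ℝ} (h : ∀ i, g i - c i • t ∈ V 1)
    {F : MvPolynomial σ ℝ} (h0 : aeval g F = 0)
    (h1 : eval c (homogeneousComponent F.totalDegree F) ≠ 0) :
    t ^ F.totalDegree ∈ Low V t F.totalDegree := by
  classical
  have hg : ∀ i, g i ∈ adj V t 1 := fun i => by
    have := Submodule.add_mem _ (le_adj (t := t) (h i))
      (Submodule.smul_mem _ (c i) (self_adj (t := t) hV))
    simpa using this
  have e1 : eval c (homogeneousComponent F.totalDegree F) = ∑ m ∈ F.support,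
      if m.degree = F.totalDegree then coeff m F * ∏ i ∈ m.support, c i ^ m i else 0 := by
    rw [homogeneousComponent_apply, map_sum, sum_filter]
    refine sum_congr rfl fun m _ => ?_
    split_ifs
    · rw [eval_monomial]
      rfl
    · rfl
  have e2 : aeval g F - eval c (homogeneousComponent F.totalDegree F) • t ^ F.totalDegree ∈
      Low V t F.totalDegree := by
    rw [aeval_sum', e1, sum_smul, ← sum_sub_distrib]
    refine Submodule.sum_mem _ fun m hm => ?_
    have d1 : m.degree = ∑ i ∈ m.support, m i := rfl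
    have d2 : ∑ i ∈ m.support, m i ≤ F.totalDegree := le_totalDegree hm
    split_ifs with k
    · rw [mul_smul, ← smul_sub, ← k, d1]
      exact Submodule.smul_mem _ _ (rel_prod hV h _ _)
    · rw [zero_smul, sub_zero]
      exact Submodule.smul_mem _ _ (adj_le (lt_of_le_of_ne d2 (d1 ▸ k))
        (prod_mem (filt_adj hV t) hg _ _))
  rw [h0, zero_sub] at e2
  have e3 := Submodule.smul_mem _ (eval c (homogeneousComponent F.totalDegree F))⁻¹
    (Submodule.neg_mem _ e2)
  rwa [neg_neg, smul_smul, inv_mul_cancel₀ h1, one_smul] at e3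

theorem filt_zero : Filt fun _ : ℕ => Submodule.span ℝ {(1 : A)} where
  one := Submodule.mem_span_singleton_self _
  mono := fun _ _ _ => le_rfl
  mul := fun _ _ x y hx hy => mul_mem hy fun w hw => by
    rw [Set.mem_singleton_iff.1 hw, mul_one]
    exact hx

end

theorem aeval_pi {Y σ : Type} (g : σ → Y → ℝ) (p : MvPolynomial σ ℝ) (a : Y) :
    aeval g p a = eval (fun i => g i a) p := by
  induction p using MvPolynomial.induction_on with
  | C c => rw [aeval_C, eval_C]; rfl
  | add p q hp hq => rw [map_add, map_add, Pi.add_apply, hp, hq]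
  | mul_X p i hp => rw [map_mul, map_mul, aeval_X, eval_X, Pi.mul_apply, hp]

theorem top {f : MvPolynomial (Fin 2) ℝ} (hf : f ≠ 0) :
    ∃ σ : Fin 2 → ℝ, σ 1 ≠ 0 ∧ eval σ (homogeneousComponent f.totalDegree f) ≠ 0 := by
  classical
  have h1 : homogeneousComponent f.totalDegree f ≠ 0 := by
    obtain ⟨m, hm, hm'⟩ := exists_mem_eq_sup f.support (support_nonempty.2 hf)
      fun s => s.sum fun _ e => e
    intro h
    have h2 := coeff_homogeneousComponent f.totalDegree f m
    have h3 : m.degree = f.totalDegree := hm'.symm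
    rw [h, coeff_zero, if_pos h3] at h2
    exact mem_support_iff.1 hm h2.symm
  by_contra h
  refine mul_ne_zero h1 (X_ne_zero (R := ℝ) (1 : Fin 2)) (MvPolynomial.funext fun σ => ?_)
  rw [map_mul, eval_X, map_zero]
  by_contra k
  exact h ⟨σ, right_ne_zero_of_mul k, left_ne_zero_of_mul k⟩

end HILB

open HILB in
theorem bHILB : St_HILB := by
  classical
  intro n P F τ f hP hτ hF hf h N Y p hY hp
  obtain ⟨σ, hσ, hσ'⟩ := top hf
  let x : Fin 4 → Y → ℝ := fun i a => cst a.1 i
  let y : Fin 3 → Y → ℝ := fun i a => pr (cst a.1) i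
  let z : Fin 2 → Y → ℝ := fun i a => rho τ (pr (cst a.1)) i
  let t1 : Y → ℝ := fun a => z 1 a / σ 1
  let t0 : Y → ℝ := z 0 - σ 0 • t1
  let t2 : Y → ℝ := fun a => y 2 a / τ 2
  have F0 := filt_zero (A := Y → ℝ)
  have F1 := filt_adj F0 t0
  have F2 := filt_adj F1 t1
  have F3 := filt_adj F2 t2
  have F4 := filt_adj F3 (x 3)
  have z1 : ∀ i, z i - σ i • t1 ∈ adj (fun _ : ℕ => Submodule.span ℝ {(1 : Y → ℝ)}) t0 1 := by
    intro i
    fin_cases i
    · exact self_adj F0
    · have : z 1 - σ 1 • t1 = 0 := by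
        funext a
        simp only [t1, Pi.sub_apply, Pi.smul_apply, smul_eq_mul, Pi.zero_apply]
        rw [mul_div_cancel₀ _ hσ, sub_self]
      exact this ▸ Submodule.zero_mem _
  have m1 := monic F1 z1 (F := f) (funext fun a => by
    rw [aeval_pi]
    exact (h a.1 (hY a.2)).2) hσ'
  have z2 : ∀ i, z i ∈ adj (adj (fun _ : ℕ => Submodule.span ℝ {(1 : Y → ℝ)}) t0) t1 1 := by
    intro i
    have := Submodule.add_mem _ (le_adj (t := t1) (z1 i))
      (Submodule.smul_mem _ (σ i) (self_adj (t := t1) F1))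
    rwa [sub_add_cancel] at this
  have y1 : ∀ i, y i - τ i • t2 ∈
      adj (adj (fun _ : ℕ => Submodule.span ℝ {(1 : Y → ℝ)}) t0) t1 1 := by
    have k : ∀ i : Fin 2, y i.castSucc - τ i.castSucc • t2 = z i := fun i => by
      funext a
      simp only [t2, z, y, rho, Pi.sub_apply, Pi.smul_apply, smul_eq_mul]
      ring
    intro i
    fin_cases i
    · exact (k 0).symm ▸ z2 0
    · exact (k 1).symm ▸ z2 1
    · have : y 2 - τ 2 • t2 = 0 := by
        funext a
        simp only [t2, Pi.sub_apply, Pi.smul_apply, smul_eq_mul, Pi.zero_apply]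
        rw [mul_div_cancel₀ _ hτ, sub_self]
      exact this ▸ Submodule.zero_mem _
  have m2 := monic F2 y1 (F := F) (funext fun a => by
    rw [aeval_pi]
    exact (h a.1 (hY a.2)).1) hF
  have y2 : ∀ i, y i ∈
      adj (adj (adj (fun _ : ℕ => Submodule.span ℝ {(1 : Y → ℝ)}) t0) t1) t2 1 := by
    intro i
    have := Submodule.add_mem _ (le_adj (t := t2) (y1 i))
      (Submodule.smul_mem _ (τ i) (self_adj (t := t2) F2))
    rwa [sub_add_cancel] at this
  have m3 : x 3 ^ 2 ∈ Low (adj (adj (adj (fun _ : ℕ => Submodule.span ℝ {(1 : Y → ℝ)}) t0) t1) t2)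
      (x 3) 2 := by
    refine le_Low two_pos ?_
    have e : x 3 ^ 2 = ((n : ℝ) ^ 2) • (1 : Y → ℝ) - (y 0 ^ 2 + y 1 ^ 2 + y 2 ^ 2) := by
      funext a
      have k := hP a.1 (hY a.2)
      rw [dotProduct, Fin.sum_univ_four] at k
      have k' : (a.1 0 : ℝ) * a.1 0 + a.1 1 * a.1 1 + a.1 2 * a.1 2 + a.1 3 * a.1 3 =
          (n : ℝ) ^ 2 := by exact_mod_cast k
      show (a.1 3 : ℝ) ^ 2 = (n : ℝ) ^ 2 * 1 - ((a.1 0 : ℝ) ^ 2 + (a.1 1 : ℝ) ^ 2 + (a.1 2 : ℝ) ^ 2)
      linarith
    rw [e]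
    exact Submodule.sub_mem _ (Submodule.smul_mem _ _ (F3.mono 0 2 (by omega) F3.one))
      (Submodule.add_mem _ (Submodule.add_mem _ (pow_mem F3 (y2 0) 2) (pow_mem F3 (y2 1) 2))
        (pow_mem F3 (y2 2) 2))
  have x1 : ∀ i, x i ∈ adj
      (adj (adj (adj (fun _ : ℕ => Submodule.span ℝ {(1 : Y → ℝ)}) t0) t1) t2) (x 3) 1 := by
    intro i
    fin_cases i
    · exact le_adj (y2 0)
    · exact le_adj (y2 1)
    · exact le_adj (y2 2)
    · exact self_adj F3
  have r0 : finrank ℝ (Submodule.span ℝ {(1 : Y → ℝ)}) ≤ 1 := by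
    simpa using finrank_span_le_card (R := ℝ) {(1 : Y → ℝ)}
  have r1 := rank_adj F0 t0 N
  have r2 := rank_low F1 m1 N
  have r3 := rank_low F2 m2 N
  have r4 := rank_low F3 m3 N
  have hT : adj (adj (adj (adj (fun _ : ℕ => Submodule.span ℝ {(1 : Y → ℝ)}) t0) t1) t2)
      (x 3) N = ⊤ := by
    refine Submodule.eq_top_iff'.2 fun φ => ?_
    have e : φ = ∑ b : Y, (φ b / eval (cst b.1) (p b.1)) • aeval x (p b.1) := by
      funext a
      rw [Finset.sum_apply, sum_eq_single a]
      · rw [Pi.smul_apply, aeval_pi, smul_eq_mul]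
        exact (div_mul_cancel₀ _ (hp a.1 a.2).2.1).symm
      · intro b _ hb
        rw [Pi.smul_apply, aeval_pi, smul_eq_mul]
        exact mul_eq_zero_of_right _
          ((hp b.1 b.2).2.2 a.1 a.2 fun k => hb (Subtype.ext k.symm))
      · exact fun k => absurd (mem_univ a) k
    rw [e]
    exact Submodule.sum_mem _ fun b _ => Submodule.smul_mem _ _
      (aeval_mem F4 x1 (hp b.1 b.2).1)
  rw [hT, finrank_top, finrank_fintype_fun_eq_card, Fintype.card_coe] at r4
  calc Y.card ≤ 2 * (F.totalDegree * (f.totalDegree * ((N + 1) * 1))) :=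
        r4.trans (Nat.mul_le_mul_left _ (r3.trans (Nat.mul_le_mul_left _
          (r2.trans (Nat.mul_le_mul_left _ (r1.trans (Nat.mul_le_mul_left _ r0)))))))
    _ = _ := by ring

end Pool.Agent.Lib.E94
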