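import Pool.Agent.Lib.E94.Blue

set_option autoImplicit false

/-! Few rich hyperplanes on a set with linear Hilbert function. -/

namespace Pool.Agent.Lib.E94

open Finset MvPolynomial Pointwise
open Pool.Agent.Lib.MP_fb430f_co

namespace INT

/-- The affine form `∑ (x i - b i) * u i`. -/
noncomputable def aff (b u : Fin 4 → ℝ) : MvPolynomial (Fin 4) ℝ :=
  ∑ i, (X i - C (b i)) * C (u i)

lemma aff_deg (b u : Fin 4 → ℝ) : (aff b u).totalDegree ≤ 1 := by
  refine (totalDegree_finsetSum _ _).trans (Finset.sup_le fun i _ => ?_)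
  refine (totalDegree_mul _ _).trans ?_
  rw [totalDegree_C, add_zero]
  refine (totalDegree_sub _ _).trans (max_le ?_ ?_)
  · exact (totalDegree_X i).le
  · rw [totalDegree_C]; exact zero_le_one

lemma aff_eval (b u x : Fin 4 → ℝ) : eval x (aff b u) = ∑ i, (x i - b i) * u i := by
  simp [aff]

lemma plane_eval (v a : Z4) :
    eval (cst a) (aff (fun i => cst v i / 2) (cst v)) = 0 ↔ On v a := by
  rw [aff_eval]
  have h : On v a ↔ ((2 * (a ⬝ᵥ v) : ℤ) : ℝ) = ((v ⬝ᵥ v : ℤ) : ℝ) := Int.cast_inj.symm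
  rw [h]
  simp only [dotProduct, Fin.sum_univ_four, cst]
  push_cast
  constructor
  · intro h1; linarith
  · intro h1; linarith

lemma point_eval {y y' : Z4} (h : y' ≠ y) :
    eval (cst y) (aff (cst y') (cst y - cst y')) ≠ 0 := by
  rw [aff_eval]
  intro h0
  have h1 := (sum_eq_zero_iff_of_nonneg
    (f := fun i => (cst y i - cst y' i) * (cst y - cst y') i)
    (fun i _ => mul_self_nonneg _)).1 h0
  refine h (funext fun i => ?_)
  have h2 : cst y i - cst y' i = 0 := mul_self_eq_zero.1 (h1 i (mem_univ i))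
  have h3 : (y' i : ℝ) = (y i : ℝ) := (sub_eq_zero.1 h2).symm
  exact_mod_cast h3

lemma prod_deg {α : Type} (s : Finset α) (f : α → MvPolynomial (Fin 4) ℝ)
    (h : ∀ a, (f a).totalDegree ≤ 1) : (∏ a ∈ s, f a).totalDegree ≤ s.card := by
  refine (totalDegree_finsetProd _ _).trans ?_
  simpa using sum_le_card_nsmul s _ 1 fun a _ => h a

lemma few_rich {K c : ℕ} {P : Finset Z4} (hK : FewCirc P K) (hH : Hilb P c) (R : Finset Z4)
    (hR : ∀ v ∈ R, v ≠ 0 ∧ (2 * c + 1) * (K + 1) ≤ (P.filter fun a => On v a).card) :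
    R.card ≤ 2 * c := by
  classical
  by_contra hc
  obtain ⟨V, hVR, hV⟩ := exists_subset_card_eq (s := R) (n := 2 * c + 1) (by omega)
  have hpriv : ∀ v, ∃ Yv : Finset Z4, v ∈ V → Yv.card = 2 * c + 1 ∧
      ∀ y ∈ Yv, y ∈ P ∧ On v y ∧ ∀ v' ∈ V, v' ≠ v → ¬ On v' y := by
    intro v
    by_cases hv : v ∈ V
    · have h1 : (P.filter fun a => On v a) ⊆
          (P.filter fun a => On v a ∧ ∀ v' ∈ V, v' ≠ v → ¬ On v' a) ∪
            (V.erase v).biUnion fun v' => P.filter fun a => On v a ∧ On v' a := by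
        intro a ha
        obtain ⟨a1, a2⟩ := mem_filter.1 ha
        by_cases hb : ∀ v' ∈ V, v' ≠ v → ¬ On v' a
        · exact mem_union_left _ (mem_filter.2 ⟨a1, a2, hb⟩)
        · push Not at hb
          obtain ⟨v', b1, b2, b3⟩ := hb
          exact mem_union_right _
            (mem_biUnion.2 ⟨v', mem_erase.2 ⟨b2, b1⟩, mem_filter.2 ⟨a1, a2, b3⟩⟩)
      have h2 : ((V.erase v).biUnion fun v' => P.filter fun a => On v a ∧ On v' a).card ≤
          2 * c * K := by
        refine (card_biUnion_le_card_mul _ _ K fun v' hv' => ?_).trans ?_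
        · exact hK v v' (hR v (hVR hv)).1 (hR v' (hVR (mem_of_mem_erase hv'))).1
            (ne_of_mem_erase hv').symm
        · rw [card_erase_of_mem hv, hV]
          exact le_of_eq (by simp)
      have h3 := (hR v (hVR hv)).2.trans ((card_le_card h1).trans (card_union_le _ _))
      obtain ⟨Yv, y1, y2⟩ := exists_subset_card_eq
        (s := P.filter fun a => On v a ∧ ∀ v' ∈ V, v' ≠ v → ¬ On v' a) (n := 2 * c + 1)
        (by nlinarith)
      exact ⟨Yv, fun _ => ⟨y2, fun y hy => mem_filter.1 (y1 hy)⟩⟩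
    · exact ⟨∅, fun h => absurd h hv⟩
  choose Yv hY using hpriv
  have hcard : (V.biUnion Yv).card = (2 * c + 1) * (2 * c + 1) := by
    rw [card_biUnion, sum_congr rfl fun v hv => (hY v hv).1, sum_const, hV, smul_eq_mul]
    intro v hv v' hv' hne
    refine disjoint_left.2 fun y h1 h2 => ?_
    exact ((hY v hv).2 y h1).2.2 v' hv' hne.symm ((hY v' hv').2 y h2).2.1
  have key := hH (4 * c) (V.biUnion Yv)
    (fun y => (∏ v' ∈ V.filter fun v' => ¬ On v' y, aff (fun i => cst v' i / 2) (cst v')) *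
      ∏ y' ∈ ((V.biUnion Yv).filter fun y' => ∀ v' ∈ V, ¬ On v' y → ¬ On v' y').erase y,
        aff (cst y') (cst y - cst y'))
    (fun y hy => by
      obtain ⟨v, hv, hyv⟩ := mem_biUnion.1 hy
      exact ((hY v hv).2 y hyv).1)
    (fun y hy => by
      obtain ⟨v, hv, hyv⟩ := mem_biUnion.1 hy
      obtain ⟨-, y2, y3⟩ := (hY v hv).2 y hyv
      refine ⟨(totalDegree_mul _ _).trans ?_, ?_, fun y' hy' hne => ?_⟩
      · have d1 : (V.filter fun v' => ¬ On v' y).card ≤ 2 * c := by
          refine (card_le_card (t := V.erase v) fun v' hv' => ?_).trans ?_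
          · obtain ⟨b1, b2⟩ := mem_filter.1 hv'
            exact mem_erase.2 ⟨fun h => b2 (h ▸ y2), b1⟩
          · rw [card_erase_of_mem hv, hV]
            omega
        have d2 : (((V.biUnion Yv).filter
            fun y' => ∀ v' ∈ V, ¬ On v' y → ¬ On v' y').erase y).card ≤ 2 * c := by
          refine (card_le_card (t := (Yv v).erase y) fun y' hy' => ?_).trans ?_
          · obtain ⟨b1, b2⟩ := mem_erase.1 hy'
            obtain ⟨b3, b4⟩ := mem_filter.1 b2
            obtain ⟨v', b5, b6⟩ := mem_biUnion.1 b3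
            refine mem_erase.2 ⟨b1, ?_⟩
            by_cases h : v' = v
            · exact h ▸ b6
            · exact absurd ((hY v' b5).2 y' b6).2.1 (b4 v' b5 (y3 v' b5 h))
          · rw [card_erase_of_mem hyv, (hY v hv).1]
            omega
        have e1 := (prod_deg _ _ fun v' => aff_deg (fun i => cst v' i / 2) (cst v')).trans d1
        have e2 := (prod_deg _ _ fun y' => aff_deg (cst y') (cst y - cst y')).trans d2
        exact (add_le_add e1 e2).trans (le_of_eq (by ring))
      · rw [map_mul, map_prod, map_prod]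
        refine mul_ne_zero (prod_ne_zero_iff.2 fun v' hv' h => ?_)
          (prod_ne_zero_iff.2 fun y' hy' => point_eval (ne_of_mem_erase hy'))
        exact (mem_filter.1 hv').2 ((plane_eval v' y).1 h)
      · rw [map_mul, map_prod, map_prod]
        by_cases hb : ∀ v' ∈ V, ¬ On v' y → ¬ On v' y'
        · refine mul_eq_zero_of_right _
            (prod_eq_zero (mem_erase.2 ⟨hne, mem_filter.2 ⟨hy', hb⟩⟩) ?_)
          simp [aff_eval]
        · push Not at hb
          obtain ⟨v', b1, b2, b3⟩ := hb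
          exact mul_eq_zero_of_left
            (prod_eq_zero (mem_filter.2 ⟨b1, b2⟩) ((plane_eval v' y').2 b3)) _)
  rw [hcard] at key
  nlinarith

lemma sum_Av (P W : Finset Z4) : ∑ w ∈ W, (Av P w).card ≤ P.card ^ 2 := by
  simp only [Av]
  rw [sum_card_comm, sq]
  exact sum_le_card_nsmul _ _ _ fun a _ => card_le_card_of_injOn (fun v => a - v)
    (fun v hv => (mem_filter.1 hv).2) fun v _ v' _ h => by simpa using h

end INT

theorem bINT : St_INT := by
  classical
  intro n K c P hS hK hH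
  set R := (P - P).filter fun v =>
    v ≠ 0 ∧ (2 * c + 1) * (K + 1) ≤ (P.filter fun a => On v a).card with hR
  have h1 : R.card ≤ 2 * c := INT.few_rich hK hH R fun v hv => (mem_filter.1 hv).2
  have h2 : (insert 0 R).card ≤ 2 * c + 1 := (card_insert_le _ _).trans (by omega)
  have h3 : ∑ w ∈ (P - P).filter (fun w => w ∈ insert 0 R), (Av P w).card ^ 2 ≤
      (2 * c + 1) * P.card ^ 2 := by
    refine (sum_le_card_nsmul _ _ (P.card ^ 2) fun w _ =>
      Nat.pow_le_pow_left (Av_le w) 2).trans ?_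
    exact Nat.mul_le_mul_right _ ((card_le_card fun w hw => (mem_filter.1 hw).2).trans h2)
  have h4 : ∑ w ∈ (P - P).filter (fun w => ¬ w ∈ insert 0 R), (Av P w).card ^ 2 ≤
      (2 * c + 1) * (K + 1) * P.card ^ 2 := by
    refine le_trans ?_ (Nat.mul_le_mul_left _
      (INT.sum_Av P ((P - P).filter fun w => ¬ w ∈ insert 0 R)))
    rw [mul_sum]
    refine sum_le_sum fun w hw => ?_
    obtain ⟨w1, w2⟩ := mem_filter.1 hw
    rw [mem_insert, not_or, hR, mem_filter] at w2
    have w3 : (P.filter fun a => On w a).card ≤ (2 * c + 1) * (K + 1) :=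
      le_of_not_ge fun h => w2.2 ⟨w1, w2.1, h⟩
    rw [sq]
    exact Nat.mul_le_mul_right _ ((card_le_card (Av_sub hS w)).trans w3)
  have h5 : (2 * c + 1) + (2 * c + 1) * (K + 1) ≤ 4 * (c + 1) * (K + 1) := by nlinarith
  unfold En
  rw [← sum_filter_add_sum_filter_not (P - P) fun w => w ∈ insert 0 R]
  refine (add_le_add h3 h4).trans ?_
  rw [← add_mul]
  exact Nat.mul_le_mul_right _ h5

end Pool.Agent.Lib.E94
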