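import Pool.Agent.Lib.E94.Blue

set_option autoImplicit false

namespace Pool.Agent.Lib.E94

open Finset MvPolynomial Pointwise
open Pool.Agent.Lib.MP_fb430f_co

namespace LOCS

lemma sum_le_En (T V : Finset Z4) : ∑ w ∈ V, (Av T w).card ^ 2 ≤ En T := by
  unfold En
  refine sum_le_sum_of_ne_zero fun w _ hw => ?_
  obtain ⟨a, ha⟩ := card_pos.1 (Nat.pos_of_ne_zero fun h => hw (by rw [h]; rfl))
  exact mem_sub.2 ⟨a, (mem_Av.1 ha).1, a - w, (mem_Av.1 ha).2, sub_sub_cancel a w⟩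

open Classical in
lemma one {Λ : Type} {lab : Z4 → Λ} {A : Finset Z4} {B : ℕ} (h : Two lab A B) {w : Z4}
    (hw : w ≠ 0) : (Loc lab A w).card ^ 2 ≤
      B * ∑ U ∈ A.image lab, (Av (A.filter fun a => lab a = U) w).card ^ 2 := by
  have h1 : ((Loc lab A w).image lab).card ≤ B :=
    card_image_le_of_injOn _ _ B fun T hT hi => h w hw T
      (fun a ha => mem_Av.2 ⟨(mem_Loc.1 (hT ha)).1, (mem_Loc.1 (hT ha)).2.1⟩)
      fun a ha c hc e => hi ha hc (congrArg Prod.fst e)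
  rw [card_eq_sum_card_image lab (Loc lab A w)]
  refine sq_sum_le_card_mul_sum_sq.trans (Nat.mul_le_mul h1 ?_)
  refine (sum_le_sum fun U _ => ?_).trans
    (sum_le_sum_of_subset (image_subset_image fun a ha => (mem_Loc.1 ha).1))
  refine Nat.pow_le_pow_left (card_le_card fun a ha => ?_) 2
  obtain ⟨a1, a2⟩ := mem_filter.1 ha
  obtain ⟨b1, b2, b3⟩ := mem_Loc.1 a1
  exact mem_Av.2 ⟨mem_filter.2 ⟨b1, a2⟩, mem_filter.2 ⟨b2, b3.trans a2⟩⟩

end LOCS

theorem bLOCS : St_LOCS := by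
  classical
  intro Λ lab A B X h hX
  refine (sum_le_sum fun w hw => LOCS.one h (mem_erase.1 hw).1).trans ?_
  rw [← mul_sum, sum_comm, mul_assoc]
  refine Nat.mul_le_mul_left B ?_
  rw [card_eq_sum_card_image lab A, mul_sum]
  refine sum_le_sum fun U _ => (LOCS.sum_le_En _ _).trans (hX _ (filter_subset _ _) ?_)
  exact fun a ha c hc => (mem_filter.1 ha).2.trans (mem_filter.1 hc).2.symm

end Pool.Agent.Lib.E94
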