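import Pool.Agent.Lib.E94.Blue

set_option autoImplicit false

namespace Pool.Agent.Lib.E94

open Finset
open Pool.Agent.Lib.MP_fb430f_co

namespace MAIN

lemma card_le {n : ℕ} (hn : 1 ≤ n) {P : Finset Z4} (hP : ∀ x ∈ P, ∑ i, x i ^ 2 = (n : ℤ) ^ 2) :
    P.card ≤ (3 * n) ^ 4 := by
  have h1 : P ⊆ Fintype.piFinset fun _ : Fin 4 => Finset.Icc (-(n : ℤ)) n := by
    intro x hx
    refine Fintype.mem_piFinset.2 fun i => mem_Icc.2 (abs_le.1 ?_)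
    have h2 : x i ^ 2 ≤ (n : ℤ) ^ 2 := by
      rw [← hP x hx]
      exact single_le_sum (f := fun i => x i ^ 2) (fun _ _ => sq_nonneg _) (mem_univ i)
    exact abs_le_of_sq_le_sq' h2 (by positivity) |> abs_le.2
  refine (card_le_card h1).trans ?_
  rw [Fintype.card_piFinset, prod_const, card_univ, Fintype.card_fin, Int.card_Icc]
  exact Nat.pow_le_pow_left (by omega) 4

lemma exists_level {j m : ℕ} (hj : 1 ≤ j) (hm : 0 < m) :
    ∃ L, (2 ^ (j * L)) ^ 8 ≤ m ∧ m ≤ 2 ^ (8 * j) * (2 ^ (j * L)) ^ 8 := by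
  have ex : ∃ L, m ≤ 2 ^ (8 * j) * (2 ^ (j * L)) ^ 8 := by
    refine ⟨m, Nat.lt_two_pow_self.le.trans ?_⟩
    rw [← pow_mul, ← pow_add]
    exact Nat.pow_le_pow_right (by norm_num) (by nlinarith)
  refine ⟨Nat.find ex, ?_, Nat.find_spec ex⟩
  rcases h : Nat.find ex with _ | L
  · simpa using Nat.succ_le_of_lt hm
  · have h1 := Nat.find_min ex (m := L) (by omega)
    have h2 : (2 ^ (j * (L + 1))) ^ 8 = 2 ^ (8 * j) * (2 ^ (j * L)) ^ 8 := by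
      rw [← pow_mul, ← pow_mul, ← pow_add]
      congr 1
      ring
    omega

lemma loss {ε : ℝ} (hε : 0 < ε) {j L n : ℕ} (hj : 100 ≤ j * ε) (h : (2 ^ (j * L)) ^ 2 ≤ 3 * n) :
    ((10 : ℝ) ^ 30) ^ L ≤ 3 ^ (ε / 2) * (n : ℝ) ^ (ε / 2) := by
  have h1 : ((2 : ℝ) ^ (j * L)) ^ 2 ≤ 3 * n := by exact_mod_cast h
  have h2 : (10 : ℝ) ^ 30 ≤ 2 ^ (100 : ℕ) := by norm_num
  calc ((10 : ℝ) ^ 30) ^ L ≤ (2 ^ (100 : ℕ)) ^ L := by gcongr
    _ = (2 : ℝ) ^ (((100 * L : ℕ) : ℝ)) := by rw [← pow_mul, Real.rpow_natCast]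
    _ ≤ (2 : ℝ) ^ (((j * L * 2 : ℕ) : ℝ) * (ε / 2)) := by
        refine Real.rpow_le_rpow_of_exponent_le (by norm_num) ?_
        push_cast
        nlinarith [mul_le_mul_of_nonneg_right hj (Nat.cast_nonneg (α := ℝ) L)]
    _ = (((2 : ℝ) ^ (j * L)) ^ 2) ^ (ε / 2) := by
        rw [Real.rpow_mul (by norm_num), Real.rpow_natCast, ← pow_mul]
    _ ≤ (3 * (n : ℝ)) ^ (ε / 2) := Real.rpow_le_rpow (by positivity) h1 (by linarith)
    _ = _ := Real.mul_rpow (by norm_num) (by positivity)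

end MAIN

theorem bMAIN (hN : St_NAT) : St_MAIN := by
  intro ε hε
  obtain ⟨C, hC, h⟩ := circle_bound (ε := ε / 4) (by linarith)
  set j := ⌈100 / ε⌉₊ with hjd
  have hj : 100 ≤ (j : ℝ) * ε := (div_le_iff₀ hε).1 (Nat.le_ceil _)
  have hj1 : 1 ≤ j := Nat.one_le_ceil_iff.2 (by positivity)
  obtain ⟨C₀, h0⟩ := hN j
  refine ⟨C₀ * 3 ^ (ε / 2) * (C + 1) ^ 2, fun n hn P hP => ?_⟩
  rcases P.eq_empty_or_nonempty with rfl | hne
  · simp
  have hm : 0 < P.card := hne.card_pos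
  have hc := MAIN.card_le hn hP
  replace hP : ∀ a ∈ P, a ⬝ᵥ a = n ^ 2 := fun a ha => by
    rw [← hP a ha, dotProduct]; simp only [sq]
  have hn0 : (0 : ℝ) < n := by exact_mod_cast hn
  have hn1 : (1 : ℝ) ≤ (n : ℝ) ^ (ε / 4) := Real.one_le_rpow (by exact_mod_cast hn) (by linarith)
  set K := ⌈C * (n : ℝ) ^ (ε / 4)⌉₊ with hKd
  have hK : FewCirc P K := fun v v' hv hv' hvv => by
    have := h n hn v v' hv hv' hvv (P.filter fun a => On v a ∧ On v' a) fun a ha =>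
      ⟨hP a (mem_filter.1 ha).1, (mem_filter.1 ha).2⟩
    exact_mod_cast this.trans (Nat.le_ceil _)
  have hK1 : 1 ≤ K := Nat.one_le_ceil_iff.2 (by positivity)
  have hK2 : (K : ℝ) ≤ (C + 1) * (n : ℝ) ^ (ε / 4) := by
    have := Nat.ceil_lt_add_one (a := C * (n : ℝ) ^ (ε / 4)) (by positivity)
    linarith
  obtain ⟨L, hL1, hL2⟩ := MAIN.exists_level hj1 hm
  have h1 := energy_le.trans (h0 n K L P hn hK1 hP hK hL1 hL2)
  have h3 := MAIN.loss hε hj (L := L) (n := n) (by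
    refine (Nat.pow_le_pow_iff_left (n := 4) (by norm_num)).1 (le_trans ?_ (hL1.trans hc))
    rw [← pow_mul _ 2 4])
  generalize 2 ^ (j * L) = D at *
  have hm' : (0 : ℝ) < P.card := by exact_mod_cast hm
  have h2 : (D : ℝ) ^ 2 ≤ (P.card : ℝ) ^ (1 / 4 : ℝ) := by
    refine (pow_le_pow_iff_left₀ (by positivity) (by positivity) (n := 4) (by norm_num)).1 ?_
    rw [← Real.rpow_natCast (_ ^ (1 / 4 : ℝ)), ← Real.rpow_mul hm'.le, ← pow_mul]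
    norm_num
    exact_mod_cast hL1
  have e1 : ((n : ℝ) ^ (ε / 4)) ^ 2 = (n : ℝ) ^ (ε / 2) := by
    rw [← Real.rpow_natCast, ← Real.rpow_mul hn0.le]
    congr 1
    push_cast
    ring
  have e2 : (n : ℝ) ^ ε = (n : ℝ) ^ (ε / 2) * (n : ℝ) ^ (ε / 2) := by
    rw [← Real.rpow_add hn0, add_halves]
  calc (P.addEnergy P : ℝ)
      ≤ C₀ * ((10 : ℝ) ^ 30) ^ L * (K : ℝ) ^ 2 * (D : ℝ) ^ 2 * (P.card : ℝ) ^ 2 := by
        exact_mod_cast h1
    _ ≤ C₀ * (3 ^ (ε / 2) * (n : ℝ) ^ (ε / 2)) * ((C + 1) * (n : ℝ) ^ (ε / 4)) ^ 2 *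
        (P.card : ℝ) ^ (1 / 4 : ℝ) * (P.card : ℝ) ^ 2 := by gcongr
    _ = _ := by
      rw [show (9 / 4 : ℝ) = 2 + 1 / 4 by norm_num, Real.rpow_add hm', Real.rpow_two, mul_pow,
        e1, e2]
      ring

end Pool.Agent.Lib.E94
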