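import Pool.Agent.Lib.E94.Blue

set_option autoImplicit false

namespace Pool.Agent.Lib.E94

open Finset
open Pool.Agent.Lib.MP_fb430f_co

namespace NLOC

lemma dot_dir (i : Fin 4) (a w : Z4) :
    cst a ⬝ᵥ dir i w = ((a ⬝ᵥ w : ℤ) : ℝ) / (w i : ℝ) := by
  simp only [cst, dir, dotProduct, Fin.sum_univ_four]
  push_cast
  ring

open Classical in
lemma cross_le {Λ : Type} {m B S Y : ℕ} {Q : Finset Z4} {lab : Z4 → Λ} (hG : Good m Q lab B S)
    (hS : 0 < S) (hY : B * m ≤ S * Y) (θ : Fin 4 → ℝ) :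
    (Q.filter fun a => Cross lab Q θ a).card ≤ Y := by
  set Cr := Q.filter fun a => Cross lab Q θ a with hCr
  have h1 : (Cr.image lab).card ≤ B := card_image_le_of_injOn Cr lab B fun T hT hinj =>
    hG.2.1 θ T (hT.trans (filter_subset _ _)) (fun a ha => (mem_filter.1 (hT ha)).2) hinj
  have h2 : S * Cr.card ≤ B * m := by
    rw [card_eq_sum_card_image lab Cr, mul_sum]
    refine (sum_le_card_nsmul _ _ m fun U _ => ?_).trans ?_
    · exact hG.2.2.1 _ ((filter_subset _ _).trans (filter_subset _ _)) fun a ha c hc =>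
        (mem_filter.1 ha).2.trans (mem_filter.1 hc).2.symm
    · rw [smul_eq_mul]; exact Nat.mul_le_mul_right _ h1
  exact Nat.le_of_mul_le_mul_left (h2.trans hY) hS

/-- The two ends of a local pair have opposite signs along the difference. -/
lemma signs {n : ℕ} {Q : Finset Z4} (hQ : Sph n Q) {a w : Z4} (ha : a ∈ Q) (hc : a - w ∈ Q)
    (hw : w ≠ 0) : On w a ∧ On (-w) (a - w) ∧ 0 < a ⬝ᵥ w ∧ (a - w) ⬝ᵥ w < 0 := by
  have h1 := hQ a ha
  have h2 := hQ _ hc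
  have h3 := dot_pos hw
  simp only [On, dotProduct, Fin.sum_univ_four, Pi.sub_apply, Pi.neg_apply] at *
  refine ⟨by linear_combination h1 - h2, by linear_combination h2 - h1, ?_, ?_⟩ <;> nlinarith

lemma light {Λ : Type} {n m B S K Y l : ℕ} {Q G X : Finset Z4} {lab : Z4 → Λ} (i : Fin 4)
    (hQ : Sph n Q) (hK : FewCirc Q K) (hG : Good m Q lab B S) (hS : 0 < S) (hl : 2 * K ≤ l)
    (hl0 : 0 < l) (hY : B * m ≤ S * Y)
    (hW : ∀ w ∈ G, w i ≠ 0 ∧ 2 * l ≤ (Loc lab Q w).card) (hX : X ⊆ Q) (hXY : X.card ≤ Y)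
    (hc : ∀ a ∈ Q, ∀ w ∈ G, ∀ w' ∈ G, cst a ⬝ᵥ dir i w ≤ 0 → 0 < cst a ⬝ᵥ dir i w' → a ∈ X) :
    G.card * l ^ 7 ≤ 17 * 10 ^ 52 * (Y * l ^ 6 + K ^ 3 * Y ^ 4) := by
  classical
  rcases G.eq_empty_or_nonempty with rfl | ⟨w0, hw0⟩
  · simp
  have hCr := cross_le hG hS hY (dir i w0)
  set Cr := Q.filter fun a => Cross lab Q (dir i w0) a with hCr'
  have hne : ∀ w ∈ G, w ≠ 0 := fun w hw h => (hW w hw).1 (by rw [h]; rfl)
  obtain ⟨Z, hZ1, hZ2, hXC, hXC'⟩ : ∃ Z : Finset Z4, X ⊆ Z ∧ Cr ⊆ Z ∧ Z ⊆ Q ∧ Z.card ≤ 2 * Y :=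
    ⟨X ∪ Cr, subset_union_left, subset_union_right, union_subset hX (filter_subset _ _),
      (card_union_le _ _).trans (by omega)⟩
  have key : ∀ w ∈ G, l ≤ (Z.filter fun a => On w a).card ∨
      l ≤ (X.filter fun a => On (-w) a).card := by
    intro w hw
    have h1 : Loc lab Q w ⊆ (Z.filter fun a => On w a) ∪
        (X.filter fun a => On (-w) a).image fun a => a + w := by
      intro a ha
      obtain ⟨ha1, ha2, ha3⟩ := mem_Loc.1 ha
      obtain ⟨s1, s2, s3, s4⟩ := signs hQ ha1 ha2 (hne w hw)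
      by_cases hcX : a - w ∈ X
      · exact mem_union_right _ (mem_image.2 ⟨a - w, mem_filter.2 ⟨hcX, s2⟩, sub_add_cancel _ _⟩)
      refine mem_union_left _ (mem_filter.2 ⟨?_, s1⟩)
      by_cases haX : a ∈ X
      · exact hZ1 haX
      refine hZ2 (mem_filter.2 ⟨ha1, ?_⟩)
      have r3 : (0 : ℝ) < ((a ⬝ᵥ w : ℤ) : ℝ) := by exact_mod_cast s3
      have r4 : (((a - w) ⬝ᵥ w : ℤ) : ℝ) < 0 := by exact_mod_cast s4
      have r5 : ((w i : ℤ) : ℝ) ≠ 0 := by exact_mod_cast (hW w hw).1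
      rcases lt_or_gt_of_ne r5 with h | h
      · have p1 : cst a ⬝ᵥ dir i w ≤ 0 := by
          rw [dot_dir]; exact (div_neg_of_pos_of_neg r3 h).le
        have p2 : 0 < cst (a - w) ⬝ᵥ dir i w := by
          rw [dot_dir]; exact div_pos_of_neg_of_neg r4 h
        exact ⟨a, ha1, a - w, ha2, rfl, ha3, not_lt.1 fun h' => haX (hc a ha1 w hw w0 hw0 p1 h'),
          not_le.1 fun h' => hcX (hc _ ha2 w0 hw0 w hw h' p2)⟩
      · have p1 : 0 < cst a ⬝ᵥ dir i w := by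
          rw [dot_dir]; exact div_pos r3 h
        have p2 : cst (a - w) ⬝ᵥ dir i w ≤ 0 := by
          rw [dot_dir]; exact (div_neg_of_neg_of_pos r4 h).le
        exact ⟨a - w, ha2, a, ha1, ha3, rfl, not_lt.1 fun h' => hcX (hc _ ha2 w hw w0 hw0 p2 h'),
          not_le.1 fun h' => haX (hc a ha1 w0 hw0 w hw h' p1)⟩
    have h2 := (card_le_card h1).trans ((card_union_le _ _).trans (add_le_add le_rfl card_image_le))
    have h3 := (hW w hw).2.trans h2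
    by_contra h4
    obtain ⟨h5, h6⟩ := not_or.1 h4
    exact absurd h3 (not_le.2 ((add_lt_add (not_le.1 h5) (not_le.1 h6)).trans_eq (two_mul l).symm))
  have r1 := rich (FewCirc_mono hK hXC) hl hl0
    (G.filter fun w => l ≤ (Z.filter fun a => On w a).card)
    fun w hw => ⟨hne w (mem_filter.1 hw).1, (mem_filter.1 hw).2⟩
  have r2 := rich (FewCirc_mono hK hX) hl hl0
    ((G.filter fun w => l ≤ (X.filter fun a => On (-w) a).card).image fun w => -w)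
    fun w hw => by
      obtain ⟨v, hv, rfl⟩ := mem_image.1 hw
      exact ⟨neg_ne_zero.2 (hne v (mem_filter.1 hv).1), (mem_filter.1 hv).2⟩
  rw [card_image_of_injective _ neg_injective] at r2
  have r3 : G.card ≤ (G.filter fun w => l ≤ (Z.filter fun a => On w a).card).card +
      (G.filter fun w => l ≤ (X.filter fun a => On (-w) a).card).card := by
    refine le_trans (card_le_card fun w hw => ?_) (card_union_le _ _)
    rcases key w hw with h | h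
    · exact mem_union_left _ (mem_filter.2 ⟨hw, h⟩)
    · exact mem_union_right _ (mem_filter.2 ⟨hw, h⟩)
  have b1 : Z.card * l ^ 6 + K ^ 3 * Z.card ^ 4 ≤
      (2 * Y) * l ^ 6 + K ^ 3 * (2 * Y) ^ 4 := by gcongr
  have b2 : X.card * l ^ 6 + K ^ 3 * X.card ^ 4 ≤ Y * l ^ 6 + K ^ 3 * Y ^ 4 := by gcongr
  have b3 := Nat.mul_le_mul_right (l ^ 7) r3
  have b4 := r1.trans (Nat.mul_le_mul_left _ b1)
  have b5 := r2.trans (Nat.mul_le_mul_left _ b2)
  have b6 : (2 * Y) * l ^ 6 + K ^ 3 * (2 * Y) ^ 4 = 2 * (Y * l ^ 6) + 16 * (K ^ 3 * Y ^ 4) := by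
    ring
  rw [b6] at b4
  rw [add_mul] at b3
  generalize Y * l ^ 6 = u at *
  generalize K ^ 3 * Y ^ 4 = v at *
  omega

lemma chart {Λ Γ : Type} [DecidableEq Γ] {n m B S K t Y l : ℕ} {Q W W' : Finset Z4}
    {lab : Z4 → Λ} (i : Fin 4) (hQ : Sph n Q) (hK : FewCirc Q K) (hG : Good m Q lab B S)
    (hm : Q.card ≤ m) (hS : 0 < S) (hl : 2 * K ≤ l) (hl0 : 0 < l) (ht : 0 < t)
    (hY' : 2 * 10 ^ 9 * m ≤ t * Y) (hY : B * m ≤ S * Y)
    (hW : ∀ w ∈ W, w i ≠ 0 ∧ 2 * l ≤ (Loc lab Q w).card) (g : Z4 → Γ) (cr : Z4 → Finset Γ)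
    (h1 : W' ⊆ W) (h2 : W.card ≤ W'.card + 10 ^ 9 * t ^ 3)
    (h3 : (W'.image g).card ≤ 10 ^ 9 * t ^ 3)
    (h4 : ∀ U, t ^ 3 * (W'.filter fun w => g w = U).card ≤ W.card)
    (h5 : ∀ a ∈ Q, (cr a).card ≤ 10 ^ 9 * t ^ 2)
    (h6 : ∀ a ∈ Q, ∀ w ∈ W', ∀ w' ∈ W', g w' = g w → cst a ⬝ᵥ dir i w ≤ 0 →
      0 < cst a ⬝ᵥ dir i w' → g w ∈ cr a) :
    W.card * l ^ 7 ≤ 34 * 10 ^ 61 * (t ^ 3 * (l ^ 7 + Y * l ^ 6 + K ^ 3 * Y ^ 4)) := by
  classical
  let G : Γ → Finset Z4 := fun U => W'.filter fun w => g w = U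
  let X : Γ → Finset Z4 := fun U => Q.filter fun a => U ∈ cr a
  have hsum : ∑ U ∈ W'.image g, (X U).card ≤ m * (10 ^ 9 * t ^ 2) := by
    refine le_trans ?_ (Nat.mul_le_mul_right _ hm)
    simp only [X, card_filter]
    rw [sum_comm]
    refine (sum_le_card_nsmul _ _ _ fun a ha => ?_).trans (by rw [smul_eq_mul])
    rw [← card_filter]
    exact (card_le_card fun U hU => (mem_filter.1 hU).2).trans (h5 a ha)
  set H := (W'.image g).filter fun U => Y < (X U).card with hH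
  set L := (W'.image g).filter fun U => ¬ Y < (X U).card with hL
  have a1 : H.card * (Y + 1) ≤ m * (10 ^ 9 * t ^ 2) := by
    have b0 : H ⊆ W'.image g := filter_subset _ _
    refine le_trans ?_ ((sum_le_sum_of_subset b0).trans hsum)
    rw [← smul_eq_mul]
    exact card_nsmul_le_sum H _ _ fun U hU => (mem_filter.1 hU).2
  have a2 : 2 * H.card ≤ t ^ 3 := by
    refine Nat.le_of_mul_le_mul_right (c := Y + 1) ?_ (Nat.succ_pos _)
    have b1 := Nat.mul_le_mul_right (t ^ 2) hY'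
    calc 2 * H.card * (Y + 1) = 2 * (H.card * (Y + 1)) := by ring
      _ ≤ 2 * (m * (10 ^ 9 * t ^ 2)) := Nat.mul_le_mul_left _ a1
      _ = 2 * 10 ^ 9 * m * t ^ 2 := by ring
      _ ≤ t * Y * t ^ 2 := b1
      _ = t ^ 3 * Y := by ring
      _ ≤ t ^ 3 * (Y + 1) := Nat.mul_le_mul_left _ (Nat.le_succ _)
  have a3 : 2 * ∑ U ∈ H, (G U).card ≤ W.card := by
    refine Nat.le_of_mul_le_mul_left (c := t ^ 3) ?_ (by positivity)
    have b1 : t ^ 3 * ∑ U ∈ H, (G U).card ≤ H.card * W.card := by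
      rw [mul_sum, ← smul_eq_mul]
      exact sum_le_card_nsmul _ _ _ fun U _ => h4 U
    calc t ^ 3 * (2 * ∑ U ∈ H, (G U).card) = 2 * (t ^ 3 * ∑ U ∈ H, (G U).card) := by ring
      _ ≤ 2 * (H.card * W.card) := Nat.mul_le_mul_left _ b1
      _ = 2 * H.card * W.card := by ring
      _ ≤ _ := Nat.mul_le_mul_right _ a2
  have a4 : (∑ U ∈ L, (G U).card) * l ^ 7 ≤
      10 ^ 9 * t ^ 3 * (17 * 10 ^ 52 * (Y * l ^ 6 + K ^ 3 * Y ^ 4)) := by
    rw [sum_mul]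
    refine (sum_le_card_nsmul _ _ (17 * 10 ^ 52 * (Y * l ^ 6 + K ^ 3 * Y ^ 4)) fun U hU => ?_).trans ?_
    · refine light (X := X U) i hQ hK hG hS hl hl0 hY (fun w hw => hW w (h1 (mem_filter.1 hw).1))
        (filter_subset _ _) (not_lt.1 (mem_filter.1 hU).2) fun a ha w hw w' hw' p1 p2 => ?_
      obtain ⟨q1, q2⟩ := mem_filter.1 hw
      obtain ⟨q3, q4⟩ := mem_filter.1 hw'
      exact mem_filter.2 ⟨ha, q2 ▸ h6 a ha w q1 w' q3 (q4.trans q2.symm) p1 p2⟩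
    · rw [smul_eq_mul]
      exact Nat.mul_le_mul_right _ ((card_filter_le _ _).trans h3)
  have a5 : W'.card = ∑ U ∈ H, (G U).card + ∑ U ∈ L, (G U).card := by
    rw [card_eq_sum_card_image g W', hH, hL, sum_filter_add_sum_filter_not]
  have a6 : W.card ≤ 2 * ∑ U ∈ L, (G U).card + 2 * (10 ^ 9 * t ^ 3) := by omega
  have a7 := Nat.mul_le_mul_right (l ^ 7) a6
  have e1 : (2 * ∑ U ∈ L, (G U).card + 2 * (10 ^ 9 * t ^ 3)) * l ^ 7 =
      2 * ((∑ U ∈ L, (G U).card) * l ^ 7) + 2 * 10 ^ 9 * (t ^ 3 * l ^ 7) := by ring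
  have e2 : 10 ^ 9 * t ^ 3 * (17 * 10 ^ 52 * (Y * l ^ 6 + K ^ 3 * Y ^ 4)) =
      17 * 10 ^ 61 * (t ^ 3 * (Y * l ^ 6 + K ^ 3 * Y ^ 4)) := by ring
  have e3 : t ^ 3 * (l ^ 7 + Y * l ^ 6 + K ^ 3 * Y ^ 4) =
      t ^ 3 * l ^ 7 + t ^ 3 * (Y * l ^ 6 + K ^ 3 * Y ^ 4) := by ring
  rw [e1] at a7
  rw [e2] at a4
  rw [e3]
  generalize t ^ 3 * l ^ 7 = u at *
  generalize t ^ 3 * (Y * l ^ 6 + K ^ 3 * Y ^ 4) = v at *
  omega

end NLOC

theorem bNLOC (hD : St_DIRG) : St_NLOC := by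
  classical
  intro Λ n m B S K j Y l Q W lab hQ hK hG hm hS hl hl0 hY' hY hW
  have h1 : ∀ i : Fin 4, (W.filter fun w => w i ≠ 0).card * l ^ 7 ≤
      34 * 10 ^ 61 * ((2 ^ j) ^ 3 * (l ^ 7 + Y * l ^ 6 + K ^ 3 * Y ^ 4)) := by
    intro i
    obtain ⟨W', g, d1, d2, d3, d4, d5⟩ := hD Q (W.filter fun w => w i ≠ 0) i j
      fun w hw => (mem_filter.1 hw).2
    refine NLOC.chart i hQ hK hG hm hS hl hl0 (by positivity) hY' hY
      (fun w hw => ⟨(mem_filter.1 hw).2, (hW w (mem_filter.1 hw).1).2⟩) g _ d1 d2 d3 d4 d5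
      fun a _ w hw w' hw' e p1 p2 => ?_
    exact mem_image.2 ⟨w, mem_filter.2 ⟨hw, p1, w', hw', e, p2⟩, rfl⟩
  have h2 : W.card ≤ ∑ i : Fin 4, (W.filter fun w => w i ≠ 0).card := by
    refine le_trans (card_le_card fun w hw => ?_) card_biUnion_le
    obtain ⟨i, hi⟩ := Function.ne_iff.1 (hW w hw).1
    exact mem_biUnion.2 ⟨i, mem_univ _, mem_filter.2 ⟨hw, hi⟩⟩
  have h3 := Nat.mul_le_mul_right (l ^ 7) h2
  rw [sum_mul] at h3
  have h4 := h3.trans (sum_le_card_nsmul _ _ _ fun i _ => h1 i)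
  rw [mul_assoc]
  simp only [card_univ, Fintype.card_fin, smul_eq_mul] at h4
  generalize (2 ^ j) ^ 3 * (l ^ 7 + Y * l ^ 6 + K ^ 3 * Y ^ 4) = u at *
  omega

end Pool.Agent.Lib.E94
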