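import Pool.Agent.Lib.E94.B_GPT

set_option autoImplicit false

namespace Pool.Agent.Lib.E94

open Finset MvPolynomial Pointwise
open Pool.Agent.Lib.MP_fb430f_co

namespace STEP

/-- a translate of a polynomial -/
lemma shift {k d : ℕ} (F : MvPolynomial (Fin k) ℝ) (hF : F.totalDegree ≤ d) (v : Fin k → ℝ) :
    ∃ H : MvPolynomial (Fin k) ℝ, H.totalDegree ≤ d ∧ ∀ y, eval y H = eval (y - v) F := by
  refine ⟨∑ α ∈ F.support, C (coeff α F) * ∏ i, (X i - C (v i)) ^ α i,
    totalDegree_finsetSum_le fun α h => ?_, fun y => ?_⟩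
  · have h1 := (le_totalDegree h).trans hF
    rw [Finsupp.sum_fintype _ _ (fun _ => rfl)] at h1
    refine (totalDegree_mul _ _).trans ?_
    rw [totalDegree_C, zero_add]
    refine (totalDegree_finsetProd _ _).trans (le_trans (sum_le_sum fun i _ => ?_) h1)
    refine (totalDegree_pow _ _).trans ?_
    have : (X i - C (v i) : MvPolynomial (Fin k) ℝ).totalDegree ≤ 1 :=
      (totalDegree_sub _ _).trans (max_le (totalDegree_X i).le (by simp))
    exact (Nat.mul_le_mul_left _ this).trans (mul_one _).le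
  · rw [eval_eq' (y - v) F, map_sum]
    refine sum_congr rfl fun α _ => ?_
    simp only [map_mul, eval_C, map_prod, map_pow, map_sub, eval_X, Pi.sub_apply]

lemma ball_deg (n : ℕ) :
    (C ((n : ℝ) ^ 2) - ∑ i, X i ^ 2 : MvPolynomial (Fin 3) ℝ).totalDegree ≤ 2 :=
  (totalDegree_sub _ _).trans (max_le (by rw [totalDegree_C]; norm_num)
    (totalDegree_finsetSum_le fun i _ => (totalDegree_X_pow i 2).le))

lemma ball_ne {n : ℕ} (hn : 1 ≤ n) :
    (C ((n : ℝ) ^ 2) - ∑ i, X i ^ 2 : MvPolynomial (Fin 3) ℝ) ≠ 0 := fun h => by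
  have h1 := congrArg (eval (0 : Fin 3 → ℝ)) h
  have h2 : (0 : ℝ) < n := by exact_mod_cast hn
  simp at h1
  exact h2.ne' (by exact_mod_cast h1)

lemma cst_dot (a b : Z4) : cst a ⬝ᵥ cst b = ((a ⬝ᵥ b : ℤ) : ℝ) := by
  simp [cst, dotProduct]

lemma pr_sub (a v : Z4) : pr (cst (a - v)) = pr (cst a) - pr (cst v) := by
  funext i
  simp [pr, cst]

lemma cst_ne {v : Z4} (hv : v ≠ 0) : cst v ≠ 0 := fun h => hv (funext fun i => by
  have := congrFun h i
  simpa [cst] using this)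

lemma num {t e : ℕ} (ht : 1 ≤ t) (he : e ≤ 2 * (18 * t + 2)) :
    3 * (4 * e + 5) ^ 2 + 1 ≤ 10 ^ 5 * t ^ 2 := by
  have h1 : 4 * e + 5 ≤ 165 * t := by omega
  have h2 := Nat.pow_le_pow_left h1 2
  have h3 : 1 ≤ t ^ 2 := Nat.one_le_pow _ _ ht
  rw [mul_pow] at h2
  omega

/-- counting through fibres -/
lemma fib {α β : Type} (T : Finset α) (f : α → β) (B N : ℕ)
    (h1 : ∀ T' ⊆ T, Set.InjOn f T' → T'.card ≤ B)
    (h2 : ∀ (U : β) (L : Finset α), L ⊆ T → (∀ a ∈ L, f a = U) → L.card ≤ N) :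
    T.card ≤ B * N := by
  classical
  refine (card_le_mul_card_image (f := f) T N fun U _ =>
    h2 U _ (filter_subset _ _) fun a ha => (mem_filter.1 ha).2).trans ?_
  rw [mul_comm]
  exact Nat.mul_le_mul_right _ (card_image_le_of_injOn T f B h1)

end STEP

open STEP in
theorem bSTEP (hS : St_SPH) : St_STEP := by
  classical
  intro Λ n m B S j Q lab hn hQ ⟨g1, g2, g3, g4⟩
  choose F hF0 hFd hFs using fun U : Λ =>
    exists_partition (n := 3) (Q.filter fun a => lab a = U) (fun a => pr (cst a)) j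
  obtain ⟨F', hF'⟩ : ∃ F' : Λ → MvPolynomial (Fin 3) ℝ,
      ∀ U, F' U = F U * (C ((n : ℝ) ^ 2) - ∑ i, X i ^ 2) := ⟨_, fun _ => rfl⟩
  have ht : 1 ≤ 2 ^ j := Nat.one_le_two_pow
  have hd : ∀ U, (F' U).totalDegree ≤ 18 * 2 ^ j + 2 := fun U => by
    rw [hF']
    refine (totalDegree_mul _ _).trans (add_le_add ((hFd U).trans ?_) (ball_deg n))
    rw [pow_succ]
    omega
  have hsph : ∀ a ∈ Q, cst a ⬝ᵥ cst a = (n : ℝ) ^ 2 := fun a ha => by
    rw [cst_dot, hQ a ha]
    norm_cast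
  set Q' := Q.filter fun a => eval (pr (cst a)) (F' (lab a)) ≠ 0 with hQ'
  have hsub : Q' ⊆ Q := filter_subset _ _
  have hne : ∀ a ∈ Q', eval (pr (cst a)) (F' (lab a)) ≠ 0 := fun a ha => (mem_filter.1 ha).2
  refine ⟨Q', fun a => (lab a, cell (F' (lab a)) (pr (cst a))), hsub, ⟨?_, ?_, ?_, ?_⟩,
    fun U => ⟨F' U, ?_, hd U, fun a ha ha' hU => ?_⟩⟩
  · intro v hv T hT hinj
    have hT' : ∀ a ∈ T, a ∈ Q' ∧ a - v ∈ Q' := fun a ha => mem_Av.1 (hT ha)
    refine fib T (fun a => (lab a, lab (a - v))) _ _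
      (fun T' h1 h2 => g1 v hv T' (fun a ha => mem_Av.2
        ⟨hsub (hT' a (h1 ha)).1, hsub (hT' a (h1 ha)).2⟩) h2) ?_
    rintro ⟨U, W⟩ L hL hU
    have hU1 : ∀ a ∈ L, lab a = U := fun a ha => congrArg Prod.fst (hU a ha)
    have hU2 : ∀ a ∈ L, lab (a - v) = W := fun a ha => congrArg Prod.snd (hU a ha)
    obtain ⟨H, hH, hHe⟩ := shift (F' W) (hd W) (pr (cst v))
    have hG : ∀ a ∈ L, eval (pr (cst a)) (F' U * H) ≠ 0 := fun a ha => by
      rw [map_mul, hHe, ← pr_sub]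
      exact mul_ne_zero (hU1 a ha ▸ hne a (hT' a (hL ha)).1) (hU2 a ha ▸ hne _ (hT' a (hL ha)).2)
    refine (hS Z4 L cst (cst v) ((n : ℝ) ^ 2) (cst v ⬝ᵥ cst v / 2) (F' U * H)
      (2 * (18 * 2 ^ j + 2)) (cst_ne hv) ?_ (fun a ha => ⟨hsph a (hsub (hT' a (hL ha)).1), ?_,
        hG a ha⟩) fun a ha a' ha' h => ?_).trans (num ht le_rfl)
    · refine (totalDegree_mul _ _).trans ?_
      have := hd U
      omega
    · have h1 := hsph a (hsub (hT' a (hL ha)).1)
      have h2 := hsph _ (hsub (hT' a (hL ha)).2)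
      simp only [cst, dotProduct, Fin.sum_univ_four, Pi.sub_apply, Int.cast_sub] at h1 h2 ⊢
      linear_combination (h1 - h2) / 2
    · have e1 : cell (F' U) (pr (cst a)) = cell (F' U) (pr (cst a')) :=
        cell_map (φ := id) continuous_id
          (fun y hy => left_ne_zero_of_mul (by rwa [map_mul] at hy)) (hG a ha) h
      have e2 : cell (F' W) (pr (cst a) - pr (cst v)) = cell (F' W) (pr (cst a') - pr (cst v)) :=
        cell_map (φ := fun y => y - pr (cst v)) (continuous_id.sub continuous_const)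
          (fun y hy => right_ne_zero_of_mul (by rwa [map_mul, hHe] at hy)) (hG a ha) h
      refine hinj (hL ha) (hL ha') ?_
      simp only [hU1 a ha, hU1 a' ha', hU2 a ha, hU2 a' ha', pr_sub, e1, e2]
  · intro θ T hT hC hinj
    refine fib T lab _ _ (fun T' h1 h2 => g2 θ T' (fun a ha => hsub (hT (h1 ha)))
      (fun a ha => ?_) h2) fun U L hL hU => ?_
    · obtain ⟨b, hb, c, hc, h3, h4, h5⟩ := hC a (h1 ha)
      exact ⟨b, hsub hb, c, hsub hc, congrArg Prod.fst h3, congrArg Prod.fst h4, h5⟩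
    · have key : ∀ a ∈ L, θ ≠ 0 ∧ ∃ x : Fin 4 → ℝ, x ⬝ᵥ x = (n : ℝ) ^ 2 ∧ x ⬝ᵥ θ = 0 ∧
          eval (pr x) (F' U) ≠ 0 ∧ cell (F' U) (pr x) = cell (F' U) (pr (cst a)) := fun a ha => by
        obtain ⟨b, hb, c, hc, h3, h4, h5, h6⟩ := hC a (hL ha)
        have b1 : lab b = U := (congrArg Prod.fst h3).trans (hU a ha)
        have c1 : lab c = U := (congrArg Prod.fst h4).trans (hU a ha)
        have b2 : cell (F' U) (pr (cst b)) = cell (F' U) (pr (cst a)) := by
          have := congrArg Prod.snd h3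
          simpa only [b1, hU a ha] using this
        have c2 : cell (F' U) (pr (cst c)) = cell (F' U) (pr (cst a)) := by
          have := congrArg Prod.snd h4
          simpa only [c1, hU a ha] using this
        refine ⟨fun h => by simp [h] at h6, ?_⟩
        obtain ⟨x, x1, x2, x3, x4⟩ := GPT.great_pt n (F U) (F' U) (hF' U) b c θ (hQ b (hsub hb))
          (hQ c (hsub hc)) (g4 b (hsub hb) c (hsub hc) (b1.trans c1.symm)) (b1 ▸ hne b hb)
          (b2.trans c2.symm) h5 h6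
        exact ⟨x, x1, x2, x3, x4.trans b2⟩
      rcases L.eq_empty_or_nonempty with rfl | ⟨a0, ha0⟩
      · simp
      have hθ := (key a0 ha0).1
      choose! x hx using fun a ha => (key a ha).2
      refine (hS Z4 L x θ ((n : ℝ) ^ 2) 0 (F' U) _ hθ (hd U)
        (fun a ha => ⟨(hx a ha).1, (hx a ha).2.1, (hx a ha).2.2.1⟩)
        fun a ha a' ha' h => ?_).trans (num ht (by omega))
      refine hinj (hL ha) (hL ha') ?_
      have e1 := (hx a ha).2.2.2.symm.trans (h.trans (hx a' ha').2.2.2)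
      simp only [hU a ha, hU a' ha', e1]
  · intro T hT hE
    rcases T.eq_empty_or_nonempty with rfl | ⟨a0, ha0⟩
    · simp
    have h1 := hFs (lab a0) (cell (F (lab a0)) (pr (cst a0)))
    have h2 := g3 (Q.filter fun a => lab a = lab a0) (filter_subset _ _)
      fun a ha c hc => (mem_filter.1 ha).2.trans (mem_filter.1 hc).2.symm
    have h3 : T ⊆ (Q.filter fun a => lab a = lab a0).filter fun a =>
        eval (pr (cst a)) (F (lab a0)) ≠ 0 ∧
          cell (F (lab a0)) (pr (cst a)) = cell (F (lab a0)) (pr (cst a0)) := fun a ha => by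
      have e1 : lab a = lab a0 := congrArg Prod.fst (hE a ha a0 ha0)
      have e2 : cell (F' (lab a0)) (pr (cst a)) = cell (F' (lab a0)) (pr (cst a0)) := by
        have := congrArg Prod.snd (hE a ha a0 ha0)
        simpa only [e1] using this
      have e3 : ∀ y, eval y (F' (lab a0)) ≠ 0 → eval y (F (lab a0)) ≠ 0 := fun y hy =>
        left_ne_zero_of_mul (by rwa [hF', map_mul] at hy)
      have e4 : eval (pr (cst a)) (F' (lab a0)) ≠ 0 := e1 ▸ hne a (hT ha)
      exact mem_filter.2 ⟨mem_filter.2 ⟨hsub (hT ha), e1⟩, e3 _ e4,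
        cell_map (φ := id) continuous_id e3 e4 e2⟩
    have h4 := (Nat.mul_le_mul_left (2 ^ (3 * j)) (card_le_card h3)).trans h1
    rw [← pow_mul, mul_comm j 3, mul_assoc]
    exact (Nat.mul_le_mul_left S h4).trans h2
  · exact fun a ha c hc h => g4 a (hsub ha) c (hsub hc) (congrArg Prod.fst h)
  · rw [hF']
    exact mul_ne_zero (hF0 U) (ball_ne hn)
  · by_contra h
    exact ha' (mem_filter.2 ⟨ha, hU ▸ h⟩)

end Pool.Agent.Lib.E94
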