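import Pool.Agent.Lib.E94.Blue

/-! Row SURF: the energy of points on a surface of bounded degree. -/

set_option autoImplicit false

namespace Pool.Agent.Lib.E94

open Finset MvPolynomial Pointwise
open Pool.Agent.Lib.MP_fb430f_co

namespace SURF

lemma top_ne {F : MvPolynomial (Fin 3) ℝ} (hF : F ≠ 0) :
    homogeneousComponent F.totalDegree F ≠ 0 := by
  obtain ⟨m, hm, he⟩ := exists_mem_eq_sup F.support (support_nonempty.2 hF)
    fun s => s.sum fun _ e => e
  intro h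
  have h1 := coeff_homogeneousComponent F.totalDegree F m
  rw [h, coeff_zero, if_pos (by rw [totalDegree, he]; rfl)] at h1
  exact mem_support_iff.1 hm h1.symm

lemma ex_tau {F : MvPolynomial (Fin 3) ℝ} (hF : F ≠ 0) :
    ∃ τ : Fin 3 → ℝ, τ 2 ≠ 0 ∧ eval τ (homogeneousComponent F.totalDegree F) ≠ 0 := by
  obtain ⟨τ, -, h⟩ := exists_eval_ne (mul_ne_zero (top_ne hF) (X_ne_zero (2 : Fin 3))) (y := 0)
    Filter.univ_mem
  rw [map_mul, eval_X] at h
  exact ⟨τ, right_ne_zero_of_mul h, left_ne_zero_of_mul h⟩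

/-- the cylinder over a plane curve -/
noncomputable def lift (τ : Fin 3 → ℝ) (f : MvPolynomial (Fin 2) ℝ) : MvPolynomial (Fin 3) ℝ :=
  ∑ α ∈ f.support, C (coeff α f) *
    ∏ i : Fin 2, (X i.castSucc - C (τ i.castSucc / τ 2) * X 2) ^ α i

lemma eval_lift (τ y : Fin 3 → ℝ) (f : MvPolynomial (Fin 2) ℝ) :
    eval y (lift τ f) = eval (rho τ y) f := by
  rw [eval_eq' (rho τ y) f]
  simp [lift, rho]

lemma deg_lift (τ : Fin 3 → ℝ) (f : MvPolynomial (Fin 2) ℝ) :
    (lift τ f).totalDegree ≤ f.totalDegree := by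
  refine totalDegree_finsetSum_le fun α h => (totalDegree_mul _ _).trans ?_
  rw [totalDegree_C, zero_add]
  refine (totalDegree_finsetProd _ _).trans (le_trans (sum_le_sum fun i _ => ?_)
    ((le_of_eq (Finsupp.sum_fintype α (fun _ e => e) fun _ => rfl).symm).trans (le_totalDegree h)))
  refine (totalDegree_pow _ _).trans ((Nat.mul_le_mul_left _ ?_).trans (mul_one _).le)
  refine (totalDegree_sub _ _).trans (max_le (by rw [totalDegree_X]) ?_)
  exact (totalDegree_mul _ _).trans (by rw [totalDegree_C, totalDegree_X, zero_add])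

lemma rho_cont (τ : Fin 3 → ℝ) : Continuous (rho τ) := by
  unfold rho
  fun_prop

lemma cst_dot (a b : Z4) : cst a ⬝ᵥ cst b = ((a ⬝ᵥ b : ℤ) : ℝ) := by
  simp [cst, dotProduct]

lemma cst_ne {v : Z4} (hv : v ≠ 0) : cst v ≠ 0 := fun h => hv (by
  funext i
  have := congrFun h i
  simpa [cst] using this)

/-- the part off the curve -/
lemma off (hS : St_SPC) (hE : St_EXC) {n K d e : ℕ} {P : Finset Z4} {F : MvPolynomial (Fin 3) ℝ}
    (hn : 1 ≤ n) (hK1 : 1 ≤ K) (he : 1 ≤ e) (hP : Sph n P) (hK : FewCirc P K) (hF : F ≠ 0)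
    (hd : F.totalDegree ≤ d) (h0 : ∀ a ∈ P, eval (pr (cst a)) F = 0) {m : ℕ} (hm : P.card ≤ m)
    (hm5 : m ≤ e ^ 5) (τ : Fin 3 → ℝ) (f : MvPolynomial (Fin 2) ℝ) (hf : f.totalDegree ≤ 8 * e)
    (hf0 : ∀ a ∈ P, eval (rho τ (pr (cst a))) f ≠ 0)
    (hc : ∀ T ⊆ P, (∀ a ∈ T, ∀ c ∈ T, cell f (rho τ (pr (cst a))) = cell f (rho τ (pr (cst c)))) →
      e ^ 2 * T.card ≤ m) :
    En P ≤ (2 * d + 2 + (54 * (4 * d + 1) * (4 * d + 19) + 1) * (10 ^ 56 + 3)) * K * e * m ^ 2 := by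
  classical
  set lab : Z4 → Set (Fin 2 → ℝ) := fun a => cell f (rho τ (pr (cst a))) with hlab
  set Ex : Z4 → Prop := fun v => ∀ x : Fin 4 → ℝ, x ⬝ᵥ x = (n : ℝ) ^ 2 →
    x ⬝ᵥ cst v = cst v ⬝ᵥ cst v / 2 → eval (pr x) F = 0 with hEx
  set B := 54 * (4 * d + 1) * (2 * (8 * e) + 4 * d + 3) + 1 with hB
  set L := (P ×ˢ P).filter fun x => lab x.1 = lab x.2 with hL
  have hLc : e ^ 2 * L.card ≤ m ^ 2 := by
    simp only [hL, card_filter, sum_product]
    rw [mul_sum, sq m]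
    refine (sum_le_card_nsmul _ _ m fun a _ => ?_).trans (Nat.mul_le_mul_right _ hm)
    rw [← card_filter]
    exact hc _ (filter_subset _ _) fun b hb c hc' =>
      (mem_filter.1 hb).2.symm.trans (mem_filter.1 hc').2
  have h1 : ∀ v ∈ ((P - P).erase 0).filter fun v => ¬ Ex v, (Av P v).card ^ 2 ≤
      B * (L.filter fun x => x.1 ∈ Av P v ∧ x.2 ∈ Av P v).card := by
    intro v hv
    obtain ⟨v1, v2⟩ := mem_filter.1 hv
    refine (sq_le_pairs _ lab).trans (Nat.mul_le_mul (card_image_le_of_injOn _ _ _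
      fun T hT hi => ?_) (card_le_card fun x hx => ?_))
    · refine hS Z4 T cst (cst v) ((n : ℝ) ^ 2) (cst v ⬝ᵥ cst v / 2) F (lift τ f) d (8 * e)
        (cst_ne (ne_of_mem_erase v1)) hd ((deg_lift τ f).trans hf) ?_ (fun a ha => ?_)
        fun a ha b hb h => hi ha hb ?_
      · by_contra hx
        exact v2 fun x x1 x2 => by_contra fun x3 => hx ⟨x, x1, x2, x3⟩
      · obtain ⟨a1, a2⟩ := mem_filter.1 (Av_sub hP v (hT ha))
        refine ⟨?_, ?_, h0 a a1, by rw [eval_lift]; exact hf0 a a1⟩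
        · rw [cst_dot, hP a a1]
          push_cast
          rfl
        · rw [cst_dot, cst_dot, ← a2]
          push_cast
          ring
      · exact cell_map (rho_cont τ) (fun y hy => by rwa [eval_lift] at hy)
          (by rw [eval_lift]; exact hf0 a (mem_Av.1 (hT ha)).1) h
    · simp only [hL, mem_filter, mem_product] at hx ⊢
      exact ⟨⟨⟨(mem_Av.1 hx.1.1).1, (mem_Av.1 hx.1.2).1⟩, hx.2⟩, hx.1⟩
  have h2 : ∑ v ∈ ((P - P).erase 0).filter Ex, (Av P v).card ≤ P.card * (2 * d + 1) := by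
    have e1 : ∀ v, (Av P v).card = (P.filter fun a => a ∈ Av P v).card := fun v => by
      congr 1
      ext a
      simp only [mem_filter, mem_Av]
      tauto
    simp only [e1]
    rw [sum_card_comm]
    refine sum_le_card_nsmul _ _ _ fun a ha => hE n d a F _ hn (hP a ha) hF hd fun v hv => ?_
    obtain ⟨v1, v2⟩ := mem_filter.1 hv
    obtain ⟨v3, v4⟩ := mem_filter.1 v1
    exact ⟨ne_of_mem_erase v3, (mem_filter.1 (Av_sub hP v v2)).2, v4⟩
  have h3 : ∑ v ∈ ((P - P).erase 0).filter Ex, (Av P v).card ^ 2 ≤ m * (m * (2 * d + 1)) := by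
    refine le_trans (sum_le_sum (g := fun v => m * (Av P v).card) fun v _ => ?_) ?_
    · rw [sq]
      exact Nat.mul_le_mul_right _ ((Av_le v).trans hm)
    · rw [← mul_sum]
      exact Nat.mul_le_mul_left _ (h2.trans (Nat.mul_le_mul_right _ hm))
  have hC := pairs_le (P := P) L (filter_subset _ _) (2 * K * e ^ 2)
    (((P - P).erase 0).filter fun v => ¬ Ex v)
  have hT := hC.trans (Nat.add_le_add_left (Nat.add_le_add_left (tail hP hK (k := 2 * K * e ^ 2)
    (Nat.le_mul_of_pos_right _ (by positivity)) (by positivity) (by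
      calc K ^ 3 * P.card ^ 2 ≤ K ^ 5 * (e ^ 5) ^ 2 :=
            Nat.mul_le_mul (Nat.pow_le_pow_right hK1 (by norm_num))
              (Nat.pow_le_pow_left (hm.trans hm5) 2)
        _ ≤ 2 ^ 15 * (K ^ 5 * (e ^ 5) ^ 2) := Nat.le_mul_of_pos_left _ (by norm_num)
        _ = _ := by ring) _ fun w hw => (mem_filter.1 hw).2) _) _)
  have h4 := sum_le_sum h1
  rw [← mul_sum] at h4
  have h5 : En P ≤ P.card ^ 2 + ∑ v ∈ (P - P).erase 0, (Av P v).card ^ 2 := by
    refine (sum_le_sum_of_subset ((subset_insert_iff (a := 0)).2 subset_rfl)).trans ?_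
    rw [sum_insert (notMem_erase _ _)]
    exact add_le_add (Nat.pow_le_pow_left (Av_le _) 2) le_rfl
  rw [← sum_filter_add_sum_filter_not _ Ex] at h5
  have b0 : P.card ^ 2 ≤ m ^ 2 := Nat.pow_le_pow_left hm 2
  have b1 : B ≤ (54 * (4 * d + 1) * (4 * d + 19) + 1) * e := by
    have c1 : 2 * (8 * e) + 4 * d + 3 ≤ (4 * d + 19) * e := by nlinarith
    have c2 := Nat.mul_le_mul_left (54 * (4 * d + 1)) c1
    rw [hB, add_mul, mul_assoc _ _ e]
    omega
  have b2 : m ^ 2 ≤ K * m ^ 2 := Nat.le_mul_of_pos_left _ hK1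
  have b3 : L.card * (2 * K * e ^ 2) + (P.card ^ 2 + 10 ^ 56 * P.card ^ 2) ≤
      (10 ^ 56 + 3) * (K * m ^ 2) := by
    have c1 := Nat.mul_le_mul_left (2 * K) hLc
    have c2 : L.card * (2 * K * e ^ 2) = 2 * K * (e ^ 2 * L.card) := by ring
    have c3 : 2 * K * m ^ 2 = 2 * (K * m ^ 2) := by ring
    omega
  have b4 := h4.trans (Nat.mul_le_mul b1 (hT.trans b3))
  have b5 : K * m ^ 2 ≤ e * (K * m ^ 2) := Nat.le_mul_of_pos_left _ he
  have b6 := Nat.mul_le_mul_left (2 * d + 2) (b2.trans b5)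
  calc En P ≤ _ := h5
    _ ≤ m ^ 2 + (m * (m * (2 * d + 1)) + _) := add_le_add b0 (add_le_add h3 b4)
    _ = (2 * d + 2) * m ^ 2 + (54 * (4 * d + 1) * (4 * d + 19) + 1) * e *
        ((10 ^ 56 + 3) * (K * m ^ 2)) := by ring
    _ ≤ _ := (Nat.add_le_add_right b6 _).trans (le_of_eq (by ring))

end SURF

theorem bSURF (hS : St_SPC) (hE : St_EXC) (hH : St_HILB) (hI : St_INT) (hU : St_UNI) :
    St_SURF := by
  classical
  intro d
  refine ⟨8 * (8 * (16 * d + 1) +
    (2 * d + 2 + (54 * (4 * d + 1) * (4 * d + 19) + 1) * (10 ^ 56 + 3))), ?_⟩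
  intro n K j P F hn hK1 hP hK hF hd h0 hm
  obtain ⟨τ, t1, t2⟩ := SURF.ex_tau hF
  obtain ⟨f, f1, f2, f3⟩ := exists_partition (n := 2) P (fun a => rho τ (pr (cst a))) j
  have he : 1 ≤ 2 ^ j := Nat.one_le_two_pow
  have f2' : f.totalDegree ≤ 8 * 2 ^ j := f2.trans (le_of_eq (by ring))
  rw [mul_comm 2 j, pow_mul] at f3
  generalize 2 ^ j = e at *
  have k0 := hI n K _ _ (hP.mono (filter_subset (fun a => eval (rho τ (pr (cst a))) f = 0) P))
    (FewCirc_mono hK (filter_subset _ _)) (hH n _ F τ f (hP.mono (filter_subset _ _)) t1 t2 f1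
      fun a ha => ⟨h0 a (mem_filter.1 ha).1, (mem_filter.1 ha).2⟩)
  have k1 := SURF.off hS hE hn hK1 he
    (hP.mono (filter_subset (fun a => eval (rho τ (pr (cst a))) f ≠ 0) P))
    (FewCirc_mono hK (filter_subset _ _)) hF hd (fun a ha => h0 a (mem_filter.1 ha).1)
    (card_filter_le _ _) hm τ f f2' (fun a ha => (mem_filter.1 ha).2) fun T hT h => by
      rcases T.eq_empty_or_nonempty with rfl | ⟨a, ha⟩
      · simp
      refine le_trans (Nat.mul_le_mul_left _ (card_le_card fun b hb => ?_))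
        (f3 (cell f (rho τ (pr (cst a)))))
      exact mem_filter.2 ⟨(mem_filter.1 (hT hb)).1, (mem_filter.1 (hT hb)).2, h b hb a ha⟩
  have k2 := hU P (P.filter fun a => eval (rho τ (pr (cst a))) f = 0)
    (P.filter fun a => eval (rho τ (pr (cst a))) f ≠ 0) fun a ha => by
      simp only [mem_union, mem_filter]
      tauto
  have c1 : 2 * F.totalDegree * f.totalDegree + 1 ≤ (16 * d + 1) * e := by
    have := Nat.mul_le_mul (Nat.mul_le_mul_left 2 hd) f2'
    nlinarith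
  have k3 := k0.trans (Nat.mul_le_mul (Nat.mul_le_mul (Nat.mul_le_mul_left 4 c1)
    (show K + 1 ≤ 2 * K by omega)) (Nat.pow_le_pow_left (card_filter_le _ _) 2))
  exact k2.trans ((Nat.mul_le_mul_left 8 (add_le_add k3 k1)).trans (le_of_eq (by ring)))

end Pool.Agent.Lib.E94
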