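import Pool.Agent.Lib.E94.Blue

set_option autoImplicit false

namespace Pool.Agent.Lib.E94

open Finset Pointwise
open Pool.Agent.Lib.MP_fb430f_co

namespace TWO

/-- Split off the term at zero. -/
lemma sum_split (S : Finset Z4) (f : Z4 → ℕ) :
    ∑ w ∈ S, f w ≤ f 0 + ∑ w ∈ S.erase 0, f w := by
  by_cases h : (0 : Z4) ∈ S
  · exact (add_sum_erase S f h).ge
  · rw [erase_eq_of_notMem h]
    exact Nat.le_add_left _ _

/-- Pairs with equal labels at both ends, counted by the other difference. -/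
lemma pairs_sum {Λ : Type} [DecidableEq Λ] (lab : Z4 → Λ) (A V : Finset Z4) :
    ∑ v ∈ V, ((Av A v ×ˢ Av A v).filter fun x =>
      (lab x.1, lab (x.1 - v)) = (lab x.2, lab (x.2 - v))).card ≤
      ∑ w ∈ A - A, (Loc lab A w).card ^ 2 := by
  have h : ∑ w ∈ A - A, (Loc lab A w).card ^ 2 =
      ((A - A).sigma fun w => Loc lab A w ×ˢ Loc lab A w).card := by
    rw [card_sigma]
    exact sum_congr rfl fun w _ => by rw [card_product, sq]
  rw [h, ← card_sigma]
  refine card_le_card_of_injOn (fun x => ⟨x.2.1 - x.2.2, (x.2.1, x.2.1 - x.1)⟩) ?_ ?_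
  · rintro ⟨v, a, c⟩ hx
    obtain ⟨-, hx⟩ := mem_sigma.1 (mem_coe.1 hx)
    obtain ⟨hp, he⟩ := mem_filter.1 hx
    obtain ⟨ha, hc⟩ := mem_product.1 hp
    obtain ⟨ha1, ha2⟩ := mem_Av.1 ha
    obtain ⟨hc1, hc2⟩ := mem_Av.1 hc
    obtain ⟨he1, he2⟩ := Prod.mk.inj he
    have e1 : a - (a - c) = c := sub_sub_cancel a c
    have e2 : a - v - (a - c) = c - v := by abel
    refine mem_coe.2 (mem_sigma.2 ⟨sub_mem_sub ha1 hc1, mem_product.2 ⟨mem_Loc.2 ⟨ha1, ?_, ?_⟩,
      mem_Loc.2 ⟨ha2, ?_, ?_⟩⟩⟩)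
    · show a - (a - c) ∈ A
      rw [e1]; exact hc1
    · show lab (a - (a - c)) = lab a
      rw [e1]; exact he1.symm
    · show a - v - (a - c) ∈ A
      rw [e2]; exact hc2
    · show lab (a - v - (a - c)) = lab (a - v)
      rw [e2]; exact he2.symm
  · rintro ⟨v, a, c⟩ _ ⟨v', a', c'⟩ _ h
    have h1 : a - c = a' - c' := congrArg Sigma.fst h
    have h2 : (a, a - v) = (a', a' - v') :=
      congrArg (fun y : (_ : Z4) × (Z4 × Z4) => y.2) h
    obtain ⟨h3, h4⟩ := Prod.mk.inj h2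
    subst h3
    have h5 : v = v' := sub_right_injective h4
    have h6 : c = c' := sub_right_injective h1
    subst h5 h6
    rfl

end TWO

theorem bTWO : St_TWO := by
  intro Λ lab A B hT
  classical
  have h0 : (Av A 0).card ^ 2 ≤ A.card ^ 2 :=
    Nat.pow_le_pow_left (card_le_card fun a ha => (mem_Av.1 ha).1) 2
  have h1 : (Loc lab A 0).card ^ 2 ≤ A.card ^ 2 :=
    Nat.pow_le_pow_left (card_le_card fun a ha => (mem_Loc.1 ha).1) 2
  have h2 : ∑ v ∈ (A - A).erase 0, (Av A v).card ^ 2 ≤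
      B * ∑ w ∈ A - A, (Loc lab A w).card ^ 2 := by
    refine le_trans ?_ (Nat.mul_le_mul_left B (TWO.pairs_sum lab A ((A - A).erase 0)))
    rw [mul_sum]
    refine sum_le_sum fun v hv => ?_
    refine (sq_le_pairs (Av A v) fun a => (lab a, lab (a - v))).trans ?_
    exact Nat.mul_le_mul_right _
      (card_image_le_of_injOn _ _ B (hT v (ne_of_mem_erase hv)))
  have h3 := TWO.sum_split (A - A) fun w => (Loc lab A w).card ^ 2
  have h4 := TWO.sum_split (A - A) fun w => (Av A w).card ^ 2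
  unfold En
  refine h4.trans (Nat.add_le_add h0 (h2.trans (Nat.mul_le_mul_left B (h3.trans ?_))))
  exact Nat.add_le_add_right h1 _

end Pool.Agent.Lib.E94
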