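import Pool.Agent.Lib.E94.Blue

set_option autoImplicit false

namespace Pool.Agent.Lib.E94

open Finset Pointwise
open Pool.Agent.Lib.MP_fb430f_co

namespace UNI

/-- Points of `X` whose translate by `-v` lies in `Y`. -/
def rr (X Y : Finset Z4) (v : Z4) : Finset Z4 := X.filter fun a => a - v ∈ Y

lemma sum_le_En (A V : Finset Z4) : ∑ w ∈ V, (Av A w).card ^ 2 ≤ En A := by
  refine sum_le_sum_of_ne_zero fun w _ h => ?_
  have h0 : (Av A w).card ≠ 0 := fun h0 => h (by rw [h0]; rfl)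
  obtain ⟨a, ha⟩ := card_ne_zero.1 h0
  obtain ⟨h1, h2⟩ := mem_Av.1 ha
  have h3 := sub_mem_sub h1 h2
  rwa [sub_sub_cancel] at h3

lemma sq_eq (X Y : Finset Z4) (v : Z4) : (rr X Y v).card ^ 2 =
    ((X ×ˢ X).filter fun x => x.1 - v ∈ Y ∧ x.2 - v ∈ Y).card := by
  rw [rr, sq, ← card_product]
  refine congrArg card ?_
  ext x
  simp only [mem_product, mem_filter]
  tauto

lemma step1 (X Y V : Finset Z4) :
    ∑ v ∈ V, (rr X Y v).card ^ 2 ≤ ∑ x ∈ X ×ˢ X, (Av Y (x.1 - x.2)).card := by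
  simp only [sq_eq]
  rw [sum_card_comm V (X ×ˢ X) fun v x => x.1 - v ∈ Y ∧ x.2 - v ∈ Y]
  refine sum_le_sum fun x _ => ?_
  refine card_le_card_of_injOn (fun v => x.1 - v) (fun v hv => ?_) fun v _ v' _ h => by
    simpa using h
  obtain ⟨-, h1, h2⟩ := mem_filter.1 (mem_coe.1 hv)
  refine mem_coe.2 (mem_Av.2 ⟨h1, ?_⟩)
  have e : x.1 - v - (x.1 - x.2) = x.2 - v := by ring
  rw [e]
  exact h2

lemma step2 (X : Finset Z4) (f : Z4 → ℕ) :
    ∑ x ∈ X ×ˢ X, f (x.1 - x.2) ≤ ∑ w ∈ X - X, (Av X w).card * f w := by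
  rw [← sum_fiberwise_of_maps_to (s := X ×ˢ X) (t := X - X) (g := fun x => x.1 - x.2)
    fun x hx => sub_mem_sub (mem_product.1 hx).1 (mem_product.1 hx).2]
  refine sum_le_sum fun w _ => ?_
  rw [sum_congr rfl (g := fun _ => f w) fun x hx => by rw [(mem_filter.1 hx).2],
    sum_const, smul_eq_mul]
  refine Nat.mul_le_mul_right _ (card_le_card_of_injOn Prod.fst (fun x hx => ?_)
    fun x hx y hy h => ?_)
  · obtain ⟨h1, h2⟩ := mem_filter.1 (mem_coe.1 hx)
    refine mem_coe.2 (mem_Av.2 ⟨(mem_product.1 h1).1, ?_⟩)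
    rw [← h2, sub_sub_cancel]
    exact (mem_product.1 h1).2
  · have h1 := (mem_filter.1 (mem_coe.1 hx)).2
    have h2 := (mem_filter.1 (mem_coe.1 hy)).2
    exact Prod.ext h (by linear_combination h - h1 + h2)

lemma cross (X Y V : Finset Z4) : 2 * ∑ v ∈ V, (rr X Y v).card ^ 2 ≤ En X + En Y := by
  have h1 := (step1 X Y V).trans (step2 X fun w => (Av Y w).card)
  have h2 : 2 * ∑ w ∈ X - X, (Av X w).card * (Av Y w).card ≤
      ∑ w ∈ X - X, (Av X w).card ^ 2 + ∑ w ∈ X - X, (Av Y w).card ^ 2 := by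
    rw [mul_sum, ← sum_add_distrib]
    refine sum_le_sum fun w _ => ?_
    generalize (Av X w).card = a
    generalize (Av Y w).card = b
    zify
    nlinarith [sq_nonneg ((a : ℤ) - b)]
  have h3 := sum_le_En X (X - X)
  have h4 := sum_le_En Y (X - X)
  omega

lemma split {A B C : Finset Z4} (h : A ⊆ B ∪ C) (v : Z4) : (Av A v).card ^ 2 ≤
    4 * ((rr B B v).card ^ 2 + (rr B C v).card ^ 2 + (rr C B v).card ^ 2 +
      (rr C C v).card ^ 2) := by
  have h1 : Av A v ⊆ rr B B v ∪ rr B C v ∪ rr C B v ∪ rr C C v := fun a ha => by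
    obtain ⟨h2, h3⟩ := mem_Av.1 ha
    have h4 := mem_union.1 (h h2)
    have h5 := mem_union.1 (h h3)
    simp only [rr, mem_union, mem_filter]
    tauto
  have h2 := (card_le_card h1).trans ((card_union_le _ _).trans (Nat.add_le_add_right
    ((card_union_le _ _).trans (Nat.add_le_add_right (card_union_le _ _) _)) _))
  refine (Nat.pow_le_pow_left h2 2).trans ?_
  generalize (rr B B v).card = a
  generalize (rr B C v).card = b
  generalize (rr C B v).card = c
  generalize (rr C C v).card = d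
  zify
  nlinarith [sq_nonneg ((a : ℤ) - b), sq_nonneg ((a : ℤ) - c), sq_nonneg ((a : ℤ) - d),
    sq_nonneg ((b : ℤ) - c), sq_nonneg ((b : ℤ) - d), sq_nonneg ((c : ℤ) - d)]

end UNI

theorem bUNI : St_UNI := by
  intro A B C h
  have h1 : En A ≤ _ := sum_le_sum fun v (_ : v ∈ A - A) => UNI.split h v
  rw [← mul_sum, sum_add_distrib, sum_add_distrib, sum_add_distrib] at h1
  have h2 := UNI.cross B B (A - A)
  have h3 := UNI.cross B C (A - A)
  have h4 := UNI.cross C B (A - A)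
  have h5 := UNI.cross C C (A - A)
  omega

end Pool.Agent.Lib.E94
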