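import Pool.Agent.Lib.E94.B_SPH
import Pool.Agent.Lib.E94.B_CC
import Pool.Agent.Lib.E94.B_EXC
import Pool.Agent.Lib.E94.B_HILB
import Pool.Agent.Lib.E94.B_INT
import Pool.Agent.Lib.E94.B_UNI
import Pool.Agent.Lib.E94.B_TWO
import Pool.Agent.Lib.E94.B_LOCS
import Pool.Agent.Lib.E94.B_SURF
import Pool.Agent.Lib.E94.B_STEP
import Pool.Agent.Lib.E94.B_DIRG
import Pool.Agent.Lib.E94.B_NLOC
import Pool.Agent.Lib.E94.B_FIN
import Pool.Agent.Lib.E94.B_NAT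
import Pool.Agent.Lib.E94.B_MAIN

set_option autoImplicit false

namespace Pool.Agent.Lib.E94

theorem main : St_MAIN :=
  bMAIN (bNAT bUNI bTWO bLOCS (bSURF (bSPC bCC) bEXC bHILB bINT bUNI) (bSTEP bSPH)
    (bFIN (bNLOC bDIRG)))

end Pool.Agent.Lib.E94
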