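import Pool.Agent.Lib.E94.Blue

set_option autoImplicit false

namespace Pool.Agent.Lib.E94

open Finset MvPolynomial
open Pool.Agent.Lib.MP_fb430f_co

namespace GPT

/-- Lift of a point of three-space to the half sphere of sign `s`. -/
noncomputable def lift (r s : ℝ) (y : Fin 3 → ℝ) : Fin 4 → ℝ :=
  ![y 0, y 1, y 2, s * Real.sqrt (r - ∑ i, y i ^ 2)]

lemma pr_lift (r s : ℝ) (y : Fin 3 → ℝ) : pr (lift r s y) = y := by
  funext i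
  fin_cases i <;> rfl

lemma lift_dot (r s : ℝ) (y : Fin 3 → ℝ) (th : Fin 4 → ℝ) :
    lift r s y ⬝ᵥ th = y 0 * th 0 + y 1 * th 1 + y 2 * th 2 +
      s * Real.sqrt (r - ∑ i, y i ^ 2) * th 3 := by
  simp only [dotProduct, Fin.sum_univ_four]
  rfl

lemma lift_sq (r s : ℝ) (y : Fin 3 → ℝ) (hs : s * s = 1) (hy : 0 ≤ r - ∑ i, y i ^ 2) :
    lift r s y ⬝ᵥ lift r s y = r := by
  rw [lift_dot]
  have h1 := Real.mul_self_sqrt hy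
  have h2 : lift r s y 0 = y 0 := rfl
  have h3 : lift r s y 1 = y 1 := rfl
  have h4 : lift r s y 2 = y 2 := rfl
  have h5 : lift r s y 3 = s * Real.sqrt (r - ∑ i, y i ^ 2) := rfl
  rw [h2, h3, h4, h5]
  have h6 : ∑ i, y i ^ 2 = y 0 ^ 2 + y 1 ^ 2 + y 2 ^ 2 := Fin.sum_univ_three _
  generalize Real.sqrt (r - ∑ i, y i ^ 2) = t at h1 ⊢
  linear_combination h1 - h6 + t * t * hs

lemma rest (n : ℕ) (a : Z4) (ha : a ⬝ᵥ a = (n : ℤ) ^ 2) :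
    (n : ℝ) ^ 2 - ∑ i, pr (cst a) i ^ 2 = (a 3 : ℝ) ^ 2 := by
  have h1 : ((a ⬝ᵥ a : ℤ) : ℝ) = (((n : ℤ) ^ 2 : ℤ) : ℝ) := by rw [ha]
  simp only [dotProduct, Fin.sum_univ_four] at h1
  push_cast at h1
  have h2 : ∑ i, pr (cst a) i ^ 2 = (a 0 : ℝ) ^ 2 + (a 1 : ℝ) ^ 2 + (a 2 : ℝ) ^ 2 :=
    Fin.sum_univ_three _
  linear_combination - h1 - h2

lemma lift_pr (n : ℕ) (s : ℝ) (a : Z4) (ha : a ⬝ᵥ a = (n : ℤ) ^ 2)
    (hs : s * |(a 3 : ℝ)| = a 3) : lift ((n : ℝ) ^ 2) s (pr (cst a)) = cst a := by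
  funext i
  fin_cases i
  · rfl
  · rfl
  · rfl
  · change s * Real.sqrt ((n : ℝ) ^ 2 - ∑ i, pr (cst a) i ^ 2) = (a 3 : ℝ)
    rw [rest n a ha, Real.sqrt_sq_eq_abs, hs]

theorem great_pt (n : ℕ) (F F' : MvPolynomial (Fin 3) ℝ)
    (hF' : F' = F * (C ((n : ℝ) ^ 2) - ∑ i, X i ^ 2)) (b c : Z4) (th : Fin 4 → ℝ)
    (hb : b ⬝ᵥ b = (n : ℤ) ^ 2) (hc : c ⬝ᵥ c = (n : ℤ) ^ 2) (hh : 0 < b 3 ↔ 0 < c 3)
    (h0 : eval (pr (cst b)) F' ≠ 0) (he : cell F' (pr (cst b)) = cell F' (pr (cst c)))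
    (h1 : cst b ⬝ᵥ th ≤ 0) (h2 : 0 < cst c ⬝ᵥ th) :
    ∃ x : Fin 4 → ℝ, x ⬝ᵥ x = (n : ℝ) ^ 2 ∧ x ⬝ᵥ th = 0 ∧ eval (pr x) F' ≠ 0 ∧
      cell F' (pr x) = cell F' (pr (cst b)) := by
  obtain ⟨s, hs, hsb, hsc⟩ : ∃ s : ℝ, s * s = 1 ∧ s * |(b 3 : ℝ)| = b 3 ∧ s * |(c 3 : ℝ)| = c 3 := by
    by_cases h : 0 < b 3
    · have k1 : (0 : ℝ) < b 3 := by exact_mod_cast h
      have k2 : (0 : ℝ) < c 3 := by exact_mod_cast hh.1 h
      exact ⟨1, by norm_num, by rw [abs_of_pos k1, one_mul], by rw [abs_of_pos k2, one_mul]⟩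
    · have k1 : (b 3 : ℝ) ≤ 0 := by exact_mod_cast not_lt.1 h
      have k2 : (c 3 : ℝ) ≤ 0 := by exact_mod_cast not_lt.1 fun k => h (hh.2 k)
      exact ⟨-1, by norm_num, by rw [abs_of_nonpos k1]; ring, by rw [abs_of_nonpos k2]; ring⟩
  have hpre : IsPreconnected (cell F' (pr (cst b))) := isPreconnected_connectedComponentIn
  have hmb : pr (cst b) ∈ cell F' (pr (cst b)) := mem_connectedComponentIn h0
  have hmc : pr (cst c) ∈ cell F' (pr (cst b)) := by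
    rw [he] at hmb ⊢
    exact mem_connectedComponentIn (connectedComponentIn_nonempty_iff.1 ⟨_, hmb⟩)
  have hne : ∀ y ∈ cell F' (pr (cst b)), eval y F' ≠ 0 := fun y hy =>
    connectedComponentIn_subset _ _ hy
  have hcont : Continuous fun y : Fin 3 → ℝ => lift ((n : ℝ) ^ 2) s y ⬝ᵥ th := by
    simp only [lift_dot]
    fun_prop
  obtain ⟨y, hy, hy0⟩ := hpre.intermediate_value hmb hmc hcont.continuousOn
    (show (0 : ℝ) ∈ Set.Icc (lift ((n : ℝ) ^ 2) s (pr (cst b)) ⬝ᵥ th)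
      (lift ((n : ℝ) ^ 2) s (pr (cst c)) ⬝ᵥ th) by
      rw [lift_pr n s b hb hsb, lift_pr n s c hc hsc]
      exact ⟨h1, h2.le⟩)
  have hpos : 0 ≤ (n : ℝ) ^ 2 - ∑ i, y i ^ 2 := by
    by_contra hneg
    have hc2 : Continuous fun y : Fin 3 → ℝ => (n : ℝ) ^ 2 - ∑ i, y i ^ 2 := by fun_prop
    obtain ⟨z, hz, hz0⟩ := hpre.intermediate_value hy hmb hc2.continuousOn
      (show (0 : ℝ) ∈ Set.Icc ((n : ℝ) ^ 2 - ∑ i, y i ^ 2)
        ((n : ℝ) ^ 2 - ∑ i, pr (cst b) i ^ 2) from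
        ⟨(not_le.1 hneg).le, by rw [rest n b hb]; positivity⟩)
    refine hne z hz ?_
    have hz1 : (n : ℝ) ^ 2 - ∑ i, z i ^ 2 = 0 := hz0
    rw [hF']
    simp only [map_mul, map_sub, map_sum, map_pow, eval_C, eval_X]
    rw [hz1, mul_zero]
  refine ⟨lift ((n : ℝ) ^ 2) s y, lift_sq _ _ _ hs hpos, hy0, ?_, ?_⟩
  · rw [pr_lift]
    exact hne y hy
  · rw [pr_lift]
    exact (connectedComponentIn_eq hy).symm

end GPT

end Pool.Agent.Lib.E94
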