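import Pool.Agent.Lib.E94.Blue

set_option autoImplicit false

namespace Pool.Agent.Lib.E94

open Finset MvPolynomial Pointwise
open Pool.Agent.Lib.MP_fb430f_co

namespace NAT

/-- The first stage: two hemispheres. -/
lemma good_zero (P : Finset Z4) : Good P.card P (fun a => decide (0 < a 3)) 4 1 := by
  refine ⟨fun v _ T _ hT => ?_, fun θ T _ _ hT => ?_, fun T hT _ => ?_, fun a _ c _ h => ?_⟩
  · exact (card_le_card_of_injOn (t := univ) _ (fun a _ => mem_coe.2 (mem_univ _)) hT).trans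
      (by simp)
  · exact (card_le_card_of_injOn (t := univ) _ (fun a _ => mem_coe.2 (mem_univ _)) hT).trans
      (by simp)
  · rw [one_mul]; exact card_le_card hT
  · exact decide_eq_decide.1 h

/-- Energy of a part of a stage whose groups have small energy. -/
lemma drop (hTWO : St_TWO) (hLOCS : St_LOCS) {Λ : Type} {lab : Z4 → Λ} {Q A : Finset Z4}
    {m B S c : ℕ} (hG : Good m Q lab B S) (hA : A ⊆ Q) (hm : Q.card ≤ m) (hS : 0 < S)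
    (h : ∀ T ⊆ A, (∀ a ∈ T, ∀ b ∈ T, lab a = lab b) → En T ≤ c * T.card ^ 2) :
    En A ≤ m ^ 2 + B * (m ^ 2 + B * (c * (m / S)) * m) := by
  have h2 : Two lab A B := hG.1.mono hA
  have hAm : A.card ≤ m := (card_le_card hA).trans hm
  have h3 := hLOCS Λ lab A B (c * (m / S)) h2 fun T hT hl => by
    have h4 : T.card ≤ m / S := by
      rw [Nat.le_div_iff_mul_le hS, mul_comm]
      exact hG.2.2.1 T (hT.trans hA) hl
    calc En T ≤ c * T.card ^ 2 := h T hT hl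
      _ = c * T.card * T.card := by ring
      _ ≤ c * (m / S) * T.card := by gcongr
  have h5 : A.card ^ 2 ≤ m ^ 2 := Nat.pow_le_pow_left hAm 2
  refine (hTWO Λ lab A B h2).trans (add_le_add h5 (Nat.mul_le_mul_left _ (add_le_add h5 ?_)))
  exact h3.trans (Nat.mul_le_mul_left _ hAm)

lemma ar_drop {m a A Di D e t C K : ℕ} (ha : a ≤ A) (hA : 1 ≤ A) (hD : Di ≤ D) (hD1 : 1 ≤ D)
    (hK : 1 ≤ K) (he : Di * e = t ^ 2 * D ^ 2) :
    m ^ 2 + 4 * a * Di ^ 2 * (m ^ 2 + 4 * a * Di ^ 2 * (C * K * e * (m / Di ^ 3)) * m) ≤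
      (5 + 16 * C * t ^ 2) * A ^ 2 * (K ^ 2 * D ^ 2 * m ^ 2) := by
  have h1 : Di ^ 3 * (m / Di ^ 3) ≤ m := Nat.mul_div_le _ _
  have hA2 : A ≤ A ^ 2 := Nat.le_self_pow two_ne_zero _
  have hK2 : K ≤ K ^ 2 := Nat.le_self_pow two_ne_zero _
  have e1 : m ^ 2 ≤ A ^ 2 * (K ^ 2 * D ^ 2 * m ^ 2) := by
    calc m ^ 2 = 1 * (1 * 1 ^ 2 * m ^ 2) := by ring
      _ ≤ A ^ 2 * (K ^ 2 * D ^ 2 * m ^ 2) := by
        gcongr
        · exact hA.trans hA2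
        · exact hK.trans hK2
  have e2 : a * Di ^ 2 * m ^ 2 ≤ A ^ 2 * (K ^ 2 * D ^ 2 * m ^ 2) := by
    calc a * Di ^ 2 * m ^ 2 = a * (1 * Di ^ 2 * m ^ 2) := by ring
      _ ≤ A ^ 2 * (K ^ 2 * D ^ 2 * m ^ 2) := by
        gcongr
        · exact ha.trans hA2
        · exact hK.trans hK2
  have e3 : a ^ 2 * K * (Di * e) * (Di ^ 3 * (m / Di ^ 3)) * m ≤
      A ^ 2 * K ^ 2 * (t ^ 2 * D ^ 2) * m * m := by
    rw [he]
    gcongr
  calc _ = m ^ 2 + 4 * (a * Di ^ 2 * m ^ 2) +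
        16 * C * (a ^ 2 * K * (Di * e) * (Di ^ 3 * (m / Di ^ 3)) * m) := by ring
    _ ≤ A ^ 2 * (K ^ 2 * D ^ 2 * m ^ 2) + 4 * (A ^ 2 * (K ^ 2 * D ^ 2 * m ^ 2)) +
        16 * C * (A ^ 2 * K ^ 2 * (t ^ 2 * D ^ 2) * m * m) := by gcongr
    _ = _ := by ring

lemma ar_fin {m A D K b u L j c₁ c₂ : ℕ} (hA : 1 ≤ A) (hD : 1 ≤ D) (hK : 1 ≤ K)
    (hb : b * u ≤ A) (hu : L + 1 ≤ u) :
    b * (m ^ 2 + 4 * A * D ^ 2 * (m ^ 2 + c₁ * (j * L + 8 * j + 1) * (4 * A) ^ 4 * K ^ 2 * m ^ 2) +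
        L * (c₂ * A ^ 2 * (K ^ 2 * D ^ 2 * m ^ 2))) ≤
      (5 + 1024 * c₁ * (8 * j + 1) + c₂) * A ^ 6 * K ^ 2 * D ^ 2 * m ^ 2 := by
  have hu1 : 1 ≤ u := by omega
  have hA5 : A ≤ A ^ 5 := Nat.le_self_pow (by norm_num) _
  have hA2 : A ^ 2 ≤ A ^ 5 := Nat.pow_le_pow_right hA (by norm_num)
  have hK2 : 1 ≤ K ^ 2 := Nat.one_le_pow _ _ hK
  have hj : j * L + 8 * j + 1 ≤ (8 * j + 1) * u :=
    calc j * L + 8 * j + 1 ≤ j * L + 8 * j + 1 + (7 * (j * L) + L) := Nat.le_add_right _ _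
      _ = (8 * j + 1) * (L + 1) := by ring
      _ ≤ (8 * j + 1) * u := Nat.mul_le_mul_left _ hu
  have e1 : m ^ 2 ≤ u * A ^ 5 * (K ^ 2 * D ^ 2 * m ^ 2) := by
    calc m ^ 2 = 1 * 1 * (1 * 1 ^ 2 * m ^ 2) := by ring
      _ ≤ u * A ^ 5 * (K ^ 2 * D ^ 2 * m ^ 2) := by
        gcongr
        exact hA.trans hA5
  have e2 : A * D ^ 2 * m ^ 2 ≤ u * A ^ 5 * (K ^ 2 * D ^ 2 * m ^ 2) := by
    calc A * D ^ 2 * m ^ 2 = 1 * A * (1 * D ^ 2 * m ^ 2) := by ring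
      _ ≤ u * A ^ 5 * (K ^ 2 * D ^ 2 * m ^ 2) := by gcongr
  have e3 : L * A ^ 2 ≤ u * A ^ 5 := Nat.mul_le_mul (by omega) hA2
  calc _ = b * (m ^ 2 + 4 * (A * D ^ 2 * m ^ 2) +
        1024 * c₁ * (j * L + 8 * j + 1) * A ^ 5 * (K ^ 2 * D ^ 2 * m ^ 2) +
        c₂ * (L * A ^ 2) * (K ^ 2 * D ^ 2 * m ^ 2)) := by ring
    _ ≤ b * (u * A ^ 5 * (K ^ 2 * D ^ 2 * m ^ 2) + 4 * (u * A ^ 5 * (K ^ 2 * D ^ 2 * m ^ 2)) +
        1024 * c₁ * ((8 * j + 1) * u) * A ^ 5 * (K ^ 2 * D ^ 2 * m ^ 2) +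
        c₂ * (u * A ^ 5) * (K ^ 2 * D ^ 2 * m ^ 2)) := by gcongr
    _ = (5 + 1024 * c₁ * (8 * j + 1) + c₂) * (b * u) * A ^ 5 * (K ^ 2 * D ^ 2 * m ^ 2) := by ring
    _ ≤ (5 + 1024 * c₁ * (8 * j + 1) + c₂) * A * A ^ 5 * (K ^ 2 * D ^ 2 * m ^ 2) := by gcongr
    _ = _ := by ring

end NAT

theorem bNAT (hUNI : St_UNI) (hTWO : St_TWO) (hLOCS : St_LOCS) (hSURF : St_SURF)
    (hSTEP : St_STEP) (hFIN : St_FIN) : St_NAT := by
  intro j
  obtain ⟨C₀, hC₀⟩ := hSURF (18 * 2 ^ j + 2)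
  refine ⟨5 + 1024 * (10 ^ 106 * (2 ^ (8 * j)) ^ 2) * (8 * j + 1) + (5 + 16 * C₀ * (2 ^ j) ^ 2),
    fun n K L P hn hK hS hF h1 h2 => ?_⟩
  have hA : 1 ≤ (10 ^ 5) ^ L := Nat.one_le_pow _ _ (by norm_num)
  have hD : 1 ≤ 2 ^ (j * L) := Nat.one_le_two_pow
  have key : ∀ i, i ≤ L → ∃ (Λ : Type) (Q : Finset Z4) (lab : Z4 → Λ), Q ⊆ P ∧
      Good P.card Q lab (4 * (10 ^ 5) ^ i * (2 ^ (j * i)) ^ 2) ((2 ^ (j * i)) ^ 3) ∧
      En P ≤ 8 ^ i * (En Q + i * ((5 + 16 * C₀ * (2 ^ j) ^ 2) * ((10 ^ 5) ^ L) ^ 2 *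
        (K ^ 2 * (2 ^ (j * L)) ^ 2 * P.card ^ 2))) := by
    intro i
    induction i with
    | zero =>
      intro _
      refine ⟨Bool, P, fun a => decide (0 < a 3), subset_rfl, ?_, by simp⟩
      simpa using NAT.good_zero P
    | succ i ih =>
      intro hi
      obtain ⟨Λ, Q, lab, hQ, hG, hE⟩ := ih (by omega)
      obtain ⟨Q', lab', hQ', hG', hU⟩ := hSTEP Λ n P.card _ _ j Q lab hn (hS.mono hQ) hG
      have eB : 4 * (10 ^ 5) ^ i * (2 ^ (j * i)) ^ 2 * (10 ^ 5 * (2 ^ j) ^ 2) =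
          4 * (10 ^ 5) ^ (i + 1) * (2 ^ (j * (i + 1))) ^ 2 := by
        rw [mul_add j, mul_one, pow_add 2, pow_succ (10 ^ 5) i, mul_pow]
        ring
      have eS : (2 ^ (j * i)) ^ 3 * (2 ^ j) ^ 3 = (2 ^ (j * (i + 1))) ^ 3 := by
        rw [mul_add j, mul_one, pow_add 2, mul_pow]
      rw [eB, eS] at hG'
      refine ⟨_, Q', lab', hQ'.trans hQ, hG', ?_⟩
      obtain ⟨k, hk⟩ : ∃ k, L = i + k := ⟨L - i, by omega⟩
      have hd := NAT.drop hTWO hLOCS (A := Q \ Q') (c := C₀ * K * 2 ^ (j * (i + 2 * k + 2))) hG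
        sdiff_subset (card_le_card hQ) (by positivity) fun T hT hl => by
          rcases T.eq_empty_or_nonempty with rfl | ⟨a, ha⟩
          · simp [En]
          obtain ⟨F, hF0, hFd, hFz⟩ := hU (lab a)
          have hTQ : T ⊆ Q := hT.trans sdiff_subset
          refine hC₀ n K _ T F hn hK (hS.mono (hTQ.trans hQ)) (FewCirc_mono hF (hTQ.trans hQ))
            hF0 hFd (fun b hb => hFz b (hTQ hb) (mem_sdiff.1 (hT hb)).2 (hl b hb a ha)) ?_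
          have h3 := (hG.2.2.1 T hTQ hl).trans h2
          refine Nat.le_of_mul_le_mul_left (c := (2 ^ (j * i)) ^ 3) (h3.trans ?_) (by positivity)
          simp only [← pow_mul, ← pow_add]
          refine Nat.pow_le_pow_right two_pos ?_
          rw [hk]
          calc 8 * j + j * (i + k) * 8 ≤ 8 * j + j * (i + k) * 8 + (2 * (j * k) + 2 * j) :=
              Nat.le_add_right _ _
            _ = _ := by ring
      have hX := hd.trans (NAT.ar_drop (A := (10 ^ 5) ^ L) (D := 2 ^ (j * L)) (t := 2 ^ j)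
        (Nat.pow_le_pow_right (by norm_num) (by omega)) hA
        (Nat.pow_le_pow_right two_pos (Nat.mul_le_mul_left _ (by omega))) hD hK (by
          simp only [← pow_mul, ← pow_add]
          rw [hk]
          congr 1
          ring))
      have hu := hUNI Q Q' (Q \ Q') fun a ha => by
        rw [mem_union, mem_sdiff]
        tauto
      generalize (5 + 16 * C₀ * (2 ^ j) ^ 2) * ((10 ^ 5) ^ L) ^ 2 *
        (K ^ 2 * (2 ^ (j * L)) ^ 2 * P.card ^ 2) = X at hE hX ⊢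
      calc En P ≤ 8 ^ i * (En Q + i * X) := hE
        _ ≤ 8 ^ i * (8 * (En Q' + X) + 8 * (i * X)) := by
          refine Nat.mul_le_mul_left _ ?_
          omega
        _ = 8 ^ (i + 1) * (En Q' + (i + 1) * X) := by ring
  obtain ⟨Λ, Q, lab, hQ, hG, hE⟩ := key L le_rfl
  have hm : Q.card ≤ P.card := card_le_card hQ
  have h3 := hFIN Λ n P.card _ K (j * L) (8 * j) (4 * (10 ^ 5) ^ L) Q lab (hS.mono hQ)
    (FewCirc_mono hF hQ) hK (by omega) hG hm le_rfl h1 h2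
  have h5 : Q.card ^ 2 ≤ P.card ^ 2 := Nat.pow_le_pow_left hm 2
  have h4 := (hTWO Λ lab Q _ hG.1).trans
    (add_le_add h5 (Nat.mul_le_mul_left _ (add_le_add h5 h3)))
  have hb : 8 ^ L * 2 ^ L ≤ (10 ^ 5) ^ L := by
    rw [← mul_pow]
    exact Nat.pow_le_pow_left (by norm_num) _
  have h6 := NAT.ar_fin (m := P.card) (j := j) (c₁ := 10 ^ 106 * (2 ^ (8 * j)) ^ 2)
    (c₂ := 5 + 16 * C₀ * (2 ^ j) ^ 2) hA hD hK hb (Nat.lt_two_pow_self (n := L))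
  have e30 : ((10 : ℕ) ^ 30) ^ L = ((10 ^ 5) ^ L) ^ 6 := by
    rw [← pow_mul, ← pow_mul, ← pow_mul]
    congr 1
    ring
  rw [e30]
  refine hE.trans (le_trans (Nat.mul_le_mul_left _ (Nat.add_le_add_right (h4.trans ?_) _)) h6)
  refine le_of_eq ?_
  rw [mul_right_comm (10 ^ 106) (j * L + 8 * j + 1)]

end Pool.Agent.Lib.E94
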