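import Pool.Agent.Lib.E94.Blue

set_option autoImplicit false

namespace Pool.Agent.Lib.E94

open Finset MvPolynomial
open Pool.Agent.Lib.MP_fb430f_co

namespace SPH

lemma numer {k n e d : ℕ} (N : Fin n → MvPolynomial (Fin k) ℝ) (Δ : MvPolynomial (Fin k) ℝ)
    (hN : ∀ i, (N i).totalDegree ≤ e) (hΔ : Δ.totalDegree ≤ e) (F : MvPolynomial (Fin n) ℝ)
    (hF : F.totalDegree ≤ d) : ∃ F' : MvPolynomial (Fin k) ℝ, F'.totalDegree ≤ e * d ∧
      ∀ u, eval u Δ ≠ 0 → eval u F' = eval u Δ ^ d * eval (fun i => eval u (N i) / eval u Δ) F := by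
  classical
  have hα : ∀ α ∈ F.support, ∑ i, α i ≤ d := fun α h => by
    have := (le_totalDegree h).trans hF
    rwa [Finsupp.sum_fintype _ _ (fun _ => rfl)] at this
  refine ⟨∑ α ∈ F.support, C (coeff α F) * (∏ i, N i ^ α i) * Δ ^ (d - ∑ i, α i),
    totalDegree_finsetSum_le fun α h => ?_, fun u hu => ?_⟩
  · refine (totalDegree_mul _ _).trans ?_
    have h1 : (C (coeff α F) * ∏ i, N i ^ α i).totalDegree ≤ (∑ i, α i) * e := by
      refine (totalDegree_mul _ _).trans ?_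
      rw [totalDegree_C, zero_add, sum_mul]
      exact (totalDegree_finsetProd _ _).trans (sum_le_sum fun i _ =>
        (totalDegree_pow _ _).trans (Nat.mul_le_mul_left _ (hN i)))
    have h2 := (totalDegree_pow Δ (d - ∑ i, α i)).trans (Nat.mul_le_mul_left _ hΔ)
    calc _ ≤ (∑ i, α i) * e + (d - ∑ i, α i) * e := add_le_add h1 h2
      _ = e * d := by rw [← add_mul, Nat.add_sub_cancel' (hα α h), mul_comm]
  · rw [eval_eq' _ F, mul_sum, map_sum]
    refine sum_congr rfl fun α h => ?_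
    simp only [map_mul, eval_C, map_prod, map_pow, div_pow, prod_div_distrib,
      prod_pow_eq_pow_sum]
    rw [pow_sub₀ _ hu (hα α h)]
    ring

/-- An orthogonal basis of the hyperplane orthogonal to `u`. -/
def qb (u : Fin 4 → ℝ) : Fin 3 → Fin 4 → ℝ :=
  ![![-u 1, u 0, -u 3, u 2], ![-u 2, u 3, u 0, -u 1], ![-u 3, -u 2, u 1, u 0]]

def zz (u : Fin 4 → ℝ) (w : Fin 3 → ℝ) : Fin 4 → ℝ := fun k => ∑ j, qb u j k * w j

/-- Reflection of `a` in the hyperplane orthogonal to `z`. -/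
noncomputable def rf (a z : Fin 4 → ℝ) : Fin 4 → ℝ := fun k => a k - 2 * (a ⬝ᵥ z) / (z ⬝ᵥ z) * z k

lemma dot_ne {k : ℕ} {u : Fin k → ℝ} (hu : u ≠ 0) : u ⬝ᵥ u ≠ 0 :=
  fun h => hu (dotProduct_self_eq_zero.1 h)

lemma zz_self (u : Fin 4 → ℝ) (w : Fin 3 → ℝ) : zz u w ⬝ᵥ zz u w = (u ⬝ᵥ u) * (w ⬝ᵥ w) := by
  simp [zz, qb, dotProduct, Fin.sum_univ_succ]
  ring

lemma zz_surj {u z : Fin 4 → ℝ} (hu : u ≠ 0) (hz : z ⬝ᵥ u = 0) : ∃ w, zz u w = z := by
  have h := dot_ne hu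
  refine ⟨fun j => qb u j ⬝ᵥ z / (u ⬝ᵥ u), funext fun k => ?_⟩
  simp only [zz, ← mul_div_assoc, ← sum_div]
  rw [div_eq_iff h]
  simp only [dotProduct, Fin.sum_univ_four] at hz
  fin_cases k <;> simp [qb, dotProduct, Fin.sum_univ_succ]
  · linear_combination (-u 0) * hz
  · linear_combination (-u 1) * hz
  · linear_combination (-u 2) * hz
  · linear_combination (-u 3) * hz

lemma rf_smul (a u : Fin 4 → ℝ) (w : Fin 3 → ℝ) {t : ℝ} (ht : t ≠ 0) :
    rf a (zz u (t • w)) = rf a (zz u w) := by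
  have h : zz u (t • w) = t • zz u w := funext fun k => by
    simp only [zz, Pi.smul_apply, smul_eq_mul, mul_sum]
    exact sum_congr rfl fun j _ => by ring
  funext k
  simp only [h, rf, dotProduct_smul, smul_dotProduct, smul_eq_mul, Pi.smul_apply]
  by_cases h0 : zz u w ⬝ᵥ zz u w = 0
  · simp [h0]
  · field_simp

lemma rf_sub {a x : Fin 4 → ℝ} (h : x ⬝ᵥ x = a ⬝ᵥ a) (hx : x ≠ a) : rf a (a - x) = x := by
  have h1 := dot_ne (sub_ne_zero.2 hx.symm)
  have h2 : 2 * (a ⬝ᵥ (a - x)) = (a - x) ⬝ᵥ (a - x) := by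
    simp only [dotProduct, Fin.sum_univ_four, Pi.sub_apply] at h ⊢
    linear_combination -h
  funext k
  simp only [rf]
  rw [h2, div_self h1]
  simp

lemma exists_w {a x u : Fin 4 → ℝ} (hu : u ≠ 0) (h : x ⬝ᵥ x = a ⬝ᵥ a) (h' : x ⬝ᵥ u = a ⬝ᵥ u)
    (hx : x ≠ a) : ∃ w : Fin 3 → ℝ, w ≠ 0 ∧ rf a (zz u w) = x := by
  obtain ⟨w, hw⟩ := zz_surj (z := a - x) hu (by rw [sub_dotProduct, h', sub_self])
  refine ⟨w, fun h0 => hx ?_, by rw [hw, rf_sub h hx]⟩
  refine (sub_eq_zero.1 ?_).symm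
  rw [← hw, h0]
  funext k
  simp [zz]

/-- The chart number `i`. -/
noncomputable def ch (a u : Fin 4 → ℝ) (i : Fin 3) (t : Fin 2 → ℝ) : Fin 4 → ℝ :=
  rf a (zz u (i.insertNth 1 t))

lemma ins_ne (i : Fin 3) (t : Fin 2 → ℝ) : (i.insertNth 1 t : Fin 3 → ℝ) ≠ 0 := fun h => by
  simpa using congrFun h i

lemma to_chart (a u : Fin 4 → ℝ) {w : Fin 3 → ℝ} {i : Fin 3} (hi : w i ≠ 0) :
    ∃ t, ch a u i t = rf a (zz u w) := by
  refine ⟨fun j => (w i)⁻¹ * w (i.succAbove j), ?_⟩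
  rw [ch, ← rf_smul a u w (inv_ne_zero hi)]
  refine congrArg (fun s => rf a (zz u s)) (funext fun k => ?_)
  refine i.succAboveCases ?_ (fun j => ?_) k
  · simp [hi]
  · simp

lemma num (a : Fin 4 → ℝ) {u : Fin 4 → ℝ} (hu : u ≠ 0) {k d : ℕ}
    (W : Fin 3 → MvPolynomial (Fin k) ℝ) (hW : ∀ j, (W j).totalDegree ≤ 1)
    (F : MvPolynomial (Fin 3) ℝ) (hF : F.totalDegree ≤ d) :
    ∃ H : MvPolynomial (Fin k) ℝ, H.totalDegree ≤ 2 * d ∧ ∀ t, (fun j => eval t (W j)) ≠ 0 →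
      (eval t H ≠ 0 ↔ eval (pr (rf a (zz u fun j => eval t (W j)))) F ≠ 0) := by
  let Z : Fin 4 → MvPolynomial (Fin k) ℝ := fun l => ∑ j, C (qb u j l) * W j
  have hZ : ∀ l, (Z l).totalDegree ≤ 1 := fun l => totalDegree_finsetSum_le fun j _ =>
    (totalDegree_mul _ _).trans (by rw [totalDegree_C, zero_add]; exact hW j)
  have hZe : ∀ t l, eval t (Z l) = zz u (fun j => eval t (W j)) l := fun t l => by simp [Z, zz]
  have hΔ : (∑ l, Z l * Z l).totalDegree ≤ 2 := totalDegree_finsetSum_le fun l _ =>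
    (totalDegree_mul _ _).trans (add_le_add (hZ l) (hZ l))
  have hA : (∑ l, C (2 * a l) * Z l).totalDegree ≤ 1 := totalDegree_finsetSum_le fun l _ =>
    (totalDegree_mul _ _).trans (by rw [totalDegree_C, zero_add]; exact hZ l)
  obtain ⟨H, h1, h2⟩ := numer (e := 2)
    (fun i : Fin 3 => C (a i.castSucc) * (∑ l, Z l * Z l) - (∑ l, C (2 * a l) * Z l) * Z i.castSucc)
    (∑ l, Z l * Z l) (fun i => (totalDegree_sub _ _).trans (max_le
      ((totalDegree_mul _ _).trans (by rw [totalDegree_C, zero_add]; exact hΔ))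
      ((totalDegree_mul _ _).trans (add_le_add hA (hZ _))))) hΔ F hF
  refine ⟨H, h1, fun t ht => ?_⟩
  set z := zz u fun j => eval t (W j) with hz
  have h3 : eval t (∑ l, Z l * Z l) = z ⬝ᵥ z := by simp only [map_sum, map_mul, hZe, dotProduct, hz]
  have h4 : z ⬝ᵥ z ≠ 0 := by rw [hz, zz_self]; exact mul_ne_zero (dot_ne hu) (dot_ne ht)
  have h5 : eval t (∑ l, C (2 * a l) * Z l) = 2 * (a ⬝ᵥ z) := by
    simp only [map_sum, map_mul, eval_C, hZe, dotProduct, hz, mul_sum, mul_assoc]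
  rw [h2 t (h3 ▸ h4), h3, mul_ne_zero_iff, and_iff_right (pow_ne_zero _ h4)]
  refine iff_of_eq (congrArg (fun y => eval y F ≠ 0) (funext fun i => ?_))
  rw [map_sub, map_mul, map_mul, eval_C, h3, h5, hZe, ← hz]
  simp only [pr, rf]
  field_simp

lemma num_ch (a : Fin 4 → ℝ) {u : Fin 4 → ℝ} (hu : u ≠ 0) (i : Fin 3) {d : ℕ}
    (F : MvPolynomial (Fin 3) ℝ) (hF : F.totalDegree ≤ d) :
    ∃ H : MvPolynomial (Fin 2) ℝ, H.totalDegree ≤ 2 * d ∧
      ∀ t, (eval t H ≠ 0 ↔ eval (pr (ch a u i t)) F ≠ 0) := by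
  obtain ⟨H, h1, h2⟩ := num a hu (k := 2) (i.insertNth 1 X) (fun j => by
    refine i.succAboveCases ?_ (fun l => ?_) j <;> simp) F hF
  refine ⟨H, h1, fun t => ?_⟩
  have h3 : (fun j => eval t ((i.insertNth 1 X : Fin 3 → MvPolynomial (Fin 2) ℝ) j)) =
      i.insertNth 1 t := funext fun j => by
    refine i.succAboveCases ?_ (fun l => ?_) j <;> simp
  have h4 := h2 t
  rw [h3] at h4
  exact h4 (ins_ne i t)

lemma cont_ch (a : Fin 4 → ℝ) {u : Fin 4 → ℝ} (hu : u ≠ 0) (i : Fin 3) :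
    Continuous fun t => pr (ch a u i t) := by
  have h1 : Continuous fun t : Fin 2 → ℝ => (i.insertNth 1 t : Fin 3 → ℝ) :=
    continuous_pi fun j => by
      refine i.succAboveCases ?_ (fun l => ?_) j
      · simpa using continuous_const
      · simpa using continuous_apply l
  have h2 : Continuous fun t : Fin 2 → ℝ => zz u (i.insertNth 1 t) :=
    continuous_pi fun k => continuous_finsetSum _ fun j _ =>
      continuous_const.mul ((continuous_apply j).comp h1)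
  refine continuous_pi fun k => continuous_const.sub (Continuous.mul (Continuous.div
    (continuous_const.mul (continuous_const.dotProduct h2)) (h2.dotProduct h2) fun t => ?_)
    ((continuous_apply _).comp h2))
  rw [zz_self]
  exact mul_ne_zero (dot_ne hu) (dot_ne (ins_ne i t))

lemma count {ι : Type} (L : Finset ι) (x : ι → Fin 4 → ℝ) {u : Fin 4 → ℝ} (hu : u ≠ 0) {r c : ℝ}
    (G : MvPolynomial (Fin 3) ℝ) {e : ℕ} (hG : G.totalDegree ≤ e)
    (hL : ∀ i ∈ L, x i ⬝ᵥ x i = r ∧ x i ⬝ᵥ u = c ∧ eval (pr (x i)) G ≠ 0)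
    (hinj : Set.InjOn (fun i => cell G (pr (x i))) L) (B : ℕ)
    (h : ∀ l0 ∈ L, ∀ (i : Fin 3) (H : MvPolynomial (Fin 2) ℝ) (T : Finset (Fin 2 → ℝ)),
      H.totalDegree ≤ 2 * e → (∀ t ∈ T, eval t H ≠ 0 ∧ ∃ l ∈ L, x l = ch (x l0) u i t) →
      Set.InjOn (cell H) T → T.card ≤ B) : L.card ≤ 3 * B + 1 := by
  classical
  rcases L.eq_empty_or_nonempty with rfl | ⟨l0, hl0⟩
  · simp
  have h1 : ∀ l ∈ L.erase l0, ∃ i t, ch (x l0) u i t = x l := fun l hl => by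
    obtain ⟨hne, hl⟩ := mem_erase.1 hl
    obtain ⟨w, hw, hw'⟩ := exists_w hu ((hL l hl).1.trans (hL l0 hl0).1.symm)
      ((hL l hl).2.1.trans (hL l0 hl0).2.1.symm) fun he => hne (hinj hl hl0 (by simp only [he]))
    obtain ⟨i, hi⟩ := Function.ne_iff.1 hw
    obtain ⟨t, ht⟩ := to_chart (x l0) u hi
    exact ⟨i, t, ht.trans hw'⟩
  choose! ci ct hc using h1
  have h2 : (L.erase l0).card ≤ B * ((L.erase l0).image ci).card := by
    refine card_le_mul_card_image _ B fun i _ => ?_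
    obtain ⟨H, hH, hH'⟩ := num_ch (x l0) hu i G hG
    have h3 : ∀ l ∈ (L.erase l0).filter fun l => ci l = i, l ∈ L ∧ ch (x l0) u i (ct l) = x l :=
      fun l hl => by
        obtain ⟨h4, rfl⟩ := mem_filter.1 hl
        exact ⟨mem_of_mem_erase h4, hc l h4⟩
    have h4 : Set.InjOn ct ((L.erase l0).filter fun l => ci l = i) := fun l hl l' hl' he =>
      hinj (h3 l hl).1 (h3 l' hl').1 (by simp only [← (h3 l hl).2, ← (h3 l' hl').2, he])
    have h5 : ∀ l ∈ (L.erase l0).filter fun l => ci l = i, eval (ct l) H ≠ 0 := fun l hl => by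
      rw [hH', (h3 l hl).2]
      exact (hL l (h3 l hl).1).2.2
    rw [← card_image_of_injOn h4]
    refine h l0 hl0 i H _ hH (forall_mem_image.2 fun l hl =>
      ⟨h5 l hl, l, (h3 l hl).1, (h3 l hl).2.symm⟩) ?_
    rw [coe_image]
    rintro _ ⟨l, hl, rfl⟩ _ ⟨l', hl', rfl⟩ he
    have h6 := cell_map (F := G) (cont_ch (x l0) hu i) (fun y hy => (hH' y).1 hy) (h5 l hl) he
    rw [(h3 l hl).2, (h3 l' hl').2] at h6
    rw [hinj (h3 l hl).1 (h3 l' hl').1 h6]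
  have h3 : ((L.erase l0).image ci).card ≤ 3 := (card_le_univ _).trans (by simp)
  have h4 := card_erase_add_one hl0
  have h5 := Nat.mul_le_mul_left B h3
  omega

end SPH

theorem bSPH : St_SPH := fun _ L x _ _ _ G e hu hG hL hinj =>
  SPH.count L x hu G hG hL hinj _ fun _ _ _ H T hH hT hi =>
    (cell_bound H hH T (fun t ht => (hT t ht).1) hi).trans (le_of_eq (by ring))

theorem bSPC (hCC : St_CC) : St_SPC := by
  intro ι L x u r c F G d e hu hF hG ⟨x0, h0, h0', h0''⟩ hL hinj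
  refine (SPH.count L x hu G hG (fun i hi => ⟨(hL i hi).1, (hL i hi).2.1, (hL i hi).2.2.2⟩) hinj
    (18 * (2 * (2 * d) + 1) * (2 * e + 2 * (2 * d) + 3)) fun l0 hl0 i H T hH hT hi => ?_).trans
    (le_of_eq (by ring))
  obtain ⟨g, hg, hg'⟩ := SPH.num_ch (x l0) hu i F hF
  refine hCC g H _ _ T (fun h0g => ?_) hg hH (fun t ht => ⟨?_, (hT t ht).1⟩) hi
  · obtain ⟨w, hw, hw'⟩ := SPH.exists_w hu (h0.trans (hL l0 hl0).1.symm)
      (h0'.trans (hL l0 hl0).2.1.symm) fun he => h0'' (he ▸ (hL l0 hl0).2.2.1)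
    obtain ⟨H3, -, h3⟩ := SPH.num (x l0) hu (k := 3) X (fun j => by simp) F hF
    simp only [eval_X] at h3
    have h4 : H3 ≠ 0 := fun h => (h3 w hw).2 (hw' ▸ h0'') (by rw [h, map_zero])
    obtain ⟨w', -, h5⟩ := exists_eval_ne (mul_ne_zero h4 (X_ne_zero i)) (y := 0) Filter.univ_mem
    rw [map_mul, eval_X, mul_ne_zero_iff] at h5
    obtain ⟨t, ht⟩ := SPH.to_chart (x l0) u h5.2
    refine (hg' t).2 ?_ (by rw [h0g, map_zero])
    rw [ht]
    exact (h3 w' fun h => h5.2 (congrFun h i)).1 h5.1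
  · obtain ⟨l, hl, he⟩ := (hT t ht).2
    by_contra hne
    exact (hg' t).1 hne (he ▸ (hL l hl).2.2.1)

end Pool.Agent.Lib.E94
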