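import Pool.Agent.Lib.MP_fb430f_co.Main

set_option autoImplicit false

namespace Pool.Agent.Lib.E94

open Finset MvPolynomial Pointwise
open Pool.Agent.Lib.MP_fb430f_co

abbrev Z4 := Fin 4 → ℤ

/-- The real point of a lattice point. -/
def cst (a : Z4) : Fin 4 → ℝ := fun i => (a i : ℝ)

/-- Forget the last coordinate. -/
def pr (x : Fin 4 → ℝ) : Fin 3 → ℝ := fun i => x i.castSucc

/-- Projection of three-space to the plane along `τ`. -/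
noncomputable def rho (τ y : Fin 3 → ℝ) : Fin 2 → ℝ :=
  fun i => y i.castSucc - τ i.castSucc / τ 2 * y 2

/-- Direction of `w` in the chart where coordinate `i` is one. -/
noncomputable def dir (i : Fin 4) (w : Z4) : Fin 4 → ℝ := fun k => (w k : ℝ) / (w i : ℝ)

/-- All points lie on the sphere of radius `n`. -/
def Sph (n : ℕ) (P : Finset Z4) : Prop := ∀ a ∈ P, a ⬝ᵥ a = (n : ℤ) ^ 2

/-- Energy, counted over differences. -/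
def En (A : Finset Z4) : ℕ := ∑ w ∈ A - A, (Av A w).card ^ 2

open Classical in
/-- Local pairs with difference `w`. -/
noncomputable def Loc {Λ : Type} (lab : Z4 → Λ) (A : Finset Z4) (w : Z4) : Finset Z4 :=
  A.filter fun a => a - w ∈ A ∧ lab (a - w) = lab a

lemma mem_Loc {Λ : Type} {lab : Z4 → Λ} {A : Finset Z4} {w a : Z4} :
    a ∈ Loc lab A w ↔ a ∈ A ∧ a - w ∈ A ∧ lab (a - w) = lab a := by
  simp only [Loc, mem_filter]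

lemma mem_Av {A : Finset Z4} {w a : Z4} : a ∈ Av A w ↔ a ∈ A ∧ a - w ∈ A := by
  simp only [Av, mem_filter]

lemma FewCirc_mono {P Q : Finset Z4} {K : ℕ} (h : FewCirc P K) (hQ : Q ⊆ P) : FewCirc Q K :=
  fun v v' hv hv' hne => (card_le_card (filter_subset_filter _ hQ)).trans (h v v' hv hv' hne)

lemma Sph.mono {n : ℕ} {P Q : Finset Z4} (h : Sph n P) (hQ : Q ⊆ P) : Sph n Q :=
  fun a ha => h a (hQ ha)

/-- A bound for all subsets on which `f` is injective bounds the image. -/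
lemma card_image_le_of_injOn {α β : Type*} [DecidableEq β] (s : Finset α) (f : α → β) (B : ℕ)
    (h : ∀ T ⊆ s, Set.InjOn f T → T.card ≤ B) : (s.image f).card ≤ B := by
  obtain ⟨T, h1, h2, h3⟩ := exists_subset_injOn_image_eq_of_surjOn (f := f) (s : Set α) (s.image f)
    (by rw [coe_image]; exact Set.surjOn_image _ _)
  rw [← h3, card_image_of_injOn h2]
  exact h T (coe_subset.1 h1) h2

/-- Cells are carried along a continuous map. -/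
lemma cell_map {k l : ℕ} {G : MvPolynomial (Fin k) ℝ} {F : MvPolynomial (Fin l) ℝ}
    {φ : (Fin k → ℝ) → Fin l → ℝ} (hφ : Continuous φ)
    (h : ∀ y, eval y G ≠ 0 → eval (φ y) F ≠ 0) {y y' : Fin k → ℝ} (hy : eval y G ≠ 0)
    (he : cell G y = cell G y') : cell F (φ y) = cell F (φ y') := by
  have h1 : y ∈ cell G y := mem_connectedComponentIn hy
  have h2 : y' ∈ cell G y := by
    rw [he] at h1 ⊢
    exact mem_connectedComponentIn (connectedComponentIn_nonempty_iff.1 ⟨_, h1⟩)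
  refine connectedComponentIn_eq
    ((isPreconnected_connectedComponentIn.image φ hφ.continuousOn).subset_connectedComponentIn
      ⟨_, h1, rfl⟩ ?_ ⟨_, h2, rfl⟩)
  rintro _ ⟨w, hw, rfl⟩
  exact h w (connectedComponentIn_subset _ _ hw)

/-- At most `B` pairs of labels occur along each nonzero difference. -/
def Two {Λ : Type} (lab : Z4 → Λ) (Q : Finset Z4) (B : ℕ) : Prop :=
  ∀ v : Z4, v ≠ 0 → ∀ T ⊆ Av Q v, Set.InjOn (fun a => (lab a, lab (a - v))) T → T.card ≤ B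

lemma Two.mono {Λ : Type} {lab : Z4 → Λ} {Q A : Finset Z4} {B : ℕ} (h : Two lab Q B)
    (hA : A ⊆ Q) : Two lab A B := fun v hv T hT => h v hv T fun _ ha =>
  mem_Av.2 ⟨hA (mem_Av.1 (hT ha)).1, hA (mem_Av.1 (hT ha)).2⟩

/-- The group of `a` has points on both sides of the hyperplane orthogonal to `θ`. -/
def Cross {Λ : Type} (lab : Z4 → Λ) (Q : Finset Z4) (θ : Fin 4 → ℝ) (a : Z4) : Prop :=
  ∃ b ∈ Q, ∃ c ∈ Q, lab b = lab a ∧ lab c = lab a ∧ cst b ⬝ᵥ θ ≤ 0 ∧ 0 < cst c ⬝ᵥ θ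

/-- A stage of the nested partition. -/
def Good {Λ : Type} (m : ℕ) (Q : Finset Z4) (lab : Z4 → Λ) (B S : ℕ) : Prop :=
  Two lab Q B ∧
  (∀ θ : Fin 4 → ℝ, ∀ T ⊆ Q, (∀ a ∈ T, Cross lab Q θ a) → Set.InjOn lab T → T.card ≤ B) ∧
  (∀ T ⊆ Q, (∀ a ∈ T, ∀ c ∈ T, lab a = lab c) → S * T.card ≤ m) ∧
  ∀ a ∈ Q, ∀ c ∈ Q, lab a = lab c → (0 < a 3 ↔ 0 < c 3)

/-- Polynomials of degree at most `N` separate at most `c (N + 1)` points of `P`. -/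
def Hilb (P : Finset Z4) (c : ℕ) : Prop :=
  ∀ (N : ℕ) (Y : Finset Z4) (p : Z4 → MvPolynomial (Fin 4) ℝ), Y ⊆ P →
    (∀ y ∈ Y, (p y).totalDegree ≤ N ∧ eval (cst y) (p y) ≠ 0 ∧
      ∀ y' ∈ Y, y' ≠ y → eval (cst y') (p y) = 0) → Y.card ≤ c * (N + 1)

def St_SPH : Prop :=
  ∀ (ι : Type) (L : Finset ι) (x : ι → Fin 4 → ℝ) (u : Fin 4 → ℝ) (r c : ℝ)
    (G : MvPolynomial (Fin 3) ℝ) (e : ℕ), u ≠ 0 → G.totalDegree ≤ e →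
    (∀ i ∈ L, x i ⬝ᵥ x i = r ∧ x i ⬝ᵥ u = c ∧ eval (pr (x i)) G ≠ 0) →
    Set.InjOn (fun i => cell G (pr (x i))) L → L.card ≤ 3 * (4 * e + 5) ^ 2 + 1

def St_CC : Prop :=
  ∀ (g f : MvPolynomial (Fin 2) ℝ) (c e : ℕ) (T : Finset (Fin 2 → ℝ)), g ≠ 0 →
    g.totalDegree ≤ c → f.totalDegree ≤ e → (∀ x ∈ T, eval x g = 0 ∧ eval x f ≠ 0) →
    Set.InjOn (cell f) T → T.card ≤ 18 * (2 * c + 1) * (e + 2 * c + 3)

def St_SPC : Prop :=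
  ∀ (ι : Type) (L : Finset ι) (x : ι → Fin 4 → ℝ) (u : Fin 4 → ℝ) (r c : ℝ)
    (F G : MvPolynomial (Fin 3) ℝ) (d e : ℕ), u ≠ 0 → F.totalDegree ≤ d → G.totalDegree ≤ e →
    (∃ x0 : Fin 4 → ℝ, x0 ⬝ᵥ x0 = r ∧ x0 ⬝ᵥ u = c ∧ eval (pr x0) F ≠ 0) →
    (∀ i ∈ L, x i ⬝ᵥ x i = r ∧ x i ⬝ᵥ u = c ∧ eval (pr (x i)) F = 0 ∧ eval (pr (x i)) G ≠ 0) →
    Set.InjOn (fun i => cell G (pr (x i))) L →
    L.card ≤ 54 * (4 * d + 1) * (2 * e + 4 * d + 3) + 1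

def St_EXC : Prop :=
  ∀ (n d : ℕ) (a : Z4) (F : MvPolynomial (Fin 3) ℝ) (V : Finset Z4), 1 ≤ n →
    a ⬝ᵥ a = (n : ℤ) ^ 2 → F ≠ 0 → F.totalDegree ≤ d →
    (∀ v ∈ V, v ≠ 0 ∧ On v a ∧ ∀ x : Fin 4 → ℝ, x ⬝ᵥ x = (n : ℝ) ^ 2 →
      x ⬝ᵥ cst v = cst v ⬝ᵥ cst v / 2 → eval (pr x) F = 0) → V.card ≤ 2 * d + 1

def St_HILB : Prop :=
  ∀ (n : ℕ) (P : Finset Z4) (F : MvPolynomial (Fin 3) ℝ) (τ : Fin 3 → ℝ)
    (f : MvPolynomial (Fin 2) ℝ), Sph n P → τ 2 ≠ 0 →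
    eval τ (homogeneousComponent F.totalDegree F) ≠ 0 → f ≠ 0 →
    (∀ a ∈ P, eval (pr (cst a)) F = 0 ∧ eval (rho τ (pr (cst a))) f = 0) →
    Hilb P (2 * F.totalDegree * f.totalDegree)

def St_INT : Prop :=
  ∀ (n K c : ℕ) (P : Finset Z4), Sph n P → FewCirc P K → Hilb P c →
    En P ≤ 4 * (c + 1) * (K + 1) * P.card ^ 2

def St_UNI : Prop :=
  ∀ A B C : Finset Z4, A ⊆ B ∪ C → En A ≤ 8 * (En B + En C)

def St_TWO : Prop :=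
  ∀ (Λ : Type) (lab : Z4 → Λ) (A : Finset Z4) (B : ℕ), Two lab A B →
    En A ≤ A.card ^ 2 + B * (A.card ^ 2 + ∑ w ∈ (A - A).erase 0, (Loc lab A w).card ^ 2)

def St_LOCS : Prop :=
  ∀ (Λ : Type) (lab : Z4 → Λ) (A : Finset Z4) (B X : ℕ), Two lab A B →
    (∀ T ⊆ A, (∀ a ∈ T, ∀ c ∈ T, lab a = lab c) → En T ≤ X * T.card) →
    ∑ w ∈ (A - A).erase 0, (Loc lab A w).card ^ 2 ≤ B * X * A.card

def St_SURF : Prop :=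
  ∀ d : ℕ, ∃ C : ℕ, ∀ (n K j : ℕ) (P : Finset Z4) (F : MvPolynomial (Fin 3) ℝ), 1 ≤ n → 1 ≤ K →
    Sph n P → FewCirc P K → F ≠ 0 → F.totalDegree ≤ d → (∀ a ∈ P, eval (pr (cst a)) F = 0) →
    P.card ≤ (2 ^ j) ^ 5 → En P ≤ C * K * 2 ^ j * P.card ^ 2

def St_STEP : Prop :=
  ∀ (Λ : Type) (n m B S j : ℕ) (Q : Finset Z4) (lab : Z4 → Λ), 1 ≤ n → Sph n Q →
    Good m Q lab B S →
    ∃ (Q' : Finset Z4) (lab' : Z4 → Λ × Set (Fin 3 → ℝ)), Q' ⊆ Q ∧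
      Good m Q' lab' (B * (10 ^ 5 * (2 ^ j) ^ 2)) (S * (2 ^ j) ^ 3) ∧
      ∀ U : Λ, ∃ F : MvPolynomial (Fin 3) ℝ, F ≠ 0 ∧ F.totalDegree ≤ 18 * 2 ^ j + 2 ∧
        ∀ a ∈ Q, a ∉ Q' → lab a = U → eval (pr (cst a)) F = 0

open Classical in
def St_DIRG : Prop :=
  ∀ (P W : Finset Z4) (i : Fin 4) (j : ℕ), (∀ w ∈ W, w i ≠ 0) →
    ∃ (W' : Finset Z4) (lab : Z4 → Set (Fin 3 → ℝ)), W' ⊆ W ∧
      W.card ≤ W'.card + 10 ^ 9 * (2 ^ j) ^ 3 ∧ (W'.image lab).card ≤ 10 ^ 9 * (2 ^ j) ^ 3 ∧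
      (∀ U, (2 ^ j) ^ 3 * (W'.filter fun w => lab w = U).card ≤ W.card) ∧
      ∀ a ∈ P, ((W'.filter fun w => cst a ⬝ᵥ dir i w ≤ 0 ∧
        ∃ w' ∈ W', lab w' = lab w ∧ 0 < cst a ⬝ᵥ dir i w').image lab).card ≤ 10 ^ 9 * (2 ^ j) ^ 2

def St_NLOC : Prop :=
  ∀ (Λ : Type) (n m B S K j Y l : ℕ) (Q W : Finset Z4) (lab : Z4 → Λ), Sph n Q → FewCirc Q K →
    Good m Q lab B S → Q.card ≤ m → 0 < S → 2 * K ≤ l → 0 < l →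
    2 * 10 ^ 9 * m ≤ 2 ^ j * Y → B * m ≤ S * Y →
    (∀ w ∈ W, w ≠ 0 ∧ 2 * l ≤ (Loc lab Q w).card) →
    W.card * l ^ 7 ≤ 10 ^ 65 * (2 ^ j) ^ 3 * (l ^ 7 + Y * l ^ 6 + K ^ 3 * Y ^ 4)

def St_FIN : Prop :=
  ∀ (Λ : Type) (n m B K s q Γ : ℕ) (Q : Finset Z4) (lab : Z4 → Λ), Sph n Q → FewCirc Q K →
    1 ≤ K → 1 ≤ Γ → Good m Q lab B ((2 ^ s) ^ 3) → Q.card ≤ m → B ≤ Γ * (2 ^ s) ^ 2 →
    (2 ^ s) ^ 8 ≤ m → m ≤ 2 ^ q * (2 ^ s) ^ 8 →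
    ∑ w ∈ (Q - Q).erase 0, (Loc lab Q w).card ^ 2 ≤
      10 ^ 106 * (s + q + 1) * (2 ^ q) ^ 2 * Γ ^ 4 * K ^ 2 * m ^ 2

def St_NAT : Prop :=
  ∀ j : ℕ, ∃ C : ℕ, ∀ (n K L : ℕ) (P : Finset Z4), 1 ≤ n → 1 ≤ K → Sph n P → FewCirc P K →
    (2 ^ (j * L)) ^ 8 ≤ P.card → P.card ≤ 2 ^ (8 * j) * (2 ^ (j * L)) ^ 8 →
    En P ≤ C * (10 ^ 30) ^ L * K ^ 2 * (2 ^ (j * L)) ^ 2 * P.card ^ 2

def St_MAIN : Prop :=
  ∀ ε : ℝ, 0 < ε → ∃ C : ℝ, ∀ n : ℕ, 1 ≤ n → ∀ P : Finset (Fin 4 → ℤ),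
    (∀ x ∈ P, ∑ i, x i ^ 2 = (n : ℤ) ^ 2) →
    (Finset.addEnergy P P : ℝ) ≤ C * (P.card : ℝ) ^ (9 / 4 : ℝ) * (n : ℝ) ^ ε

end Pool.Agent.Lib.E94
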